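import Pool.Agent.Lib.MP_60a66a_gt.Slope

set_option autoImplicit false
set_option linter.unusedSectionVars false

open Filter Topology Set

namespace Pool.Agent.Lib.MP60a66a

variable {G : Type*} [NormedAddCommGroup G] [NormedSpace ℝ G]

/-- Lower room. -/
def MM : Set (ℝ × ℝ) := {z | (-1 < z.1 ∧ z.1 < 1) ∧ (-1 < z.2 ∧ z.2 < 0)}

/-- Upper room. -/
def RR : Set (ℝ × ℝ) := {z | (-1 < z.1 ∧ z.1 < 1) ∧ (1 / 100 < z.2 ∧ z.2 < 1)}

/-- Corridor (extended on both sides). -/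
def CC : Set (ℝ × ℝ) := {z | (-(1 / 8) < z.1 ∧ z.1 < 1 / 8) ∧ (-1 < z.2 ∧ z.2 < 1)}

/-- Right pocket (extended downwards). -/
def PP : Set (ℝ × ℝ) := {z | (1 / 4 < z.1 ∧ z.1 < 3 / 4) ∧ (-1 < z.2 ∧ z.2 < 1 / 2)}

/-- Left pocket (extended downwards). -/
def PN : Set (ℝ × ℝ) := {z | (-(3 / 4) < z.1 ∧ z.1 < -(1 / 4)) ∧ (-1 < z.2 ∧ z.2 < 1 / 2)}

/-- Lower room, corridor, upper room. -/
def Om2 : Set (ℝ × ℝ) := MM ∪ CC ∪ RR

/-- Lower room and right pocket. -/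
def OmP : Set (ℝ × ℝ) := MM ∪ PP

/-- Lower room and left pocket. -/
def OmN : Set (ℝ × ℝ) := MM ∪ PN

lemma box_convex (a b c d : ℝ) : Convex ℝ {z : ℝ × ℝ | (a < z.1 ∧ z.1 < b) ∧ (c < z.2 ∧ z.2 < d)} := by
  have : {z : ℝ × ℝ | (a < z.1 ∧ z.1 < b) ∧ (c < z.2 ∧ z.2 < d)} = Ioo a b ×ˢ Ioo c d := by
    ext z; simp
  rw [this]
  exact (convex_Ioo a b).prod (convex_Ioo c d)

lemma box_open (a b c d : ℝ) : IsOpen {z : ℝ × ℝ | (a < z.1 ∧ z.1 < b) ∧ (c < z.2 ∧ z.2 < d)} := by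
  have : {z : ℝ × ℝ | (a < z.1 ∧ z.1 < b) ∧ (c < z.2 ∧ z.2 < d)} = Ioo a b ×ˢ Ioo c d := by
    ext z; simp
  rw [this]
  exact isOpen_Ioo.prod isOpen_Ioo

lemma MM_convex : Convex ℝ MM := box_convex _ _ _ _
lemma RR_convex : Convex ℝ RR := box_convex _ _ _ _
lemma CC_convex : Convex ℝ CC := box_convex _ _ _ _
lemma PP_convex : Convex ℝ PP := box_convex _ _ _ _
lemma PN_convex : Convex ℝ PN := box_convex _ _ _ _
lemma MM_open : IsOpen MM := box_open _ _ _ _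

lemma MM_sub_Om2 : MM ⊆ Om2 := fun _ h => Or.inl (Or.inl h)
lemma CC_sub_Om2 : CC ⊆ Om2 := fun _ h => Or.inl (Or.inr h)
lemma RR_sub_Om2 : RR ⊆ Om2 := fun _ h => Or.inr h
lemma MM_sub_OmP : MM ⊆ OmP := fun _ h => Or.inl h
lemma PP_sub_OmP : PP ⊆ OmP := fun _ h => Or.inr h
lemma MM_sub_OmN : MM ⊆ OmN := fun _ h => Or.inl h
lemma PN_sub_OmN : PN ⊆ OmN := fun _ h => Or.inr h

/-- Moving along a leaf inside a convex subset of the domain. -/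
lemma Foliated.move_convex {Ω : Set (ℝ × ℝ)} {P : ℝ × ℝ → G} (F : Foliated Ω P) {C : Set (ℝ × ℝ)}
    (hC : Convex ℝ C) (hCΩ : C ⊆ Ω) {z z' v : ℝ × ℝ} (h : LeafDir P z v) {s : ℝ}
    (hz' : z' = z + s • v) (hz : z ∈ C) (hz'C : z' ∈ C) : P z' = P z ∧ LeafDir P z' v :=
  h.move_seg F.isOpen F.analytic hz' ((hC.segment_subset hz hz'C).trans hCΩ)

/-- Vertical transversal. -/
lemma Foliated.slopeV [CompleteSpace G] {Ω : Set (ℝ × ℝ)} {P : ℝ × ℝ → G} (F : Foliated Ω P)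
    {x0 c d ys ms : ℝ} (hJ : ∀ y ∈ Ioo c d, (x0, y) ∈ Ω) (hys : ys ∈ Ioo c d)
    (hleaf : LeafDir P (x0, ys) (1, ms)) :
    ∃ μ : ℝ → ℝ, AnalyticOnNhd ℝ μ (Ioo c d) ∧ (∀ y ∈ Ioo c d, LeafDir P (x0, y) (1, μ y)) ∧
      μ ys = ms := by
  have e1 : ∀ t : ℝ, ((x0, 0) : ℝ × ℝ) + t • ((0, 1) : ℝ × ℝ) = (x0, t) := by
    intro t; ext <;> simp
  have e2 : ∀ t : ℝ, ((1, 0) : ℝ × ℝ) + t • ((0, 1) : ℝ × ℝ) = (1, t) := by
    intro t; ext <;> simp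
  obtain ⟨μ, h1, h2⟩ := F.exists_slope (z0 := (x0, 0)) (a := (1, 0)) (b := (0, 1)) (by norm_num)
    isOpen_Ioo isPreconnected_Ioo (J := Ioo c d) (fun t ht => by rw [e1]; exact hJ t ht) hys (by
      rw [e1]
      intro h
      have := F.unique (hJ ys hys) hleaf h
      norm_num at this)
  refine ⟨μ, h1, ?_, ?_⟩
  · intro y hy
    have := h2 y hy
    rwa [e1, e2] at this
  · have := h2 ys hys
    rw [e1, e2] at this
    have h3 := F.unique (hJ ys hys) hleaf this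
    simp only [one_mul, mul_one] at h3
    linarith

/-- Horizontal transversal. -/
lemma Foliated.slopeH [CompleteSpace G] {Ω : Set (ℝ × ℝ)} {P : ℝ × ℝ → G} (F : Foliated Ω P)
    {y0 c d ts ks : ℝ} (hJ : ∀ t ∈ Ioo c d, (t, y0) ∈ Ω) (hts : ts ∈ Ioo c d)
    (hleaf : LeafDir P (ts, y0) (ks, 1)) :
    ∃ κ : ℝ → ℝ, AnalyticOnNhd ℝ κ (Ioo c d) ∧ (∀ t ∈ Ioo c d, LeafDir P (t, y0) (κ t, 1)) ∧
      κ ts = ks := by
  have e1 : ∀ t : ℝ, ((0, y0) : ℝ × ℝ) + t • ((1, 0) : ℝ × ℝ) = (t, y0) := by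
    intro t; ext <;> simp
  have e2 : ∀ t : ℝ, ((0, 1) : ℝ × ℝ) + t • ((1, 0) : ℝ × ℝ) = (t, 1) := by
    intro t; ext <;> simp
  obtain ⟨μ, h1, h2⟩ := F.exists_slope (z0 := (0, y0)) (a := (0, 1)) (b := (1, 0)) (by norm_num)
    isOpen_Ioo isPreconnected_Ioo (J := Ioo c d) (fun t ht => by rw [e1]; exact hJ t ht) hts (by
      rw [e1]
      intro h
      have := F.unique (hJ ts hts) hleaf h
      norm_num at this)
  refine ⟨μ, h1, ?_, ?_⟩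
  · intro y hy
    have := h2 y hy
    rwa [e1, e2] at this
  · have := h2 ts hts
    rw [e1, e2] at this
    have h3 := F.unique (hJ ts hts) hleaf this
    simp only [one_mul, mul_one] at h3
    linarith

/-- First exit of a continuous function from an open set. -/
lemma first_exit {a b : ℝ} {good : Set ℝ} (hopen : ∀ x ∈ Icc a b, x ∈ good →
    ∀ᶠ y in 𝓝 x, y ∈ good) (ha : a ∈ good) :
    (∀ x ∈ Icc a b, x ∈ good) ∨
      ∃ x1 ∈ Ioc a b, (∀ x ∈ Ico a x1, x ∈ good) ∧ x1 ∉ good := by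
  by_cases hall : ∀ x ∈ Icc a b, x ∈ good
  · exact Or.inl hall
  · right
    push Not at hall
    obtain ⟨x2, hx2, hx2b⟩ := hall
    set B : Set ℝ := {x | x ∈ Icc a b ∧ x ∉ good} with hB
    have hBne : B.Nonempty := ⟨x2, hx2, hx2b⟩
    have hBbdd : BddBelow B := ⟨a, fun x hx => hx.1.1⟩
    set x1 := sInf B with hx1
    have hax1 : a ≤ x1 := le_csInf hBne (fun x hx => hx.1.1)
    have hx1b : x1 ≤ b := (csInf_le hBbdd ⟨hx2, hx2b⟩).trans hx2.2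
    have hbefore : ∀ x ∈ Ico a x1, x ∈ good := by
      intro x hx
      by_contra hxg
      have : x1 ≤ x := csInf_le hBbdd ⟨⟨hx.1, hx.2.le.trans hx1b⟩, hxg⟩
      linarith [hx.2]
    have hx1ng : x1 ∉ good := by
      intro hg
      have hev := hopen x1 ⟨hax1, hx1b⟩ hg
      obtain ⟨δ, hδ, hball⟩ := Metric.eventually_nhds_iff_ball.1 hev
      obtain ⟨x, hxB, hxlt⟩ := exists_lt_of_csInf_lt hBne (show sInf B < x1 + δ by rw [← hx1]; linarith)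
      have hx1x : x1 ≤ x := csInf_le hBbdd hxB
      apply hxB.2
      apply hball
      rw [Metric.mem_ball, Real.dist_eq, abs_of_nonneg (by linarith)]
      linarith
    refine ⟨x1, ⟨?_, hx1b⟩, hbefore, hx1ng⟩
    rcases hax1.eq_or_lt with h | h
    · rw [← h] at hx1ng; exact absurd ha hx1ng
    · exact h


lemma LeafDir.congr {P P' : ℝ × ℝ → G} {U : Set (ℝ × ℝ)} (hU : IsOpen U) {z v : ℝ × ℝ}
    (hz : z ∈ U) (hE : EqOn P P' U) (h : LeafDir P z v) : LeafDir P' z v := by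
  have hc : Continuous (fun s : ℝ => z + s • v) := by fun_prop
  have h1 : ∀ᶠ s : ℝ in 𝓝 0, z + s • v ∈ U := by
    have := hc.tendsto 0
    simp only [zero_smul, add_zero] at this
    exact this.eventually (hU.mem_nhds hz)
  filter_upwards [h, h1] with s hs hs1
  rw [← hE hs1, ← hE hz, hs]

end Pool.Agent.Lib.MP60a66a
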