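import Pool.Agent.Lib.MP_60a66a_gt.Defs
import Pool.Agent.Lib.MP_60a66a_gt.Rooms

set_option autoImplicit false
set_option linter.unusedSectionVars false

open Filter Topology Set unitInterval
open scoped ContDiff InnerProductSpace

namespace Pool.Agent.Lib.MP60a66a

/-- The step function. -/
noncomputable def vv (x : ℝ) : ℝ := Real.smoothTransition (8 * x - 1) + Real.smoothTransition (-8 * x - 1)

lemma vv_smooth : ContDiff ℝ ∞ vv := by
  unfold vv
  exact (Real.smoothTransition.contDiff.comp (by fun_prop)).add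
    (Real.smoothTransition.contDiff.comp (by fun_prop))

lemma vv_nonneg (x : ℝ) : 0 ≤ vv x :=
  add_nonneg (Real.smoothTransition.nonneg _) (Real.smoothTransition.nonneg _)

lemma vv_le (x : ℝ) : vv x ≤ 2 := by
  unfold vv
  linarith [Real.smoothTransition.le_one (8 * x - 1), Real.smoothTransition.le_one (-8 * x - 1)]

lemma vv_zero {x : ℝ} (h : -(1 / 8) < x) (h' : x < 1 / 8) : vv x = 0 := by
  unfold vv
  rw [Real.smoothTransition.zero_of_nonpos (by linarith),
    Real.smoothTransition.zero_of_nonpos (by linarith), add_zero]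

lemma vv_one {x : ℝ} (h : 1 / 4 < x) : vv x = 1 := by
  unfold vv
  rw [Real.smoothTransition.one_of_one_le (by linarith),
    Real.smoothTransition.zero_of_nonpos (by linarith), add_zero]

lemma vv_one' {x : ℝ} (h : x < -(1 / 4)) : vv x = 1 := by
  unfold vv
  rw [Real.smoothTransition.zero_of_nonpos (by linarith),
    Real.smoothTransition.one_of_one_le (by linarith), zero_add]

lemma deriv_vv_zero {x : ℝ} (h : -(1 / 8) < x) (h' : x < 1 / 8) : deriv vv x = 0 := by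
  have : vv =ᶠ[𝓝 x] fun _ => (0 : ℝ) := by
    filter_upwards [isOpen_Ioo.mem_nhds (show x ∈ Ioo (-(1 / 8) : ℝ) (1 / 8) from ⟨h, h'⟩)] with y hy
    exact vv_zero hy.1 hy.2
  rw [this.deriv_eq]; simp

lemma deriv_vv_one {x : ℝ} (h : 1 / 4 < x) : deriv vv x = 0 := by
  have : vv =ᶠ[𝓝 x] fun _ => (1 : ℝ) := by
    filter_upwards [isOpen_Ioi.mem_nhds (show x ∈ Ioi (1 / 4 : ℝ) from h)] with y hy
    exact vv_one hy
  rw [this.deriv_eq]; simp

lemma deriv_vv_one' {x : ℝ} (h : x < -(1 / 4)) : deriv vv x = 0 := by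
  have : vv =ᶠ[𝓝 x] fun _ => (1 : ℝ) := by
    filter_upwards [isOpen_Iio.mem_nhds (show x ∈ Iio (-(1 / 4) : ℝ) from h)] with y hy
    exact vv_one' hy
  rw [this.deriv_eq]; simp

/-- The shear coefficient. -/
noncomputable def aa (z : ℝ × ℝ) : ℝ := deriv vv z.1 * Real.smoothTransition (100 * z.2)

lemma aa_smooth : ContDiff ℝ ∞ aa := by
  unfold aa
  have h1 : ContDiff ℝ ∞ (deriv vv) := (contDiff_infty_iff_deriv.1 vv_smooth).2
  exact (h1.comp contDiff_fst).mul (Real.smoothTransition.contDiff.comp (by fun_prop))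

/-- The metric. -/
noncomputable def gg : PlaneMetric where
  E := fun z => 1 + aa z ^ 2
  F := fun z => -aa z
  G := fun _ => 1

lemma gg_smooth : gg.IsSmoothRiemannian := by
  refine ⟨⟨?_, ?_, ?_⟩, fun z => ⟨?_, ?_⟩⟩
  · exact contDiff_const.add (aa_smooth.pow 2)
  · exact aa_smooth.neg
  · exact contDiff_const
  · simp only [gg]; positivity
  · simp only [gg]; nlinarith

/-- Upper room in the coordinate plane. -/
def RR' : Set (ℝ × ℝ) := {z | (z.1, z.2 - vv z.1) ∈ RR}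

/-- The domain. -/
def DD : Set (ℝ × ℝ) := (MM ∪ CC ∪ PP ∪ PN) ∪ RR'

lemma RR'_open : IsOpen RR' := by
  have h : Continuous (fun z : ℝ × ℝ => ((z.1, z.2 - vv z.1) : ℝ × ℝ)) := by
    have := vv_smooth.continuous
    fun_prop
  exact (box_open _ _ _ _).preimage h

lemma AA_open : IsOpen (MM ∪ CC ∪ PP ∪ PN) :=
  ((MM_open.union (box_open _ _ _ _)).union (box_open _ _ _ _)).union (box_open _ _ _ _)

lemma DD_open : IsOpen DD := AA_open.union RR'_open

lemma DD_bounded : Bornology.IsBounded DD := by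
  have : DD ⊆ Icc (-1 : ℝ) 1 ×ˢ Icc (-1 : ℝ) 3 := by
    rintro ⟨x, y⟩ h
    rcases h with (((h | h) | h) | h) | h
    · exact ⟨⟨h.1.1.le, h.1.2.le⟩, ⟨h.2.1.le, by simp only; linarith [h.2.2]⟩⟩
    · exact ⟨⟨by simp only; linarith [h.1.1], by simp only; linarith [h.1.2]⟩,
        ⟨h.2.1.le, by simp only; linarith [h.2.2]⟩⟩
    · exact ⟨⟨by simp only; linarith [h.1.1], by simp only; linarith [h.1.2]⟩,
        ⟨h.2.1.le, by simp only; linarith [h.2.2]⟩⟩
    · exact ⟨⟨by simp only; linarith [h.1.1], by simp only; linarith [h.1.2]⟩,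
        ⟨h.2.1.le, by simp only; linarith [h.2.2]⟩⟩
    · obtain ⟨h1, h2⟩ := h
      have h3 := vv_nonneg x
      have h4 := vv_le x
      simp only at h1 h2
      exact ⟨⟨h1.1.le, h1.2.le⟩, ⟨by simp only; linarith [h2.1], by simp only; linarith [h2.2]⟩⟩
  exact (isCompact_Icc.prod isCompact_Icc).isBounded.subset this

lemma aa_zero {z : ℝ × ℝ} (h : z ∈ MM ∪ CC ∪ PP ∪ PN) : aa z = 0 := by
  unfold aa
  rcases h with ((h | h) | h) | h
  · rw [Real.smoothTransition.zero_of_nonpos (by linarith [h.2.2]), mul_zero]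
  · rw [deriv_vv_zero h.1.1 h.1.2, zero_mul]
  · rw [deriv_vv_one h.1.1, zero_mul]
  · rw [deriv_vv_one' h.1.2, zero_mul]

lemma aa_RR' {z : ℝ × ℝ} (h : z ∈ RR') : aa z = deriv vv z.1 := by
  unfold aa
  have h1 := vv_nonneg z.1
  have h2 := h.2.1
  simp only at h2
  rw [Real.smoothTransition.one_of_one_le (by linarith), mul_one]

lemma form_flat {z : ℝ × ℝ} (h : z ∈ MM ∪ CC ∪ PP ∪ PN) (u v : ℝ × ℝ) :
    gg.form z u v = u.1 * v.1 + u.2 * v.2 := by
  simp only [PlaneMetric.form, gg, aa_zero h]; ring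

lemma form_RR' {z : ℝ × ℝ} (h : z ∈ RR') (u v : ℝ × ℝ) :
    gg.form z u v = u.1 * v.1 + (u.2 - deriv vv z.1 * u.1) * (v.2 - deriv vv z.1 * v.1) := by
  simp only [PlaneMetric.form, gg, aa_RR' h]; ring

/-- The shear. -/
noncomputable def sh (z : ℝ × ℝ) : ℝ × ℝ := (z.1, z.2 - vv z.1)

/-- The inverse shear. -/
noncomputable def shi (z : ℝ × ℝ) : ℝ × ℝ := (z.1, z.2 + vv z.1)

lemma hasFDerivAt_vv (z : ℝ × ℝ) :
    HasFDerivAt (fun z : ℝ × ℝ => vv z.1) (deriv vv z.1 • ContinuousLinearMap.fst ℝ ℝ ℝ) z := by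
  have h1 : HasDerivAt vv (deriv vv z.1) z.1 :=
    (vv_smooth.differentiable (by simp)).differentiableAt.hasDerivAt
  exact h1.comp_hasFDerivAt z hasFDerivAt_fst

lemma fderiv_sh (z u : ℝ × ℝ) : fderiv ℝ sh z u = (u.1, u.2 - deriv vv z.1 * u.1) := by
  have h1 := (hasFDerivAt_fst (𝕜 := ℝ) (p := z)).prodMk
    ((hasFDerivAt_snd (𝕜 := ℝ) (p := z)).sub (hasFDerivAt_vv z))
  have h2 : HasFDerivAt sh _ z := h1
  rw [h2.fderiv]
  simp

lemma hasFDerivAt_shi (z : ℝ × ℝ) : HasFDerivAt shi ((ContinuousLinearMap.fst ℝ ℝ ℝ).prod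
    (ContinuousLinearMap.snd ℝ ℝ ℝ + deriv vv z.1 • ContinuousLinearMap.fst ℝ ℝ ℝ)) z :=
  (hasFDerivAt_fst (𝕜 := ℝ) (p := z)).prodMk
    ((hasFDerivAt_snd (𝕜 := ℝ) (p := z)).add (hasFDerivAt_vv z))

lemma sh_smooth : ContDiff ℝ ∞ sh := by
  unfold sh
  exact contDiff_fst.prodMk (contDiff_snd.sub (vv_smooth.comp contDiff_fst))

lemma shi_smooth : ContDiff ℝ ∞ shi := by
  unfold shi
  exact contDiff_fst.prodMk (contDiff_snd.add (vv_smooth.comp contDiff_fst))

lemma sh_injective : Function.Injective sh := by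
  intro z w h
  have h1 : z.1 = w.1 := by
    have h3 : (sh z).1 = (sh w).1 := by rw [h]
    exact h3
  have h2 : z.2 - vv z.1 = w.2 - vv w.1 := by
    have h3 : (sh z).2 = (sh w).2 := by rw [h]
    exact h3
  rw [h1] at h2
  ext
  · exact h1
  · linarith

lemma gg_locEuclid : gg.IsLocallyEuclideanOn DD := by
  intro z hz
  rcases hz with h | h
  · refine ⟨MM ∪ CC ∪ PP ∪ PN, id, AA_open, h, fun w hw => Or.inl hw, contDiff_id.contDiffOn,
      injOn_id _, ?_⟩
    intro w hw u v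
    rw [form_flat hw]
    simp
  · refine ⟨RR', sh, RR'_open, h, fun w hw => Or.inr hw, sh_smooth.contDiffOn,
      sh_injective.injOn, ?_⟩
    intro w hw u v
    rw [form_RR' hw, fderiv_sh, fderiv_sh]

/-- Inclusion of a subset as a continuous map. -/
def incl {A X : Set (ℝ × ℝ)} (h : A ⊆ X) : C(A, X) := ⟨Set.inclusion h, continuous_inclusion h⟩

lemma null_of_deform {A B X : Set (ℝ × ℝ)} (hAX : A ⊆ X) (hBX : B ⊆ X)
    (hB : (incl hBX).Nullhomotopic) (H : ℝ × (ℝ × ℝ) → ℝ × ℝ) (hH : Continuous H)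
    (h0 : ∀ z, H (0, z) = z) (h1 : ∀ z ∈ A, H (1, z) ∈ B)
    (hm : ∀ z ∈ A, ∀ s ∈ Icc (0 : ℝ) 1, H (s, z) ∈ X) : (incl hAX).Nullhomotopic := by
  let k : C(A, B) := ⟨fun z => ⟨H (1, z.1), h1 z.1 z.2⟩, by
    apply Continuous.subtype_mk
    fun_prop⟩
  have hk : ((incl hBX).comp k).Nullhomotopic := hB.comp_left k
  have hhom : (incl hAX).Homotopic ((incl hBX).comp k) := by
    refine ⟨⟨⟨fun p => ⟨H (p.1.1, p.2.1), hm p.2.1 p.2.2 p.1.1 p.1.2⟩, ?_⟩, ?_, ?_⟩⟩
    · apply Continuous.subtype_mk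
      fun_prop
    · intro z
      apply Subtype.ext
      simp [h0, incl]
    · intro z
      apply Subtype.ext
      simp [incl, k]
  obtain ⟨y, hy⟩ := hk
  exact ⟨y, hhom.trans hy⟩

lemma MM_null {X : Set (ℝ × ℝ)} (h : MM ⊆ X) : (incl h).Nullhomotopic := by
  have : ContractibleSpace MM := MM_convex.contractibleSpace ⟨(0, -(1 / 2)), by norm_num, by norm_num⟩
  have h1 := (id_nullhomotopic MM).comp_right (incl h)
  simpa using h1

/-- Vertical deformation. -/
noncomputable def H2 (p : ℝ × (ℝ × ℝ)) : ℝ × ℝ :=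
  (p.2.1, (1 - p.1) * p.2.2 + p.1 * (p.2.2 / 4 - 1 / 2))

/-- Horizontal deformation of the upper room. -/
noncomputable def H1 (p : ℝ × (ℝ × ℝ)) : ℝ × ℝ :=
  ((1 - 15 / 16 * p.1 * max 0 (min 1 (100 * (p.2.2 - vv p.2.1)))) * p.2.1,
    p.2.2 - vv p.2.1 + vv ((1 - 15 / 16 * p.1 * max 0 (min 1 (100 * (p.2.2 - vv p.2.1)))) * p.2.1))

lemma H2_mem {a b c d s : ℝ} {z : ℝ × ℝ} (hs : s ∈ Icc (0 : ℝ) 1)
    (hz : z ∈ {z : ℝ × ℝ | (a < z.1 ∧ z.1 < b) ∧ (c < z.2 ∧ z.2 < d)}) (hc : c = -1) (hd : 0 ≤ d) : H2 (s, z) ∈ {z : ℝ × ℝ | (a < z.1 ∧ z.1 < b) ∧ (c < z.2 ∧ z.2 < d)} := by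
  obtain ⟨h1, h2, h3⟩ := hz
  refine ⟨h1, ?_, ?_⟩
  · simp only [H2]
    have e1 : (1 - s) * c ≤ (1 - s) * z.2 := mul_le_mul_of_nonneg_left h2.le (by linarith [hs.2])
    have e2 : s * c ≤ s * (z.2 / 4 - 1 / 2) := mul_le_mul_of_nonneg_left (by linarith) hs.1
    rcases hs.1.eq_or_lt with h | h
    · rw [← h]; linarith
    · have e3 : s * c < s * (z.2 / 4 - 1 / 2) := mul_lt_mul_of_pos_left (by linarith) h
      linarith
  · simp only [H2]
    have e1 : (1 - s) * z.2 ≤ (1 - s) * d := mul_le_mul_of_nonneg_left h3.le (by linarith [hs.2])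
    rcases hs.1.eq_or_lt with h | h
    · rw [← h]; linarith
    · have e3 : s * (z.2 / 4 - 1 / 2) < s * d := mul_lt_mul_of_pos_left (by linarith) h
      linarith

lemma AA_null (h : MM ∪ CC ∪ PP ∪ PN ⊆ DD) : (incl h).Nullhomotopic := by
  have hMD : MM ⊆ DD := fun z hz => Or.inl (Or.inl (Or.inl (Or.inl hz)))
  refine null_of_deform h hMD (MM_null hMD) H2 (by unfold H2; fun_prop) ?_ ?_ ?_
  · intro z
    simp [H2]
  · intro z hz
    have hx : -1 < z.1 ∧ z.1 < 1 := by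
      rcases hz with ((h | h) | h) | h
      · exact h.1
      · exact ⟨by linarith [h.1.1], by linarith [h.1.2]⟩
      · exact ⟨by linarith [h.1.1], by linarith [h.1.2]⟩
      · exact ⟨by linarith [h.1.1], by linarith [h.1.2]⟩
    have hy : -1 < z.2 ∧ z.2 < 1 := by
      rcases hz with ((h | h) | h) | h
      · exact ⟨by linarith [h.2.1], by linarith [h.2.2]⟩
      · exact ⟨by linarith [h.2.1], by linarith [h.2.2]⟩
      · exact ⟨by linarith [h.2.1], by linarith [h.2.2]⟩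
      · exact ⟨by linarith [h.2.1], by linarith [h.2.2]⟩
    exact ⟨hx, ⟨by simp only [H2]; linarith, by simp only [H2]; linarith⟩⟩
  · intro z hz s hs
    left
    rcases hz with ((h | h) | h) | h
    · exact Or.inl (Or.inl (Or.inl (H2_mem hs h rfl (le_refl _))))
    · exact Or.inl (Or.inl (Or.inr (H2_mem hs h rfl (by norm_num))))
    · exact Or.inl (Or.inr (H2_mem hs h rfl (by norm_num)))
    · exact Or.inr (H2_mem hs h rfl (by norm_num))

lemma H1_of_nonpos {s : ℝ} {z : ℝ × ℝ} (h : z.2 - vv z.1 ≤ 0) : H1 (s, z) = z := by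
  have h1 : max 0 (min 1 (100 * (z.2 - vv z.1))) = 0 :=
    max_eq_left ((min_le_right _ _).trans (by linarith))
  simp only [H1, h1]
  ext <;> simp

lemma factor_mem {s t : ℝ} (hs : s ∈ Icc (0 : ℝ) 1) (ht : t ∈ Icc (0 : ℝ) 1) :
    1 - 15 / 16 * s * t ∈ Icc (0 : ℝ) 1 := by
  have h1 : s * t ≤ 1 := by nlinarith [hs.1, hs.2, ht.1, ht.2]
  have h2 : 0 ≤ s * t := mul_nonneg hs.1 ht.1
  constructor <;> nlinarith

lemma clamp_mem (x : ℝ) : max 0 (min 1 x) ∈ Icc (0 : ℝ) 1 :=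
  ⟨le_max_left _ _, max_le (by norm_num) (min_le_left _ _)⟩

lemma scale_lt {c x b : ℝ} (hc : c ∈ Icc (0 : ℝ) 1) (h1 : -b < x) (h2 : x < b) :
    -b < c * x ∧ c * x < b := by
  have hb : 0 < b := by linarith
  rcases hc.1.eq_or_lt with h | h
  · rw [← h]; constructor <;> linarith
  · constructor
    · have : c * (-b) < c * x := mul_lt_mul_of_pos_left h1 h
      nlinarith [hc.2]
    · have : c * x < c * b := mul_lt_mul_of_pos_left h2 h
      nlinarith [hc.2]

lemma DD_null : (incl (Subset.refl DD)).Nullhomotopic := by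
  have hAD : MM ∪ CC ∪ PP ∪ PN ⊆ DD := fun z hz => Or.inl hz
  have hMPP : ∀ z ∈ MM ∪ PP ∪ PN, z.2 - vv z.1 ≤ 0 := by
    rintro z ((h | h) | h)
    · linarith [vv_nonneg z.1, h.2.2]
    · rw [vv_one h.1.1]; linarith [h.2.2]
    · rw [vv_one' h.1.2]; linarith [h.2.2]
  have hCC : ∀ z ∈ CC, ∀ s ∈ Icc (0 : ℝ) 1, H1 (s, z) ∈ CC := by
    intro z hz s hs
    have hc := factor_mem hs (clamp_mem (100 * (z.2 - vv z.1)))
    have h1 := scale_lt (b := 1 / 8) hc hz.1.1 hz.1.2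
    refine ⟨h1, ?_⟩
    simp only [H1]
    rw [vv_zero h1.1 h1.2, vv_zero hz.1.1 hz.1.2]
    simpa using hz.2
  have hRR : ∀ z ∈ RR', ∀ s ∈ Icc (0 : ℝ) 1, H1 (s, z) ∈ RR' := by
    intro z hz s hs
    have hc := factor_mem hs (clamp_mem (100 * (z.2 - vv z.1)))
    have h1 := scale_lt (b := 1) hc hz.1.1 hz.1.2
    refine ⟨h1, ?_⟩
    have h2 := hz.2
    simp only at h2
    simp only [H1]
    constructor <;> linarith [h2.1, h2.2]
  refine null_of_deform (Subset.refl DD) hAD (AA_null hAD) H1 (by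
    have := vv_smooth.continuous
    unfold H1; fun_prop) ?_ ?_ ?_
  · intro z
    simp [H1]
  · intro z hz
    rcases hz with (((h | h) | h) | h) | h
    · rw [H1_of_nonpos (hMPP z (Or.inl (Or.inl h)))]; exact Or.inl (Or.inl (Or.inl h))
    · exact Or.inl (Or.inl (Or.inr (hCC z h 1 ⟨by norm_num, le_refl _⟩)))
    · rw [H1_of_nonpos (hMPP z (Or.inl (Or.inr h)))]; exact Or.inl (Or.inr h)
    · rw [H1_of_nonpos (hMPP z (Or.inr h))]; exact Or.inr h
    · have h2 := h.2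
      simp only at h2
      have hcl : max 0 (min 1 (100 * (z.2 - vv z.1))) = 1 := by
        rw [min_eq_left (by linarith [h2.1])]; norm_num
      have hx : (-(1 / 8) : ℝ) < (1 - 15 / 16 * 1 * 1) * z.1 ∧ (1 - 15 / 16 * 1 * 1) * z.1 < 1 / 8 := by
        have h3 := h.1.1
        have h4 := h.1.2
        simp only at h3 h4
        constructor <;> linarith
      refine Or.inl (Or.inl (Or.inr ⟨?_, ?_⟩))
      · simp only [H1, hcl]; exact hx
      · simp only [H1, hcl]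
        rw [vv_zero hx.1 hx.2]
        constructor <;> linarith [h2.1, h2.2]
  · intro z hz s hs
    rcases hz with (((h | h) | h) | h) | h
    · rw [H1_of_nonpos (hMPP z (Or.inl (Or.inl h)))]; exact Or.inl (Or.inl (Or.inl (Or.inl h)))
    · exact Or.inl (Or.inl (Or.inl (Or.inr (hCC z h s hs))))
    · rw [H1_of_nonpos (hMPP z (Or.inl (Or.inr h)))]; exact Or.inl (Or.inl (Or.inr h))
    · rw [H1_of_nonpos (hMPP z (Or.inr h))]; exact Or.inl (Or.inr h)
    · exact Or.inr (hRR z h s hs)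

lemma DD_simplyConnected : IsSimplyConnected DD := by
  have h1 : (ContinuousMap.id DD).Nullhomotopic := DD_null
  have : ContractibleSpace DD := (contractible_iff_id_nullhomotopic DD).2 h1
  exact (inferInstance : SimplyConnectedSpace DD)

end Pool.Agent.Lib.MP60a66a
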