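import Mathlib

set_option autoImplicit false

open Set Filter Topology MeasureTheory
open scoped ENNReal NNReal ContDiff Interval RealInnerProductSpace

namespace Pool.Agent.Lib.MP60a66a.Reg

abbrev E3 := EuclideanSpace ℝ (Fin 3)

/-- Inner products with the images of the two basis vectors. -/
noncomputable def Tm {E : Type*} [NormedAddCommGroup E] [InnerProductSpace ℝ E]
    (A : ℝ × ℝ →L[ℝ] E) : E →L[ℝ] ℝ × ℝ :=
  (innerSL ℝ (A (1, 0))).prod (innerSL ℝ (A (0, 1)))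

theorem Tm_apply {E : Type*} [NormedAddCommGroup E] [InnerProductSpace ℝ E]
    (A : ℝ × ℝ →L[ℝ] E) (p : E) : Tm A p = (⟪A (1, 0), p⟫, ⟪A (0, 1), p⟫) := rfl

theorem Tm_comp {E : Type*} [NormedAddCommGroup E] [InnerProductSpace ℝ E]
    {A : ℝ × ℝ →L[ℝ] E} (hA : ∀ u v : ℝ × ℝ, ⟪A u, A v⟫ = u.1 * v.1 + u.2 * v.2) (u : ℝ × ℝ) :
    Tm A (A u) = u := by
  rw [Tm_apply, hA, hA]
  simp

theorem exists_param {ρ : ℝ × ℝ → E3} {z₀ : ℝ × ℝ} {A : ℝ × ℝ →L[ℝ] E3}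
    (hρ : HasFDerivAt ρ A z₀) (hA : ∀ u v : ℝ × ℝ, ⟪A u, A v⟫ = u.1 * v.1 + u.2 * v.2)
    {F : E3 → ℝ} (hF : AnalyticAt ℝ F (ρ z₀)) (hdF : fderiv ℝ F (ρ z₀) ≠ 0)
    (hzero : ∀ᶠ z in 𝓝 z₀, F (ρ z) = 0) :
    ∃ X : ℝ × ℝ → E3, AnalyticAt ℝ X (Tm A (ρ z₀)) ∧ ∀ᶠ z in 𝓝 z₀, X (Tm A (ρ z)) = ρ z := by
  have hdFA : ∀ u, fderiv ℝ F (ρ z₀) (A u) = 0 := by
    intro u
    have h1 : HasFDerivAt (fun z => F (ρ z)) ((fderiv ℝ F (ρ z₀)).comp A) z₀ :=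
      (hF.differentiableAt.hasFDerivAt).comp z₀ hρ
    have h2 : HasFDerivAt (fun z => F (ρ z)) (0 : ℝ × ℝ →L[ℝ] ℝ) z₀ :=
      (hasFDerivAt_const (0:ℝ) z₀).congr_of_eventuallyEq hzero
    have := congrArg (fun L : ℝ × ℝ →L[ℝ] ℝ => L u) (h1.unique h2)
    simpa using this
  let L : E3 →L[ℝ] (ℝ × ℝ) × ℝ := (Tm A).prod (fderiv ℝ F (ρ z₀))
  have hker : Module.finrank ℝ (LinearMap.ker (Tm A : E3 →ₗ[ℝ] ℝ × ℝ)) = 1 := by
    have h1 := LinearMap.finrank_range_add_finrank_ker (Tm A : E3 →ₗ[ℝ] ℝ × ℝ)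
    have h2 : LinearMap.range (Tm A : E3 →ₗ[ℝ] ℝ × ℝ) = ⊤ :=
      LinearMap.range_eq_top.2 fun u => ⟨A u, Tm_comp hA u⟩
    rw [h2, finrank_top] at h1
    simp at h1
    omega
  have hinj : Function.Injective (L : E3 →ₗ[ℝ] (ℝ × ℝ) × ℝ) := by
    rw [← LinearMap.ker_eq_bot, LinearMap.ker_eq_bot']
    intro τ hτ
    by_contra hne
    have hτ1 : Tm A τ = 0 := congrArg Prod.fst hτ
    have hτ2 : fderiv ℝ F (ρ z₀) τ = 0 := congrArg Prod.snd hτ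
    apply hdF
    ext p
    let τ' : LinearMap.ker (Tm A : E3 →ₗ[ℝ] ℝ × ℝ) := ⟨τ, hτ1⟩
    have hτ' : τ' ≠ 0 := fun h => hne (congrArg Subtype.val h)
    obtain ⟨c, hc⟩ := (finrank_eq_one_iff_of_nonzero' τ' hτ').1 hker ⟨p - A (Tm A p), by
      rw [LinearMap.mem_ker]
      show Tm A (p - A (Tm A p)) = 0
      rw [map_sub, Tm_comp hA, sub_self]⟩
    have hc' : c • τ = p - A (Tm A p) := congrArg Subtype.val hc
    have : p = A (Tm A p) + c • τ := by rw [hc']; abel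
    rw [this, map_add, map_smul, hdFA, hτ2]
    simp
  let Le : E3 ≃L[ℝ] (ℝ × ℝ) × ℝ :=
    (LinearMap.linearEquivOfInjective (L : E3 →ₗ[ℝ] (ℝ × ℝ) × ℝ) hinj
      (by simp)).toContinuousLinearEquiv
  let Ψ : E3 → (ℝ × ℝ) × ℝ := fun p => (Tm A p, F p)
  have hΨ : AnalyticAt ℝ Ψ (ρ z₀) := ((Tm A).analyticAt _).prod hF
  have hΨd : HasStrictFDerivAt Ψ (Le : E3 →L[ℝ] (ℝ × ℝ) × ℝ) (ρ z₀) := by
    have h1 : HasStrictFDerivAt Ψ L (ρ z₀) :=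
      (Tm A).hasStrictFDerivAt.prodMk hF.hasStrictFDerivAt
    exact h1
  let H := hΨd.toOpenPartialHomeomorph Ψ
  have hH0 : ρ z₀ ∈ H.source := hΨd.mem_toOpenPartialHomeomorph_source
  have hHs : AnalyticAt ℝ H.symm (Ψ (ρ z₀)) :=
    H.analyticAt_symm' (i := Le) hH0 hΨ hΨd.hasFDerivAt.fderiv
  have hF0 : F (ρ z₀) = 0 := hzero.self_of_nhds
  refine ⟨fun y => H.symm (y, 0), ?_, ?_⟩
  · have h2 : AnalyticAt ℝ (fun y : ℝ × ℝ => (y, (0:ℝ))) (Tm A (ρ z₀)) :=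
      analyticAt_id.prod analyticAt_const
    refine AnalyticAt.fun_comp ?_ h2
    rw [← hF0]
    exact hHs
  · have h1 : ∀ᶠ z in 𝓝 z₀, ρ z ∈ H.source :=
      hρ.continuousAt.eventually (H.open_source.mem_nhds hH0)
    filter_upwards [h1, hzero] with z hz hz0
    have : Ψ (ρ z) = (Tm A (ρ z), 0) := by simp only [Ψ, hz0]
    rw [← this]
    exact H.left_inv hz

end Pool.Agent.Lib.MP60a66a.Reg
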