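import Mathlib

set_option autoImplicit false

open Set Filter Topology MeasureTheory
open scoped ENNReal NNReal ContDiff Interval RealInnerProductSpace

namespace Pool.Agent.Lib.MP60a66a.Reg

/-- The du Bois-Reymond lemma. -/
theorem duBoisReymond {A B : ℝ → ℝ} (hA : ContinuousOn A (Icc 0 1)) (hB : ContinuousOn B (Icc 0 1))
    (h : ∀ φ φ' : ℝ → ℝ, (∀ t, HasDerivAt φ (φ' t) t) → Continuous φ' → φ 0 = 0 → φ 1 = 0 →
      ∫ t in (0:ℝ)..1, (B t * φ t + A t * φ' t) = 0) :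
    ∀ t ∈ Icc (0:ℝ) 1, A t = A 0 + ∫ s in (0:ℝ)..t, B s := by
  have h01 : (0:ℝ) ≤ 1 := zero_le_one
  let A' : ℝ → ℝ := fun t => A (projIcc 0 1 h01 t)
  let B' : ℝ → ℝ := fun t => B (projIcc 0 1 h01 t)
  have hA' : Continuous A' := hA.comp_continuous (continuous_subtype_val.comp continuous_projIcc)
    fun t => (projIcc 0 1 h01 t).2
  have hB' : Continuous B' := hB.comp_continuous (continuous_subtype_val.comp continuous_projIcc)
    fun t => (projIcc 0 1 h01 t).2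
  have hAe : ∀ t ∈ Icc (0:ℝ) 1, A' t = A t := by
    intro t ht
    simp only [A', projIcc_of_mem h01 ht]
  have hBe : ∀ t ∈ Icc (0:ℝ) 1, B' t = B t := by
    intro t ht
    simp only [B', projIcc_of_mem h01 ht]
  let b : ℝ → ℝ := fun t => ∫ s in (0:ℝ)..t, B' s
  have hb : ∀ t, HasDerivAt b (B' t) t := fun t => intervalIntegral.integral_hasDerivAt_right
    (hB'.intervalIntegrable _ _) hB'.aestronglyMeasurable.stronglyMeasurableAtFilter hB'.continuousAt
  have hbc : Continuous b := continuous_iff_continuousAt.2 fun t => (hb t).continuousAt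
  let m : ℝ := ∫ t in (0:ℝ)..1, (A' t - b t)
  let g : ℝ → ℝ := fun t => A' t - b t - m
  have hg : Continuous g := (hA'.sub hbc).sub continuous_const
  let φ : ℝ → ℝ := fun t => ∫ s in (0:ℝ)..t, g s
  have hφ : ∀ t, HasDerivAt φ (g t) t := fun t => intervalIntegral.integral_hasDerivAt_right
    (hg.intervalIntegrable _ _) hg.aestronglyMeasurable.stronglyMeasurableAtFilter hg.continuousAt
  have hφc : Continuous φ := continuous_iff_continuousAt.2 fun t => (hφ t).continuousAt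
  have hφ0 : φ 0 = 0 := by simp [φ]
  have hφ1 : φ 1 = 0 := by
    simp only [φ, g]
    have hi : IntervalIntegrable (fun t => A' t - b t) volume 0 1 :=
      (hA'.sub hbc).intervalIntegrable _ _
    rw [intervalIntegral.integral_sub hi (continuous_const.intervalIntegrable _ _)]
    simp [m]
  have h1 := h φ g hφ hg hφ0 hφ1
  have h2 : ∫ t in (0:ℝ)..1, (B t * φ t + A t * g t) = ∫ t in (0:ℝ)..1, (B' t * φ t + A' t * g t) := by
    apply intervalIntegral.integral_congr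
    intro t ht
    rw [uIcc_of_le h01] at ht
    simp only [hAe t ht, hBe t ht]
  have h3 : ∫ t in (0:ℝ)..1, (B' t * φ t + b t * g t) = 0 := by
    have := intervalIntegral.integral_eq_sub_of_hasDerivAt (a := 0) (b := 1)
      (f := fun t => b t * φ t) (f' := fun t => B' t * φ t + b t * g t)
      (fun t _ => (hb t).mul (hφ t))
      (((hB'.mul hφc).add (hbc.mul hg)).intervalIntegrable _ _)
    rw [this, hφ0, hφ1]
    simp
  have h4 : ∫ t in (0:ℝ)..1, g t * g t = 0 := by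
    have e1 : ∀ t, g t * g t = (B' t * φ t + A' t * g t) - (B' t * φ t + b t * g t) - m * g t := by
      intro t
      simp only [g]
      ring
    simp only [e1]
    rw [intervalIntegral.integral_sub, intervalIntegral.integral_sub, ← h2, h1, h3,
      intervalIntegral.integral_const_mul]
    · have : ∫ t in (0:ℝ)..1, g t = 0 := hφ1
      rw [this]
      simp
    · exact ((hB'.mul hφc).add (hA'.mul hg)).intervalIntegrable _ _
    · exact ((hB'.mul hφc).add (hbc.mul hg)).intervalIntegrable _ _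
    · exact (((hB'.mul hφc).add (hA'.mul hg)).sub ((hB'.mul hφc).add (hbc.mul hg))).intervalIntegrable _ _
    · exact (continuous_const.mul hg).intervalIntegrable _ _
  have h5 : ∀ t ∈ Icc (0:ℝ) 1, g t = 0 := by
    by_contra hne
    push Not at hne
    obtain ⟨t, ht, htg⟩ := hne
    have : 0 < ∫ t in (0:ℝ)..1, g t * g t :=
      intervalIntegral.integral_pos zero_lt_one (hg.mul hg).continuousOn
        (fun s _ => mul_self_nonneg _) ⟨t, ht, mul_self_pos.2 htg⟩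
    linarith
  have h6 : ∀ t ∈ Icc (0:ℝ) 1, A t = m + ∫ s in (0:ℝ)..t, B s := by
    intro t ht
    have h7 := h5 t ht
    simp only [g, hAe t ht] at h7
    have h8 : b t = ∫ s in (0:ℝ)..t, B s := by
      apply intervalIntegral.integral_congr
      intro s hs
      rw [uIcc_of_le ht.1] at hs
      exact hBe s ⟨hs.1, hs.2.trans ht.2⟩
    rw [← h8]
    linarith
  intro t ht
  have h9 := h6 0 (left_mem_Icc.2 h01)
  rw [intervalIntegral.integral_same, add_zero] at h9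
  rw [h9]
  exact h6 t ht

variable {W E : Type*} [NormedAddCommGroup W] [NormedSpace ℝ W] [NormedAddCommGroup E]
  [InnerProductSpace ℝ E]

/-- Small perturbations of a compact path stay in an open set. -/
theorem exists_eps {V : Set W} (hV : IsOpen V) {c : ℝ → W} (hc : ContinuousOn c (Icc 0 1))
    (hcV : ∀ t ∈ Icc (0:ℝ) 1, c t ∈ V) {φ : ℝ → ℝ} (hφ : Continuous φ) (e : W) :
    ∃ ε0 : ℝ, 0 < ε0 ∧ ∀ ε t : ℝ, |ε| ≤ ε0 → t ∈ Icc (0:ℝ) 1 → c t + (ε * φ t) • e ∈ V := by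
  have hcomp : IsCompact (c '' Icc 0 1) := isCompact_Icc.image_of_continuousOn hc
  obtain ⟨δ, hδ, hδV⟩ := hcomp.exists_cthickening_subset_open hV (by
    rintro _ ⟨t, ht, rfl⟩
    exact hcV t ht)
  obtain ⟨M, hM⟩ := isCompact_Icc.exists_bound_of_continuousOn (s := Icc (0:ℝ) 1)
    (f := fun t => φ t • e) (by fun_prop)
  have hM0 : 0 ≤ M := (norm_nonneg _).trans (hM 0 (by simp))
  let ε0 : ℝ := δ / (M + 1)
  have hε0 : 0 < ε0 := by positivity
  refine ⟨ε0, hε0, ?_⟩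
  · intro ε t hε ht
    apply hδV
    apply Metric.mem_cthickening_of_dist_le _ (c t) _ _ (mem_image_of_mem _ ht)
    rw [dist_eq_norm, add_sub_cancel_left, mul_smul, norm_smul, Real.norm_eq_abs]
    calc |ε| * ‖φ t • e‖ ≤ ε0 * M := mul_le_mul hε (hM t ht) (norm_nonneg _) hε0.le
      _ ≤ δ := by
        simp only [ε0]
        rw [div_mul_eq_mul_div, div_le_iff₀ (by positivity)]
        nlinarith

/-- Derivative of the energy. -/
theorem hasDerivAt_energy {V : Set W} (hV : IsOpen V) {X' : W → W →L[ℝ] E}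
    {X'' : W → W →L[ℝ] W →L[ℝ] E} (hX' : ∀ x ∈ V, HasFDerivAt X' (X'' x) x)
    (hX'' : ContinuousOn X'' V) {c c' : ℝ → W} (hc : ContinuousOn c (Icc 0 1))
    (hc' : ContinuousOn c' (Icc 0 1)) (hcV : ∀ t ∈ Icc (0:ℝ) 1, c t ∈ V) {φ φ' : ℝ → ℝ}
    (hφ : Continuous φ) (hφ' : Continuous φ') (e : W) :
    HasDerivAt (fun ε : ℝ => ∫ t in (0:ℝ)..1, ‖X' (c t + (ε * φ t) • e) (c' t + (ε * φ' t) • e)‖ ^ 2)
      (∫ t in (0:ℝ)..1, 2 * ⟪X' (c t) (c' t), X'' (c t) (φ t • e) (c' t) + X' (c t) (φ' t • e)⟫) 0 := by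
  obtain ⟨ε0, hε0, hgV⟩ := exists_eps hV hc hcV hφ e
  have hX'c : ContinuousOn X' V := fun x hx => (hX' x hx).continuousAt.continuousWithinAt
  let F' : ℝ → ℝ → ℝ := fun ε t => 2 * ⟪X' (c t + (ε * φ t) • e) (c' t + (ε * φ' t) • e),
    X'' (c t + (ε * φ t) • e) (φ t • e) (c' t + (ε * φ' t) • e) +
      X' (c t + (ε * φ t) • e) (φ' t • e)⟫
  have hgc : ContinuousOn (fun p : ℝ × ℝ => c p.2 + (p.1 * φ p.2) • e)
      (Icc (-ε0) ε0 ×ˢ Icc (0:ℝ) 1) := by
    have : ContinuousOn (fun p : ℝ × ℝ => c p.2) (Icc (-ε0) ε0 ×ˢ Icc (0:ℝ) 1) :=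
      hc.comp continuousOn_snd fun p hp => hp.2
    exact this.add (by fun_prop)
  have hg'c : ContinuousOn (fun p : ℝ × ℝ => c' p.2 + (p.1 * φ' p.2) • e)
      (Icc (-ε0) ε0 ×ˢ Icc (0:ℝ) 1) := by
    have : ContinuousOn (fun p : ℝ × ℝ => c' p.2) (Icc (-ε0) ε0 ×ˢ Icc (0:ℝ) 1) :=
      hc'.comp continuousOn_snd fun p hp => hp.2
    exact this.add (by fun_prop)
  have hmaps : MapsTo (fun p : ℝ × ℝ => c p.2 + (p.1 * φ p.2) • e)
      (Icc (-ε0) ε0 ×ˢ Icc (0:ℝ) 1) V := fun p hp => hgV _ _ (abs_le.2 hp.1) hp.2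
  have hX1 : ContinuousOn (fun p : ℝ × ℝ => X' (c p.2 + (p.1 * φ p.2) • e))
      (Icc (-ε0) ε0 ×ˢ Icc (0:ℝ) 1) := hX'c.comp hgc hmaps
  have hX2 : ContinuousOn (fun p : ℝ × ℝ => X'' (c p.2 + (p.1 * φ p.2) • e))
      (Icc (-ε0) ε0 ×ˢ Icc (0:ℝ) 1) := hX''.comp hgc hmaps
  have hZ : ContinuousOn (fun p : ℝ × ℝ => X' (c p.2 + (p.1 * φ p.2) • e)
      (c' p.2 + (p.1 * φ' p.2) • e)) (Icc (-ε0) ε0 ×ˢ Icc (0:ℝ) 1) := hX1.clm_apply hg'c
  have hF'c : ContinuousOn (fun p : ℝ × ℝ => F' p.1 p.2) (Icc (-ε0) ε0 ×ˢ Icc (0:ℝ) 1) := by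
    have h1 : ContinuousOn (fun p : ℝ × ℝ => X'' (c p.2 + (p.1 * φ p.2) • e) (φ p.2 • e)
        (c' p.2 + (p.1 * φ' p.2) • e)) (Icc (-ε0) ε0 ×ˢ Icc (0:ℝ) 1) :=
      (hX2.clm_apply (by fun_prop)).clm_apply hg'c
    have h2 : ContinuousOn (fun p : ℝ × ℝ => X' (c p.2 + (p.1 * φ p.2) • e) (φ' p.2 • e))
        (Icc (-ε0) ε0 ×ˢ Icc (0:ℝ) 1) := hX1.clm_apply (by fun_prop)
    exact continuousOn_const.mul (hZ.inner (h1.add h2))
  obtain ⟨K, hK⟩ := (isCompact_Icc.prod isCompact_Icc).exists_bound_of_continuousOn hF'c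
  have hsec : ∀ ε : ℝ, |ε| ≤ ε0 → ContinuousOn
      (fun t => ‖X' (c t + (ε * φ t) • e) (c' t + (ε * φ' t) • e)‖ ^ 2) (Icc (0:ℝ) 1) := by
    intro ε hε
    have : ContinuousOn (fun t : ℝ => ((ε, t) : ℝ × ℝ)) (Icc (0:ℝ) 1) := by fun_prop
    exact ((hZ.comp this fun t ht => ⟨abs_le.1 hε, ht⟩).norm).pow 2
  have hball : Metric.ball (0:ℝ) ε0 ∈ 𝓝 (0:ℝ) := Metric.ball_mem_nhds _ hε0
  have huI : Ι (0:ℝ) 1 ⊆ Icc 0 1 := by
    rw [uIoc_of_le zero_le_one]
    exact Ioc_subset_Icc_self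
  have key := intervalIntegral.hasDerivAt_integral_of_dominated_loc_of_deriv_le (μ := volume)
    (a := (0:ℝ)) (b := 1) (𝕜 := ℝ) (bound := fun _ => K)
    (F := fun ε t => ‖X' (c t + (ε * φ t) • e) (c' t + (ε * φ' t) • e)‖ ^ 2) (F' := F')
    (x₀ := (0:ℝ)) (s := Metric.ball (0:ℝ) ε0) hball ?_ ?_ ?_ ?_ ?_ ?_
  · refine key.2.congr_deriv ?_
    simp [F']
  · filter_upwards [hball] with ε hε
    have hε' : |ε| ≤ ε0 := by
      rw [mem_ball_zero_iff, Real.norm_eq_abs] at hε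
      exact hε.le
    exact ((hsec ε hε').mono huI).aestronglyMeasurable measurableSet_uIoc
  · apply ContinuousOn.intervalIntegrable
    rw [uIcc_of_le zero_le_one]
    exact hsec 0 (by simpa using hε0.le)
  · have : ContinuousOn (fun t : ℝ => ((0, t) : ℝ × ℝ)) (Icc (0:ℝ) 1) := by fun_prop
    have h1 : ContinuousOn (F' 0) (Icc (0:ℝ) 1) :=
      hF'c.comp this fun t ht => ⟨⟨by linarith, hε0.le⟩, ht⟩
    exact (h1.mono huI).aestronglyMeasurable measurableSet_uIoc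
  · refine Eventually.of_forall fun t ht ε hε => ?_
    rw [mem_ball_zero_iff, Real.norm_eq_abs] at hε
    exact hK (ε, t) ⟨abs_le.1 hε.le, huI ht⟩
  · exact intervalIntegrable_const
  · refine Eventually.of_forall fun t ht ε hε => ?_
    rw [mem_ball_zero_iff, Real.norm_eq_abs] at hε
    have hg : HasDerivAt (fun ε : ℝ => c t + (ε * φ t) • e) (φ t • e) ε := by
      have := (((hasDerivAt_id ε).mul_const (φ t)).smul_const e).const_add (c t)
      simpa using this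
    have hg' : HasDerivAt (fun ε : ℝ => c' t + (ε * φ' t) • e) (φ' t • e) ε := by
      have := (((hasDerivAt_id ε).mul_const (φ' t)).smul_const e).const_add (c' t)
      simpa using this
    have h1 : HasDerivAt (fun ε : ℝ => X' (c t + (ε * φ t) • e))
        (X'' (c t + (ε * φ t) • e) (φ t • e)) ε :=
      (hX' _ (hgV ε t hε.le (huI ht))).comp_hasDerivAt ε hg
    have h2 := h1.clm_apply hg'
    exact h2.norm_sq

/-- The Euler-Lagrange equation of energy minimisers. -/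
theorem geodesic_eq {V : Set W} (hV : IsOpen V) {X' : W → W →L[ℝ] E}
    {X'' : W → W →L[ℝ] W →L[ℝ] E} (hX' : ∀ x ∈ V, HasFDerivAt X' (X'' x) x)
    (hX'' : ContinuousOn X'' V) {c c' : ℝ → W} (hc : ∀ t ∈ Icc (0:ℝ) 1, HasDerivAt c (c' t) t)
    (hc' : ContinuousOn c' (Icc 0 1)) (hcV : ∀ t ∈ Icc (0:ℝ) 1, c t ∈ V)
    (hmin : ∀ d d' : ℝ → W, (∀ t ∈ Icc (0:ℝ) 1, HasDerivAt d (d' t) t) →
      ContinuousOn d' (Icc 0 1) → (∀ t ∈ Icc (0:ℝ) 1, d t ∈ V) → d 0 = c 0 → d 1 = c 1 →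
      ∫ t in (0:ℝ)..1, ‖X' (c t) (c' t)‖ ^ 2 ≤ ∫ t in (0:ℝ)..1, ‖X' (d t) (d' t)‖ ^ 2) (e : W) :
    ∀ t ∈ Icc (0:ℝ) 1, ⟪X' (c t) (c' t), X' (c t) e⟫ = ⟪X' (c 0) (c' 0), X' (c 0) e⟫ +
      ∫ s in (0:ℝ)..t, ⟪X' (c s) (c' s), X'' (c s) e (c' s)⟫ := by
  have hcc : ContinuousOn c (Icc 0 1) := fun t ht => (hc t ht).continuousAt.continuousWithinAt
  have hX'c : ContinuousOn X' V := fun x hx => (hX' x hx).continuousAt.continuousWithinAt
  have hX1 : ContinuousOn (fun t => X' (c t)) (Icc (0:ℝ) 1) := hX'c.comp hcc hcV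
  have hX2 : ContinuousOn (fun t => X'' (c t)) (Icc (0:ℝ) 1) := hX''.comp hcc hcV
  apply duBoisReymond
  · exact (hX1.clm_apply hc').inner (hX1.clm_apply continuousOn_const)
  · exact (hX1.clm_apply hc').inner ((hX2.clm_apply continuousOn_const).clm_apply hc')
  · intro φ φ' hφ hφ' hφ0 hφ1
    have hφc : Continuous φ := continuous_iff_continuousAt.2 fun t => (hφ t).continuousAt
    obtain ⟨ε0, hε0, hgV⟩ := exists_eps hV hcc hcV hφc e
    have hE := hasDerivAt_energy hV hX' hX'' hcc hc' hcV hφc hφ' e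
    have hloc : IsLocalMin (fun ε : ℝ => ∫ t in (0:ℝ)..1,
        ‖X' (c t + (ε * φ t) • e) (c' t + (ε * φ' t) • e)‖ ^ 2) 0 := by
      filter_upwards [Metric.ball_mem_nhds (0:ℝ) hε0] with ε hε
      rw [mem_ball_zero_iff, Real.norm_eq_abs] at hε
      have := hmin (fun t => c t + (ε * φ t) • e) (fun t => c' t + (ε * φ' t) • e) ?_ ?_ ?_ ?_ ?_
      · simpa using this
      · intro t ht
        exact (hc t ht).add (((hφ t).const_mul ε).smul_const e)
      · exact hc'.add (by fun_prop)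
      · exact fun t ht => hgV ε t hε.le ht
      · simp [hφ0]
      · simp [hφ1]
    have h0 := hloc.hasDerivAt_eq_zero hE
    rw [intervalIntegral.integral_const_mul] at h0
    have h1 := (mul_eq_zero.1 h0).resolve_left two_ne_zero
    refine Eq.trans ?_ h1
    apply intervalIntegral.integral_congr
    intro t _
    simp only [map_smul, smul_apply, inner_add_right, inner_smul_right]
    ring

end Pool.Agent.Lib.MP60a66a.Reg
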