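import Pool.Agent.Lib.MP_60a66a_gt.RegularityFlow
import Pool.Agent.Lib.MP_60a66a_gt.RegularityVar
import Pool.Agent.Lib.MP_60a66a_gt.RegularityParam

set_option autoImplicit false

open Set Filter Topology MeasureTheory
open scoped ENNReal NNReal ContDiff Interval RealInnerProductSpace

namespace Pool.Agent.Lib.MP60a66a.Reg

theorem integral_triple {a b : ℝ} {p : ℝ → ℝ × ℝ} {B C : ℝ → ℝ} (hp : IntervalIntegrable p volume a b)
    (hB : IntervalIntegrable B volume a b) (hC : IntervalIntegrable C volume a b) :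
    ∫ s in a..b, (p s, (B s, C s)) = (∫ s in a..b, p s, (∫ s in a..b, B s, ∫ s in a..b, C s)) := by
  simp only [intervalIntegral]
  rw [integral_pair hp.1 (hB.1.prodMk hC.1), integral_pair hp.2 (hB.2.prodMk hC.2),
    integral_pair hB.1 hC.1, integral_pair hB.2 hC.2]
  rfl

/-- Cauchy-Schwarz lower bound of the energy of a plane path. -/
theorem energy_lower {z z' : ℝ → ℝ × ℝ} (hz : ∀ t ∈ Icc (0:ℝ) 1, HasDerivAt z (z' t) t)
    (hz' : ContinuousOn z' (Icc 0 1)) :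
    (z 1 - z 0).1 ^ 2 + (z 1 - z 0).2 ^ 2 ≤ ∫ t in (0:ℝ)..1, ((z' t).1 ^ 2 + (z' t).2 ^ 2) := by
  have key : ∀ x x' : ℝ → ℝ, (∀ t ∈ Icc (0:ℝ) 1, HasDerivAt x (x' t) t) →
      ContinuousOn x' (Icc 0 1) → (x 1 - x 0) ^ 2 ≤ ∫ t in (0:ℝ)..1, (x' t) ^ 2 := by
    intro x x' hx hx'
    have hI : IntervalIntegrable x' volume 0 1 := by
      apply ContinuousOn.intervalIntegrable
      rwa [uIcc_of_le zero_le_one]
    have hI2 : IntervalIntegrable (fun t => x' t ^ 2) volume 0 1 := by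
      apply ContinuousOn.intervalIntegrable
      rw [uIcc_of_le zero_le_one]
      exact hx'.pow 2
    have h1 : ∫ t in (0:ℝ)..1, x' t = x 1 - x 0 := by
      apply intervalIntegral.integral_eq_sub_of_hasDerivAt _ hI
      intro t ht
      rw [uIcc_of_le zero_le_one] at ht
      exact hx t ht
    have h2 : 0 ≤ ∫ t in (0:ℝ)..1, (x' t - (x 1 - x 0)) ^ 2 :=
      intervalIntegral.integral_nonneg zero_le_one fun t _ => sq_nonneg _
    have h3 : ∫ t in (0:ℝ)..1, (x' t - (x 1 - x 0)) ^ 2 =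
        (∫ t in (0:ℝ)..1, x' t ^ 2) - (2 * (x 1 - x 0)) * (∫ t in (0:ℝ)..1, x' t) +
          (x 1 - x 0) ^ 2 := by
      have e : ∀ t, (x' t - (x 1 - x 0)) ^ 2 =
          x' t ^ 2 - (2 * (x 1 - x 0)) * x' t + (x 1 - x 0) ^ 2 := fun t => by ring
      simp only [e]
      rw [intervalIntegral.integral_add (hI2.sub (hI.const_mul _)) intervalIntegrable_const,
        intervalIntegral.integral_sub hI2 (hI.const_mul _), intervalIntegral.integral_const_mul]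
      simp
    rw [h3, h1] at h2
    nlinarith
  have h1 := key (fun t => (z t).1) (fun t => (z' t).1) (fun t ht => (hz t ht).fst)
    (continuous_fst.comp_continuousOn hz')
  have h2 := key (fun t => (z t).2) (fun t => (z' t).2) (fun t ht => (hz t ht).snd)
    (continuous_snd.comp_continuousOn hz')
  have hI1 : IntervalIntegrable (fun t => (z' t).1 ^ 2) volume 0 1 := by
    apply ContinuousOn.intervalIntegrable
    rw [uIcc_of_le zero_le_one]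
    exact (continuous_fst.comp_continuousOn hz').pow 2
  have hI2 : IntervalIntegrable (fun t => (z' t).2 ^ 2) volume 0 1 := by
    apply ContinuousOn.intervalIntegrable
    rw [uIcc_of_le zero_le_one]
    exact (continuous_snd.comp_continuousOn hz').pow 2
  rw [intervalIntegral.integral_add hI1 hI2]
  exact add_le_add h1 h2

/-- The matrix of the metric, as an operator. -/
noncomputable def Hh (D : ℝ × ℝ →L[ℝ] E3) : ℝ × ℝ →L[ℝ] ℝ × ℝ :=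
  ((innerSL ℝ (D (1, 0))).comp D).prod ((innerSL ℝ (D (0, 1))).comp D)

theorem Hh_apply (D : ℝ × ℝ →L[ℝ] E3) (p : ℝ × ℝ) :
    Hh D p = (⟪D (1, 0), D p⟫, ⟪D (0, 1), D p⟫) := rfl

/-- The geodesic vector field. -/
noncomputable def Gf (X' : ℝ × ℝ → ℝ × ℝ →L[ℝ] E3) (X'' : ℝ × ℝ → ℝ × ℝ →L[ℝ] ℝ × ℝ →L[ℝ] E3)
    (Y : (ℝ × ℝ) × (ℝ × ℝ)) : (ℝ × ℝ) × (ℝ × ℝ) :=
  ((Hh (X' Y.1)).inverse Y.2,
    (⟪X' Y.1 ((Hh (X' Y.1)).inverse Y.2), X'' Y.1 (1, 0) ((Hh (X' Y.1)).inverse Y.2)⟫,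
      ⟪X' Y.1 ((Hh (X' Y.1)).inverse Y.2), X'' Y.1 (0, 1) ((Hh (X' Y.1)).inverse Y.2)⟫))

theorem Gf_apply {X' : ℝ × ℝ → ℝ × ℝ →L[ℝ] E3} {X'' : ℝ × ℝ → ℝ × ℝ →L[ℝ] ℝ × ℝ →L[ℝ] E3}
    {y p : ℝ × ℝ} {e : (ℝ × ℝ) ≃L[ℝ] (ℝ × ℝ)} (he : Hh (X' y) = e) :
    Gf X' X'' (y, Hh (X' y) p) = (p, (⟪X' y p, X'' y (1, 0) p⟫, ⟪X' y p, X'' y (0, 1) p⟫)) := by
  have : (Hh (X' y)).inverse (Hh (X' y) p) = p := by
    rw [he, ContinuousLinearMap.inverse_equiv]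
    simp
  simp only [Gf, this]

theorem Gf_analytic {X' : ℝ × ℝ → ℝ × ℝ →L[ℝ] E3} {X'' : ℝ × ℝ → ℝ × ℝ →L[ℝ] ℝ × ℝ →L[ℝ] E3}
    {Y : (ℝ × ℝ) × (ℝ × ℝ)} {e : (ℝ × ℝ) ≃L[ℝ] (ℝ × ℝ)} (he : Hh (X' Y.1) = e)
    (hX' : ContDiffAt ℝ ω X' Y.1) (hX'' : ContDiffAt ℝ ω X'' Y.1) :
    AnalyticAt ℝ (Gf X' X'') Y := by
  apply ContDiffAt.analyticAt
  have h1 : ContDiffAt ℝ ω (fun Y : (ℝ × ℝ) × (ℝ × ℝ) => X' Y.1) Y :=
    hX'.comp Y contDiffAt_fst
  have h2 : ContDiffAt ℝ ω (fun Y : (ℝ × ℝ) × (ℝ × ℝ) => X'' Y.1) Y :=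
    hX''.comp Y contDiffAt_fst
  have h3 : ContDiffAt ℝ ω (fun Y : (ℝ × ℝ) × (ℝ × ℝ) => Hh (X' Y.1)) Y := by
    have h6 : ∀ e : ℝ × ℝ, ContDiffAt ℝ ω (fun Y : (ℝ × ℝ) × (ℝ × ℝ) =>
        (innerSL ℝ (X' Y.1 e)).comp (X' Y.1)) Y := by
      intro e
      have h7 : ContDiffAt ℝ ω (fun Y : (ℝ × ℝ) × (ℝ × ℝ) => innerSL ℝ (X' Y.1 e)) Y :=
        ((innerSL ℝ).contDiff.contDiffAt).comp Y (h1.clm_apply contDiffAt_const)
      exact h7.clm_comp h1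
    let Lp : (((ℝ × ℝ) →L[ℝ] ℝ) × ((ℝ × ℝ) →L[ℝ] ℝ)) ≃ₗᵢ[ℝ] ((ℝ × ℝ) →L[ℝ] ℝ × ℝ) :=
      ContinuousLinearMap.prodₗᵢ ℝ
    exact (Lp.contDiff.contDiffAt).comp Y ((h6 (1, 0)).prodMk (h6 (0, 1)))
  have h4 : ContDiffAt ℝ ω (fun Y : (ℝ × ℝ) × (ℝ × ℝ) => (Hh (X' Y.1)).inverse) Y := by
    have := contDiffAt_map_inverse (𝕜 := ℝ) (n := ω) e
    rw [← he] at this
    exact this.comp Y h3
  have h5 : ContDiffAt ℝ ω (fun Y : (ℝ × ℝ) × (ℝ × ℝ) => (Hh (X' Y.1)).inverse Y.2) Y :=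
    h4.clm_apply contDiffAt_snd
  refine h5.prodMk (ContDiffAt.prodMk ?_ ?_)
  · exact (h1.clm_apply h5).inner ℝ ((h2.clm_apply contDiffAt_const).clm_apply h5)
  · exact (h1.clm_apply h5).inner ℝ ((h2.clm_apply contDiffAt_const).clm_apply h5)

theorem Hh_continuous : Continuous Hh := by
  have h1 : ∀ e : ℝ × ℝ, Continuous (fun D : ℝ × ℝ →L[ℝ] E3 => (innerSL ℝ (D e)).comp D) := by
    intro e
    have h2 : Continuous fun D : ℝ × ℝ →L[ℝ] E3 => innerSL ℝ (D e) :=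
      (innerSL ℝ).continuous.comp (ContinuousLinearMap.apply ℝ E3 e).continuous
    exact h2.clm_comp continuous_id
  let Lp : (((ℝ × ℝ) →L[ℝ] ℝ) × ((ℝ × ℝ) →L[ℝ] ℝ)) ≃ₗᵢ[ℝ] ((ℝ × ℝ) →L[ℝ] ℝ × ℝ) :=
    ContinuousLinearMap.prodₗᵢ ℝ
  exact Lp.continuous.comp ((h1 (1, 0)).prodMk (h1 (0, 1)))

theorem core {z₀ : ℝ × ℝ} {w : ℝ × ℝ → ℝ × ℝ} {w' : ℝ × ℝ → ℝ × ℝ →L[ℝ] ℝ × ℝ} {Z : Set (ℝ × ℝ)}
    (hZ : IsOpen Z) (hz₀ : z₀ ∈ Z) (hw' : ∀ z ∈ Z, HasFDerivAt w (w' z) z)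
    (hw'c : ContinuousOn w' Z) (hw'0 : w' z₀ = ContinuousLinearMap.id ℝ (ℝ × ℝ))
    {V : Set (ℝ × ℝ)} (hV : IsOpen V) (hwV : ∀ z ∈ Z, w z ∈ V) {X' : ℝ × ℝ → ℝ × ℝ →L[ℝ] E3}
    {X'' : ℝ × ℝ → ℝ × ℝ →L[ℝ] ℝ × ℝ →L[ℝ] E3} (hX' : ∀ y ∈ V, HasFDerivAt X' (X'' y) y)
    (hX'a : AnalyticOnNhd ℝ X' V) (hX''a : AnalyticOnNhd ℝ X'' V)
    (hHh0 : Hh (X' (w z₀)) = ContinuousLinearMap.id ℝ (ℝ × ℝ))
    (hiso : ∀ z ∈ Z, ∀ v : ℝ × ℝ, ‖X' (w z) (w' z v)‖ ^ 2 = v.1 ^ 2 + v.2 ^ 2)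
    (hlow : ∀ d d' : ℝ → ℝ × ℝ, (∀ t ∈ Icc (0:ℝ) 1, HasDerivAt d (d' t) t) →
      ContinuousOn d' (Icc 0 1) → (∀ t ∈ Icc (0:ℝ) 1, d t ∈ V) → ∀ z ∈ Z, ∀ z1 ∈ Z, d 0 = w z →
      d 1 = w z1 → (z1 - z).1 ^ 2 + (z1 - z).2 ^ 2 ≤ ∫ t in (0:ℝ)..1, ‖X' (d t) (d' t)‖ ^ 2) :
    AnalyticAt ℝ w z₀ := by
  have hZn : Z ∈ 𝓝 z₀ := hZ.mem_nhds hz₀
  have hy₀V : w z₀ ∈ V := hwV z₀ hz₀
  have hGa : AnalyticAt ℝ (Gf X' X'') (w z₀, 0) := by
    have he : Hh (X' (w z₀, (0 : ℝ × ℝ)).1) =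
        ((ContinuousLinearEquiv.refl ℝ (ℝ × ℝ) : (ℝ × ℝ) ≃L[ℝ] (ℝ × ℝ)) :
          (ℝ × ℝ) →L[ℝ] (ℝ × ℝ)) := hHh0
    exact Gf_analytic he (hX'a _ hy₀V).contDiffAt (hX''a _ hy₀V).contDiffAt
  obtain ⟨Φ, r, hr, hΦa, hΦ⟩ := exists_flow hGa
  have hwc : ContinuousAt w z₀ := (hw' z₀ hz₀).continuousAt
  have hX'wc : ContinuousAt (fun z => X' (w z)) z₀ :=
    ContinuousAt.comp (f := w) (g := X') (hX'a _ hy₀V).continuousAt hwc
  have hHc : ContinuousAt (fun z => Hh (X' (w z))) z₀ := Hh_continuous.continuousAt.comp hX'wc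
  have hgood : ∀ᶠ z in 𝓝 z₀, z ∈ Z ∧
      (∃ e : (ℝ × ℝ) ≃L[ℝ] (ℝ × ℝ), Hh (X' (w z)) = e) ∧ ‖w z - w z₀‖ < r ∧
      ‖(Hh (X' (w z))).comp (w' z) - ContinuousLinearMap.id ℝ (ℝ × ℝ)‖ < r := by
    have h2 : ∀ᶠ z in 𝓝 z₀, ∃ e : (ℝ × ℝ) ≃L[ℝ] (ℝ × ℝ), Hh (X' (w z)) = e := by
      have h3 := ContinuousLinearEquiv.nhds (𝕜 := ℝ) (ContinuousLinearEquiv.refl ℝ (ℝ × ℝ))
      have h4 : range ((↑) : ((ℝ × ℝ) ≃L[ℝ] (ℝ × ℝ)) → (ℝ × ℝ) →L[ℝ] (ℝ × ℝ)) ∈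
          𝓝 (Hh (X' (w z₀))) := by
        rw [hHh0]
        exact h3
      filter_upwards [hHc.eventually h4] with z hz
      obtain ⟨e, he⟩ := hz
      exact ⟨e, he.symm⟩
    have h5 : ∀ᶠ z in 𝓝 z₀, ‖w z - w z₀‖ < r := by
      have := hwc.eventually (Metric.ball_mem_nhds (w z₀) hr)
      filter_upwards [this] with z hz
      rwa [← dist_eq_norm]
    have h6 : ∀ᶠ z in 𝓝 z₀, ‖(Hh (X' (w z))).comp (w' z) -
        ContinuousLinearMap.id ℝ (ℝ × ℝ)‖ < r := by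
      have h7 : ContinuousAt (fun z => (Hh (X' (w z))).comp (w' z)) z₀ :=
        hHc.clm_comp (hw'c.continuousAt hZn)
      have h9 : (Hh (X' (w z₀))).comp (w' z₀) = ContinuousLinearMap.id ℝ (ℝ × ℝ) := by
        rw [hHh0, hw'0]
        rfl
      have h8 := h7.eventually (Metric.ball_mem_nhds _ hr)
      beta_reduce at h8
      rw [h9] at h8
      filter_upwards [h8] with z hz
      rwa [dist_eq_norm] at hz
    filter_upwards [hZn, h2, h5, h6] with z g1 g2 g3 g4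
    exact ⟨g1, g2, g3, g4⟩
  obtain ⟨δ, hδ, hball⟩ := Metric.eventually_nhds_iff_ball.1 hgood
  obtain ⟨a, ha0, har, haδ⟩ : ∃ a : ℝ, 0 < a ∧ a < r ∧ a < δ :=
    ⟨min r δ / 2, by positivity, by have := min_le_left r δ; linarith,
      by have := min_le_right r δ; linarith⟩
  have hmain : ∀ v : ℝ × ℝ, ‖v‖ < min r 1 → w (z₀ + a • v) = (Φ (a, (0, v))).1 := by
    intro v hv
    have hvr : ‖v‖ < r := hv.trans_le (min_le_left _ _)
    have hv1 : ‖v‖ < 1 := hv.trans_le (min_le_right _ _)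
    let γ : ℝ → ℝ × ℝ := fun t => z₀ + t • (a • v)
    have hγd : ∀ t, HasDerivAt γ (a • v) t := by
      intro t
      have := ((hasDerivAt_id t).smul_const (a • v)).const_add z₀
      rw [one_smul] at this
      exact this
    have hγc : Continuous γ := continuous_iff_continuousAt.2 fun t => (hγd t).continuousAt
    have hγb : ∀ t ∈ Icc (0:ℝ) 1, γ t ∈ Metric.ball z₀ δ := by
      intro t ht
      rw [mem_ball_iff_norm, add_sub_cancel_left, norm_smul, norm_smul, Real.norm_eq_abs,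
        Real.norm_eq_abs, abs_of_nonneg ht.1, abs_of_pos ha0]
      have h1 : a * ‖v‖ ≤ a := mul_le_of_le_one_right ha0.le hv1.le
      have h2 : t * (a * ‖v‖) ≤ a * ‖v‖ := mul_le_of_le_one_left (by positivity) ht.2
      linarith
    have hγZ : ∀ t ∈ Icc (0:ℝ) 1, γ t ∈ Z := fun t ht => (hball _ (hγb t ht)).1
    let c : ℝ → ℝ × ℝ := fun t => w (γ t)
    let p : ℝ → ℝ × ℝ := fun t => w' (γ t) v
    have hcd : ∀ t ∈ Icc (0:ℝ) 1, HasDerivAt c (a • p t) t := by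
      intro t ht
      have := (hw' _ (hγZ t ht)).comp_hasDerivAt t (hγd t)
      rwa [map_smul] at this
    have hcc : ContinuousOn c (Icc 0 1) := fun t ht => (hcd t ht).continuousAt.continuousWithinAt
    have hpc : ContinuousOn p (Icc 0 1) :=
      (hw'c.comp hγc.continuousOn hγZ).clm_apply continuousOn_const
    have hcV : ∀ t ∈ Icc (0:ℝ) 1, c t ∈ V := fun t ht => hwV _ (hγZ t ht)
    have hX'c : ContinuousOn (fun t => X' (c t)) (Icc 0 1) := hX'a.continuousOn.comp hcc hcV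
    have hX''c : ContinuousOn (fun t => X'' (c t)) (Icc 0 1) := hX''a.continuousOn.comp hcc hcV
    have hgeo := geodesic_eq (E := E3) hV hX' hX''a.continuousOn hcd (hpc.const_smul a) hcV ?_
    swap
    · intro d d' hd hd' hdV hd0 hd1
      have h1 := hlow d d' hd hd' hdV (γ 0) (hγZ 0 (by simp)) (γ 1) (hγZ 1 (by simp)) hd0 hd1
      refine le_trans (le_of_eq ?_) h1
      have h2 : ∫ t in (0:ℝ)..1, ‖X' (c t) (a • p t)‖ ^ 2 =
          ∫ t in (0:ℝ)..1, ((a • v).1 ^ 2 + (a • v).2 ^ 2) := by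
        apply intervalIntegral.integral_congr
        intro t ht
        rw [uIcc_of_le zero_le_one] at ht
        have := hiso _ (hγZ t ht) (a • v)
        rw [map_smul] at this
        exact this
      rw [h2]
      simp [γ]
    let Bq : ℝ × ℝ → ℝ → ℝ := fun e s => ⟪X' (c s) (p s), X'' (c s) e (p s)⟫
    have hBc : ∀ e, ContinuousOn (Bq e) (Icc 0 1) := fun e =>
      (hX'c.clm_apply hpc).inner ((hX''c.clm_apply continuousOn_const).clm_apply hpc)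
    have hgeo' : ∀ e : ℝ × ℝ, ∀ t ∈ Icc (0:ℝ) 1, ⟪X' (c t) e, X' (c t) (p t)⟫ =
        ⟪X' (c 0) e, X' (c 0) (p 0)⟫ + a * ∫ s in (0:ℝ)..t, Bq e s := by
      intro e t ht
      have h1 := hgeo e t ht
      simp only [map_smul, inner_smul_left, inner_smul_right, RCLike.conj_to_real] at h1
      rw [intervalIntegral.integral_const_mul, intervalIntegral.integral_const_mul] at h1
      rw [real_inner_comm _ (X' (c t) e), real_inner_comm _ (X' (c 0) e)]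
      have h2 : a * ⟪X' (c t) (p t), X' (c t) e⟫ =
          a * (⟪X' (c 0) (p 0), X' (c 0) e⟫ + a * ∫ s in (0:ℝ)..t, Bq e s) := by
        rw [h1]
        simp only [Bq]
        ring
      exact mul_left_cancel₀ ha0.ne' h2
    let Y : ℝ → (ℝ × ℝ) × (ℝ × ℝ) := fun t => (c t, Hh (X' (c t)) (p t))
    have hYc : ContinuousOn Y (Icc 0 1) :=
      hcc.prodMk ((Hh_continuous.comp_continuousOn hX'c).clm_apply hpc)
    have hfin := hΦ a (0, v) Y ?_ ?_ hYc ?_ ?_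
    · have := congrArg Prod.fst hfin
      rw [← this]
      simp [Y, c, γ]
    · rwa [abs_of_pos ha0]
    · rw [Prod.norm_def]
      simpa using hvr
    · intro t ht
      obtain ⟨-, -, h3, h4⟩ := hball _ (hγb t ht)
      rw [Prod.norm_def]
      apply max_lt
      · simpa [Y, c] using h3
      · have h5 : (Y t - ((w z₀, 0) + (0, v))).2 =
            ((Hh (X' (w (γ t)))).comp (w' (γ t)) - ContinuousLinearMap.id ℝ (ℝ × ℝ)) v := by
          simp [Y, c, p]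
        rw [h5]
        refine (ContinuousLinearMap.le_opNorm _ _).trans_lt ?_
        calc _ ≤ ‖(Hh (X' (w (γ t)))).comp (w' (γ t)) - ContinuousLinearMap.id ℝ (ℝ × ℝ)‖ * 1 := by
              gcongr
          _ < r := by rwa [mul_one]
    · intro t ht
      have hsub : uIcc 0 t ⊆ Icc (0:ℝ) 1 := by
        rw [uIcc_of_le ht.1]
        exact Icc_subset_Icc_right ht.2
      have h1 : ∫ s in (0:ℝ)..t, Gf X' X'' (Y s) =
          ∫ s in (0:ℝ)..t, (p s, (Bq (1, 0) s, Bq (0, 1) s)) := by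
        apply intervalIntegral.integral_congr
        intro s hs
        obtain ⟨-, ⟨e, he⟩, -, -⟩ := hball _ (hγb s (hsub hs))
        exact Gf_apply he
      have h2 : ∫ s in (0:ℝ)..t, a • p s = c t - c 0 := by
        apply intervalIntegral.integral_eq_sub_of_hasDerivAt
        · exact fun s hs => hcd s (hsub hs)
        · exact ((hpc.const_smul a).mono hsub).intervalIntegrable
      rw [h1, integral_triple (hpc.mono hsub).intervalIntegrable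
        ((hBc _).mono hsub).intervalIntegrable ((hBc _).mono hsub).intervalIntegrable]
      rw [intervalIntegral.integral_smul] at h2
      have hc0 : c 0 = w z₀ := by simp [c, γ]
      have hp0 : Hh (X' (c 0)) (p 0) = v := by
        rw [hc0, hHh0]
        simp [p, γ, hw'0]
      have h3 := hgeo' (1, 0) t ht
      have h4 := hgeo' (0, 1) t ht
      have h5 : Hh (X' (c t)) (p t) = v + a • (∫ s in (0:ℝ)..t, Bq (1, 0) s,
          ∫ s in (0:ℝ)..t, Bq (0, 1) s) := by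
        rw [Hh_apply, h3, h4, ← hp0, Hh_apply]
        simp
      simp only [Y]
      rw [h5]
      ext1
      · simp only [Prod.fst_add, Prod.smul_fst, add_zero, h2, hc0]
        abel
      · simp
  have hfinal : w =ᶠ[𝓝 z₀] fun z => (Φ (a, (0, a⁻¹ • (z - z₀)))).1 := by
    filter_upwards [Metric.ball_mem_nhds z₀ (show 0 < a * min r 1 by positivity)] with z hz
    rw [mem_ball_iff_norm] at hz
    have h1 : ‖a⁻¹ • (z - z₀)‖ < min r 1 := by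
      rw [norm_smul, norm_inv, Real.norm_eq_abs, abs_of_pos ha0, inv_mul_lt_iff₀ ha0]
      exact hz
    have h2 := hmain _ h1
    rw [smul_smul, mul_inv_cancel₀ ha0.ne', one_smul, add_sub_cancel] at h2
    exact h2
  have hΦ1 : AnalyticAt ℝ Φ (a, (0, a⁻¹ • (z₀ - z₀))) := by
    apply hΦa
    · rwa [abs_of_pos ha0]
    · simpa using hr
  have h3 : AnalyticAt ℝ (fun z : ℝ × ℝ => ((a, ((0 : ℝ × ℝ), a⁻¹ • (z - z₀))) :
      ℝ × ((ℝ × ℝ) × (ℝ × ℝ)))) z₀ :=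
    analyticAt_const.prod (analyticAt_const.prod
      (analyticAt_const.fun_smul (analyticAt_id.fun_sub analyticAt_const)))
  have h4 : AnalyticAt ℝ (fun z => (Φ (a, (0, a⁻¹ • (z - z₀)))).1) z₀ :=
    analyticAt_fst.fun_comp (AnalyticAt.fun_comp hΦ1 h3)
  exact h4.congr hfinal.symm

theorem analyticAt_of_isometric {U : Set (ℝ × ℝ)} (hU : IsOpen U)
    {ρ : ℝ × ℝ → EuclideanSpace ℝ (Fin 3)} (hρ : ContDiffOn ℝ 1 ρ U)
    (hiso : ∀ z ∈ U, ∀ u v : ℝ × ℝ,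
      inner ℝ (fderiv ℝ ρ z u) (fderiv ℝ ρ z v) = u.1 * v.1 + u.2 * v.2)
    {z₀ : ℝ × ℝ} (hz : z₀ ∈ U) {O : Set (EuclideanSpace ℝ (Fin 3))} (hO : IsOpen O)
    {F : EuclideanSpace ℝ (Fin 3) → ℝ} (hF : AnalyticOnNhd ℝ F O)
    (hdF : fderiv ℝ F (ρ z₀) ≠ 0) (hzO : ρ z₀ ∈ O) (hzero : ∀ z ∈ U, ρ z ∈ O → F (ρ z) = 0) :
    AnalyticAt ℝ ρ z₀ := by
  have hρd : ∀ z ∈ U, HasFDerivAt ρ (fderiv ℝ ρ z) z := fun z hz =>
    ((hρ.contDiffAt (hU.mem_nhds hz)).differentiableAt one_ne_zero).hasFDerivAt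
  have hρ'c : ContinuousOn (fderiv ℝ ρ) U := hρ.continuousOn_fderiv_of_isOpen hU le_rfl
  set A : ℝ × ℝ →L[ℝ] E3 := fderiv ℝ ρ z₀ with hAdef
  have hA : ∀ u v : ℝ × ℝ, ⟪A u, A v⟫ = u.1 * v.1 + u.2 * v.2 := hiso z₀ hz
  have hUn : U ∈ 𝓝 z₀ := hU.mem_nhds hz
  have hzero' : ∀ᶠ z in 𝓝 z₀, F (ρ z) = 0 := by
    have h1 : ∀ᶠ z in 𝓝 z₀, ρ z ∈ O :=
      (hρd z₀ hz).continuousAt.eventually (hO.mem_nhds hzO)
    filter_upwards [h1, hUn] with z h1 h2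
    exact hzero z h2 h1
  obtain ⟨X, hX, hXρ⟩ := exists_param (hρd z₀ hz) hA (hF _ hzO) hdF hzero'
  let w : ℝ × ℝ → ℝ × ℝ := fun z => Tm A (ρ z)
  let w' : ℝ × ℝ → ℝ × ℝ →L[ℝ] ℝ × ℝ := fun z => (Tm A).comp (fderiv ℝ ρ z)
  have hw' : ∀ z ∈ U, HasFDerivAt w (w' z) z := fun z hz => (Tm A).hasFDerivAt.comp z (hρd z hz)
  have hw'c : ContinuousOn w' U := continuousOn_const.clm_comp hρ'c
  have hw'0 : w' z₀ = ContinuousLinearMap.id ℝ (ℝ × ℝ) := by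
    refine ContinuousLinearMap.ext fun u => ?_
    exact Tm_comp hA u
  have hw1 : ContDiffAt ℝ 1 w z₀ :=
    (Tm A).contDiff.contDiffAt.comp z₀ (hρ.contDiffAt hUn)
  have hwd : HasFDerivAt w ((ContinuousLinearEquiv.refl ℝ (ℝ × ℝ) : (ℝ × ℝ) ≃L[ℝ] (ℝ × ℝ)) :
      ℝ × ℝ →L[ℝ] ℝ × ℝ) z₀ := by
    have := hw' z₀ hz
    rw [hw'0] at this
    exact this
  let Hw := hw1.toOpenPartialHomeomorph w hwd one_ne_zero
  have hHw : ∀ z, Hw z = w z := fun z => rfl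
  have hz₀s : z₀ ∈ Hw.source := hw1.mem_toOpenPartialHomeomorph_source hwd one_ne_zero
  have hy₀t : w z₀ ∈ Hw.target := Hw.map_source hz₀s
  have hjz₀ : Hw.symm (w z₀) = z₀ := Hw.left_inv hz₀s
  have hj : ContDiffAt ℝ 1 Hw.symm (w z₀) := by
    have := hw1.to_localInverse hwd one_ne_zero
    exact this
  -- the good neighbourhood of `y₀ = w z₀`
  have hVev : ∀ᶠ y in 𝓝 (w z₀), y ∈ Hw.target ∧ ContDiffAt ℝ 1 Hw.symm y ∧ AnalyticAt ℝ X y ∧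
      Hw.symm y ∈ U ∧ X (w (Hw.symm y)) = ρ (Hw.symm y) := by
    have hjc : Tendsto Hw.symm (𝓝 (w z₀)) (𝓝 z₀) := by
      have := hj.continuousAt.tendsto
      rwa [hjz₀] at this
    filter_upwards [Hw.open_target.mem_nhds hy₀t, hj.eventually (by simp), hX.eventually_analyticAt,
      hjc.eventually hUn, hjc.eventually hXρ] with y h1 h2 h3 h4 h5
    exact ⟨h1, h2, h3, h4, h5⟩
  obtain ⟨V, hVs, hVo, hy₀V⟩ := eventually_nhds_iff.1 hVev
  have hXj : ∀ y ∈ V, X y = ρ (Hw.symm y) := by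
    intro y hy
    obtain ⟨h1, -, -, -, h5⟩ := hVs y hy
    rw [← h5]
    congr 1
    exact (Hw.right_inv h1).symm
  let X' := fderiv ℝ X
  let X'' := fderiv ℝ X'
  have hXa : AnalyticOnNhd ℝ X V := fun y hy => (hVs y hy).2.2.1
  have hX'a : AnalyticOnNhd ℝ X' V := hXa.fderiv
  have hX''a : AnalyticOnNhd ℝ X'' V := hX'a.fderiv
  have hX' : ∀ y ∈ V, HasFDerivAt X' (X'' y) y := fun y hy =>
    (hX'a y hy).differentiableAt.hasFDerivAt
  have hX''c : ContinuousOn X'' V := hX''a.continuousOn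
  have hX'j : ∀ y ∈ V, X' y = (fderiv ℝ ρ (Hw.symm y)).comp (fderiv ℝ Hw.symm y) := by
    intro y hy
    obtain ⟨-, h2, -, h4, -⟩ := hVs y hy
    have h6 : HasFDerivAt (fun y => ρ (Hw.symm y))
        ((fderiv ℝ ρ (Hw.symm y)).comp (fderiv ℝ Hw.symm y)) y :=
      (hρd _ h4).comp y (h2.differentiableAt one_ne_zero).hasFDerivAt
    have h7 : X =ᶠ[𝓝 y] fun y => ρ (Hw.symm y) := by
      filter_upwards [hVo.mem_nhds hy] with y' hy'
      exact hXj y' hy'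
    exact (h6.congr_of_eventuallyEq h7).fderiv
  -- the good neighbourhood of `z₀`
  have hX'w : ∀ z, z ∈ U → w z ∈ V → (∀ᶠ z' in 𝓝 z, X (w z') = ρ z') →
      (X' (w z)).comp (w' z) = fderiv ℝ ρ z := by
    intro z hzU hzV hev
    have h1 : HasFDerivAt (fun z => X (w z)) ((X' (w z)).comp (w' z)) z :=
      ((hXa _ hzV).differentiableAt.hasFDerivAt).comp z (hw' z hzU)
    have h2 : ρ =ᶠ[𝓝 z] fun z => X (w z) := by
      filter_upwards [hev] with z' h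
      exact h.symm
    exact (h1.congr_of_eventuallyEq h2).fderiv.symm
  have hHh0 : Hh (X' (w z₀)) = ContinuousLinearMap.id ℝ (ℝ × ℝ) := by
    have h1 := hX'w z₀ hz hy₀V hXρ.eventually_nhds.self_of_nhds
    rw [hw'0, ContinuousLinearMap.comp_id] at h1
    rw [h1, ← hAdef]
    refine ContinuousLinearMap.ext fun u => ?_
    rw [Hh_apply, hA, hA]
    simp
  have hgood : ∀ᶠ z in 𝓝 z₀, z ∈ U ∧ w z ∈ V ∧ z ∈ Hw.source ∧ ∀ᶠ z' in 𝓝 z, X (w z') = ρ z' := by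
    have h1 : ∀ᶠ z in 𝓝 z₀, w z ∈ V := (hw' z₀ hz).continuousAt.eventually (hVo.mem_nhds hy₀V)
    filter_upwards [hUn, h1, Hw.open_source.mem_nhds hz₀s, hXρ.eventually_nhds] with z g1 g2 g3 g4
    exact ⟨g1, g2, g3, g4⟩
  obtain ⟨Z, hZs, hZo, hz₀Z⟩ := eventually_nhds_iff.1 hgood
  have hns : ∀ z ∈ U, ∀ v : ℝ × ℝ, ‖fderiv ℝ ρ z v‖ ^ 2 = v.1 ^ 2 + v.2 ^ 2 := by
    intro z hz v
    rw [← real_inner_self_eq_norm_sq, hiso z hz]
    ring
  have hwa : AnalyticAt ℝ w z₀ := by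
    refine core hZo hz₀Z (fun z hz => hw' z (hZs z hz).1) (hw'c.mono fun z hz => (hZs z hz).1) hw'0
      hVo (fun z hz => (hZs z hz).2.1) hX' hX'a hX''a hHh0 ?_ ?_
    · intro z hz v
      obtain ⟨g1, g2, g3, g4⟩ := hZs z hz
      have h1 := hX'w z g1 g2 g4
      rw [← hns z g1 v, ← h1]
      rfl
    · intro d d' hd hd' hdV z hz z1 hz1 hd0 hd1
      have hdc : ContinuousOn d (Icc 0 1) := fun t ht => (hd t ht).continuousAt.continuousWithinAt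
      have hj'c : ContinuousOn (fderiv ℝ Hw.symm) V := by
        intro y hy
        exact ((hVs y hy).2.1.fderiv_right (m := 0) (by norm_num)).continuousAt.continuousWithinAt
      have h1 := energy_lower (z := fun t => Hw.symm (d t))
        (z' := fun t => fderiv ℝ Hw.symm (d t) (d' t)) (fun t ht =>
          (((hVs _ (hdV t ht)).2.1.differentiableAt one_ne_zero).hasFDerivAt).comp_hasDerivAt t
            (hd t ht)) ((hj'c.comp hdc hdV).clm_apply hd')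
      have h2 : Hw.symm (d 0) = z := by
        rw [hd0]
        exact Hw.left_inv (hZs z hz).2.2.1
      have h3 : Hw.symm (d 1) = z1 := by
        rw [hd1]
        exact Hw.left_inv (hZs z1 hz1).2.2.1
      simp only [h2, h3] at h1
      refine h1.trans_eq ?_
      apply intervalIntegral.integral_congr
      intro t ht
      rw [uIcc_of_le zero_le_one] at ht
      beta_reduce
      rw [hX'j _ (hdV t ht)]
      exact (hns _ (hVs _ (hdV t ht)).2.2.2.1 _).symm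
  have hXw : AnalyticAt ℝ (fun z => X (w z)) z₀ := AnalyticAt.fun_comp hX hwa
  exact hXw.congr hXρ

end Pool.Agent.Lib.MP60a66a.Reg
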