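import Pool.Agent.Lib.MP_60a66a_gt.Global
import Pool.Agent.Lib.MP_60a66a_gt.Domain
import Pool.Agent.Lib.MP_60a66a_gt.Regularity

set_option autoImplicit false
set_option linter.unusedSectionVars false

open Filter Topology Set
open scoped ContDiff InnerProductSpace

namespace Pool.Agent.Lib.MP60a66a

/-- local analyticity of the image near the point of parameter `z` -/
def LocAn (r : ℝ × ℝ → E3) (z : ℝ × ℝ) : Prop :=
  ∃ (U : Set (ℝ × ℝ)) (O : Set E3) (f : E3 → ℝ), IsOpen U ∧ z ∈ U ∧ IsOpen O ∧ r z ∈ O ∧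
    AnalyticOnNhd ℝ f O ∧ (∀ q ∈ O, fderiv ℝ f q ≠ 0) ∧ ∀ w ∈ U, r w ∈ O → f (r w) = 0

open Classical in
/-- The developed immersion. -/
noncomputable def rho2 (r : ℝ × ℝ → E3) (z : ℝ × ℝ) : E3 := if z ∈ RR then r (shi z) else r z

lemma rho2_RR {r : ℝ × ℝ → E3} {z : ℝ × ℝ} (h : z ∈ RR) : rho2 r z = r (shi z) := by
  simp [rho2, h]

lemma rho2_AA {r : ℝ × ℝ → E3} {z : ℝ × ℝ} (h : z ∈ MM ∪ CC) : rho2 r z = r z := by
  unfold rho2
  split_ifs with h1
  · rcases h with h | h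
    · exfalso
      linarith [h.2.2, h1.2.1]
    · have : shi z = z := by
        simp only [shi]
        rw [vv_zero h.1.1 h.1.2, add_zero]
      rw [this]
  · rfl

lemma shi_mem {z : ℝ × ℝ} (h : z ∈ RR) : shi z ∈ RR' := by
  change ((shi z).1, (shi z).2 - vv (shi z).1) ∈ RR
  simp only [shi, add_sub_cancel_right]
  exact h

lemma RR_open : IsOpen RR := box_open _ _ _ _
lemma CC_open : IsOpen CC := box_open _ _ _ _
lemma PP_open : IsOpen PP := box_open _ _ _ _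
lemma PN_open : IsOpen PN := box_open _ _ _ _

lemma flat_of_local {Ω : Set (ℝ × ℝ)} {ρ : ℝ × ℝ → E3} (hΩ : IsOpen Ω) (hpc : IsPreconnected Ω)
    (h : ∀ z ∈ Ω, AnalyticAt ℝ ρ z ∧ ∀ u v : ℝ × ℝ,
      ⟪fderiv ℝ ρ z u, fderiv ℝ ρ z v⟫_ℝ = u.1 * v.1 + u.2 * v.2) : FlatImm Ω ρ :=
  ⟨hΩ, hpc, fun z hz => (h z hz).1, fun z hz => (h z hz).2⟩

theorem main (r : ℝ × ℝ → E3)
    (hr : gg.IsInjectiveIsometricImmersion DD r) : ∃ z ∈ DD, ¬ LocAn r z := by
  by_contra hcon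
  push Not at hcon
  obtain ⟨hC1, hinj, hiso⟩ := hr
  -- analyticity and isometry on the flat part
  have hA : ∀ z ∈ MM ∪ CC ∪ PP ∪ PN, AnalyticAt ℝ r z ∧ ∀ u v : ℝ × ℝ,
      ⟪fderiv ℝ r z u, fderiv ℝ r z v⟫_ℝ = u.1 * v.1 + u.2 * v.2 := by
    intro z hz
    have hzD : z ∈ DD := Or.inl hz
    refine ⟨?_, fun u v => by rw [hiso z hzD, form_flat hz]⟩
    obtain ⟨U, O, f, hU, hzU, hO, hzO, hf, hdf, h0⟩ := hcon z hzD
    exact Reg.analyticAt_of_isometric (hU.inter AA_open)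
      (hC1.mono (fun w hw => Or.inl hw.2))
      (fun w hw u v => by rw [hiso w (Or.inl hw.2), form_flat hw.2]) ⟨hzU, hz⟩ hO hf
      (hdf _ hzO) hzO (fun w hw hwO => h0 w hw.1 hwO)
  have hB : ∀ z ∈ RR, AnalyticAt ℝ (fun z => r (shi z)) z ∧ ∀ u v : ℝ × ℝ,
      ⟪fderiv ℝ (fun z => r (shi z)) z u, fderiv ℝ (fun z => r (shi z)) z v⟫_ℝ =
        u.1 * v.1 + u.2 * v.2 := by
    have hder : ∀ z ∈ RR, ∀ u : ℝ × ℝ, fderiv ℝ (fun z => r (shi z)) z u =
        fderiv ℝ r (shi z) (u.1, u.2 + deriv vv z.1 * u.1) := by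
      intro z hz u
      have hzD : shi z ∈ DD := Or.inr (shi_mem hz)
      have hd : DifferentiableAt ℝ r (shi z) :=
        (hC1.differentiableOn (by norm_num)).differentiableAt (DD_open.mem_nhds hzD)
      have h1 := hd.hasFDerivAt.comp z (hasFDerivAt_shi z)
      have h2 : HasFDerivAt (fun z => r (shi z)) _ z := h1
      rw [h2.fderiv]
      simp
    have hisoR : ∀ z ∈ RR, ∀ u v : ℝ × ℝ,
      ⟪fderiv ℝ (fun z => r (shi z)) z u, fderiv ℝ (fun z => r (shi z)) z v⟫_ℝ =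
        u.1 * v.1 + u.2 * v.2 := by
      intro z hz u v
      rw [hder z hz, hder z hz, hiso _ (Or.inr (shi_mem hz)), form_RR' (shi_mem hz)]
      simp only [shi]
      ring
    intro z hz
    refine ⟨?_, hisoR z hz⟩
    have hzD : shi z ∈ DD := Or.inr (shi_mem hz)
    obtain ⟨U, O, f, hU, hzU, hO, hzO, hf, hdf, h0⟩ := hcon _ hzD
    have hUo : IsOpen (shi ⁻¹' U ∩ RR) := (hU.preimage shi_smooth.continuous).inter RR_open
    refine Reg.analyticAt_of_isometric (ρ := fun z => r (shi z)) hUo ?_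
      (fun w hw => hisoR w hw.2) ⟨hzU, hz⟩ hO hf (hdf _ hzO) hzO (fun w hw hwO => h0 _ hw.1 hwO)
    refine ContDiffOn.comp (t := DD) hC1 (shi_smooth.of_le (by norm_num)).contDiffOn ?_
    intro w hw
    exact Or.inr (shi_mem hw.2)
  have I2 : FlatImm Om2 (rho2 r) := by
    refine flat_of_local Om2_open Om2_preconnected ?_
    intro z hz
    by_cases h : z ∈ RR
    · have he : rho2 r =ᶠ[𝓝 z] fun z => r (shi z) := by
        filter_upwards [RR_open.mem_nhds h] with w hw using rho2_RR hw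
      obtain ⟨h1, h2⟩ := hB z h
      exact ⟨h1.congr he.symm, fun u v => by rw [he.fderiv_eq]; exact h2 u v⟩
    · have h' : z ∈ MM ∪ CC := hz.resolve_right h
      have he : rho2 r =ᶠ[𝓝 z] r := by
        filter_upwards [(MM_open.union CC_open).mem_nhds h'] with w hw using rho2_AA hw
      obtain ⟨h1, h2⟩ := hA z (Or.inl (Or.inl h'))
      exact ⟨h1.congr he.symm, fun u v => by rw [he.fderiv_eq]; exact h2 u v⟩
  have IP : FlatImm OmP r := by
    refine flat_of_local OmP_open OmP_preconnected ?_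
    rintro z (h | h)
    · exact hA z (Or.inl (Or.inl (Or.inl h)))
    · exact hA z (Or.inl (Or.inr h))
  have IN : FlatImm OmN r := by
    refine flat_of_local OmN_open OmN_preconnected ?_
    rintro z (h | h)
    · exact hA z (Or.inl (Or.inl (Or.inl h)))
    · exact hA z (Or.inr h)
  have hM : EqOn (rho2 r) r MM := fun z hz => rho2_AA (Or.inl hz)
  rcases global I2 IP IN hM hM with ⟨z, ⟨hzR, hzP⟩, he⟩ | ⟨z, ⟨hzR, hzP⟩, he⟩
  · rw [rho2_RR hzR] at he
    have h1 := hinj (Or.inr (shi_mem hzR)) (Or.inl (Or.inl (Or.inr hzP))) he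
    have h2 : (shi z).2 = z.2 := by rw [h1]
    simp only [shi] at h2
    rw [vv_one hzP.1.1] at h2
    linarith
  · rw [rho2_RR hzR] at he
    have h1 := hinj (Or.inr (shi_mem hzR)) (Or.inl (Or.inr hzP)) he
    have h2 : (shi z).2 = z.2 := by rw [h1]
    simp only [shi] at h2
    rw [vv_one' hzP.1.2] at h2
    linarith

end Pool.Agent.Lib.MP60a66a
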