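import Pool.Agent.Lib.MP_60a66a_gt.Rooms

set_option autoImplicit false
set_option linter.unusedSectionVars false

open Filter Topology Set

namespace Pool.Agent.Lib.MP60a66a

variable {G : Type*} [NormedAddCommGroup G] [NormedSpace ℝ G]

/-- Shallow case. -/
lemma caseS [CompleteSpace G] {Q2 QN : ℝ × ℝ → G} (F2 : Foliated Om2 Q2) (FN : Foliated OmN QN)
    (hM : EqOn Q2 QN MM) {y0 m : ℝ} (hy0 : -(1 / 1000) < y0) (hy0' : y0 < 0) (hm : 0 ≤ m)
    (hm' : m < 1 / 2) (hleaf : LeafDir Q2 (0, y0) (1, m)) :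
    ∃ z ∈ RR ∩ PN, Q2 z = QN z := by
  obtain ⟨μ, hμan, hμleaf, hμ0⟩ := F2.slopeV (x0 := 0) (c := -1) (d := 1) (ys := y0) (ms := m)
    (fun y hy => by
      apply CC_sub_Om2
      exact ⟨by norm_num, hy⟩) ⟨by linarith, by linarith⟩ hleaf
  set h : ℝ → ℝ := fun y => y - μ y / 2 with hh
  have hy0I : y0 ∈ Ioo (-1 : ℝ) 1 := ⟨by linarith, by linarith⟩
  have hh0 : h y0 = y0 - m / 2 := by simp [hh, hμ0]
  have hMpt : ∀ {x y : ℝ}, -1 < x → x < 1 → -1 < y → y < 0 → ((x, y) : ℝ × ℝ) ∈ MM :=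
    fun a b c d => ⟨⟨a, b⟩, ⟨c, d⟩⟩
  have hz0M : ((0, y0) : ℝ × ℝ) ∈ MM := hMpt (by norm_num) (by norm_num) (by linarith) hy0'
  have hz1M : ((-(1 / 2), h y0) : ℝ × ℝ) ∈ MM := by
    rw [hh0]; exact hMpt (by norm_num) (by norm_num) (by linarith) (by linarith)
  -- general point formula
  have hpt : ∀ y, ((-(1 / 2), h y) : ℝ × ℝ) = (0, y) + (-(1 / 2) : ℝ) • ((1, μ y) : ℝ × ℝ) := by
    intro y; ext <;> simp [hh]; ring
  -- transport in MM
  have htrans : ∀ y ∈ Ioo (-1 : ℝ) 1, ((0, y) : ℝ × ℝ) ∈ MM → ((-(1 / 2), h y) : ℝ × ℝ) ∈ MM →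
      QN (-(1 / 2), h y) = Q2 (0, y) ∧ LeafDir QN (-(1 / 2), h y) (1, μ y) := by
    intro y hy h1 h2
    obtain ⟨h3, h4⟩ := F2.move_convex MM_convex MM_sub_Om2 (hμleaf y hy) (hpt y) h1 h2
    exact ⟨by rw [← hM h2]; exact h3, h4.congr MM_open h2 hM⟩
  obtain ⟨hN0, hN0l⟩ := htrans y0 hy0I hz0M hz1M
  rw [hμ0] at hN0l
  obtain ⟨ν, hνan, hνleaf, hν0⟩ := FN.slopeV (x0 := -(1 / 2)) (c := -1) (d := 1 / 2)
    (ys := h y0) (ms := m) (fun y hy => by
      apply PN_sub_OmN
      exact ⟨by norm_num, hy⟩) ⟨by rw [hh0]; linarith, by rw [hh0]; linarith⟩ hN0l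
  have hhan : AnalyticOnNhd ℝ h (Ioo (-1) 1) := by
    intro y hy
    have h1 : AnalyticAt ℝ μ y := hμan y hy
    exact analyticAt_id.sub (h1.div_const)
  -- identity
  have hident : ∀ b, b < 1 → y0 ≤ b → (∀ y ∈ Icc y0 b, h y ∈ Ioo (-1 : ℝ) (1 / 2)) →
      ∀ y ∈ Icc y0 b, ν (h y) = μ y ∧ QN (-(1 / 2), h y) = Q2 (0, y) := by
    intro b hb hyb hgood
    have hsub : ∀ y ∈ Icc y0 b, y ∈ Ioo (-1 : ℝ) 1 := fun y hy =>
      ⟨by linarith [hy.1], by linarith [hy.2]⟩
    have hnear : ∀ᶠ y in 𝓝 y0, ν (h y) = μ y ∧ QN (-(1 / 2), h y) = Q2 (0, y) := by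
      have c1 : ContinuousAt (fun y : ℝ => ((0, y) : ℝ × ℝ)) y0 := by fun_prop
      have c2 : ContinuousAt (fun y : ℝ => ((-(1 / 2), h y) : ℝ × ℝ)) y0 :=
        continuousAt_const.prodMk (hhan y0 hy0I).continuousAt
      filter_upwards [c1.eventually (MM_open.mem_nhds hz0M),
        c2.eventually (MM_open.mem_nhds hz1M), isOpen_Ioo.mem_nhds hy0I] with y h1 h2 h3
      obtain ⟨h4, h5⟩ := htrans y h3 h1 h2
      have h6 : h y ∈ Ioo (-1 : ℝ) (1 / 2) := ⟨h2.2.1, by linarith [h2.2.2]⟩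
      have h7 := FN.unique (MM_sub_OmN h2) (hνleaf _ h6) h5
      simp only [one_mul, mul_one] at h7
      exact ⟨by linarith, h4⟩
    have hpc : IsPreconnected (Icc y0 b) := isPreconnected_Icc
    have an1 : AnalyticOnNhd ℝ (fun y => ν (h y)) (Icc y0 b) := by
      intro y hy
      exact AnalyticAt.comp (g := ν) (f := h) (hνan _ (hgood y hy)) (hhan y (hsub y hy))
    have an2 : AnalyticOnNhd ℝ μ (Icc y0 b) := fun y hy => hμan y (hsub y hy)
    have an3 : AnalyticOnNhd ℝ (fun y => QN (-(1 / 2), h y)) (Icc y0 b) := by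
      intro y hy
      have h1 : ((-(1 / 2), h y) : ℝ × ℝ) ∈ OmN := by
        apply PN_sub_OmN; exact ⟨by norm_num, hgood y hy⟩
      exact AnalyticAt.comp (g := QN) (f := fun y => ((-(1 / 2), h y) : ℝ × ℝ))
        (FN.analytic _ h1) (analyticAt_const.prod (hhan y (hsub y hy)))
    have an4 : AnalyticOnNhd ℝ (fun y => Q2 (0, y)) (Icc y0 b) := by
      intro y hy
      have h1 : ((0, y) : ℝ × ℝ) ∈ Om2 := by
        apply CC_sub_Om2; exact ⟨by norm_num, hsub y hy⟩
      exact AnalyticAt.comp (g := Q2) (f := fun y => ((0, y) : ℝ × ℝ))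
        (F2.analytic _ h1) (analyticAt_const.prod analyticAt_id)
    have E1 := an1.eqOn_of_preconnected_of_eventuallyEq an2 hpc (left_mem_Icc.2 hyb)
      (hnear.mono fun y hy => hy.1)
    have E2 := an3.eqOn_of_preconnected_of_eventuallyEq an4 hpc (left_mem_Icc.2 hyb)
      (hnear.mono fun y hy => hy.2)
    exact fun y hy => ⟨E1 hy, E2 hy⟩
  -- Claim A
  have claimA : ∀ y, y0 < y → y < 1 → h y ∈ Ioo (-1 : ℝ) (1 / 2) → ν (h y) = μ y →
      h y0 < h y := by
    intro y hy1 hy2 hhy hνμ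
    by_contra hle
    push Not at hle
    have hneg : h y < 0 := by rw [hh0] at hle; linarith
    have hzA : ((-(1 / 2), h y) : ℝ × ℝ) ∈ MM := hMpt (by norm_num) (by norm_num) hhy.1 hneg
    have hlN : LeafDir QN (-(1 / 2), h y) (1, μ y) := by
      have := hνleaf _ hhy
      rwa [hνμ] at this
    have hl2 : LeafDir Q2 (-(1 / 2), h y) (1, μ y) := hlN.congr MM_open hzA hM.symm
    have hμy : μ y = 2 * (y - h y) := by simp only [hh]; ring
    have hm2 : m = 2 * (y0 - h y0) := by rw [hh0]; ring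
    set s : ℝ := (h y0 - h y) / (μ y - m) with hs
    have hpos : 0 < μ y - m := by rw [hμy, hm2]; linarith
    have hs0 : 0 ≤ s := div_nonneg (by linarith) hpos.le
    have hs1 : s ≤ 1 / 2 := by
      rw [hs, div_le_iff₀ hpos, hμy, hm2]; linarith
    have hsm : s * (μ y - m) = h y0 - h y := by rw [hs]; field_simp
    -- crossing point
    set zc : ℝ × ℝ := (-(1 / 2) + s, h y0 + m * s) with hzc
    have hzcM : zc ∈ MM := by
      refine hMpt (by linarith) (by linarith) ?_ ?_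
      · have : 0 ≤ m * s := mul_nonneg hm hs0
        rw [hh0]; linarith
      · have : m * s ≤ m * (1 / 2) := mul_le_mul_of_nonneg_left hs1 hm
        rw [hh0]; linarith
    have m1 := (F2.move_convex MM_convex MM_sub_Om2 hl2 (s := s) (z' := zc) (by
      rw [hzc]; ext
      · simp
      · simp only [Prod.snd_add, Prod.smul_snd, smul_eq_mul]; linarith) hzA hzcM).2
    have m2 := (F2.move_convex MM_convex MM_sub_Om2 hleaf (s := s - 1 / 2) (z' := zc) (by
      rw [hzc]; ext
      · simp; ring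
      · simp only [Prod.snd_add, Prod.smul_snd, smul_eq_mul]; rw [hh0]; ring) hz0M hzcM).2
    have := F2.unique (MM_sub_Om2 hzcM) m1 m2
    simp only [one_mul, mul_one] at this
    linarith
  -- first exit
  set cl : ℝ := (h y0 - 1) / 2 with hcl
  have hcl1 : -1 < cl := by rw [hcl, hh0]; linarith
  have hcl2 : cl < h y0 := by rw [hcl, hh0]; linarith
  have hstart : y0 ∈ {y | h y ∈ Ioo cl (2 / 25)} := ⟨hcl2, by rw [hh0]; linarith⟩
  have hex := first_exit (a := y0) (b := 9 / 10) (good := {y | h y ∈ Ioo cl (2 / 25)}) (by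
    intro x hx hg
    have hc : ContinuousAt h x := (hhan x ⟨by linarith [hx.1], by linarith [hx.2]⟩).continuousAt
    exact hc.eventually (isOpen_Ioo.mem_nhds hg)) hstart
  rcases hex with hall | ⟨y1, hy1, hbefore, hy1n⟩
  · -- case (S-b)
    exfalso
    obtain ⟨b, hb⟩ : ∃ b : ℝ, b = 9 / 10 := ⟨_, rfl⟩
    rw [← hb] at hall
    have hgood : ∀ y ∈ Icc y0 b, h y ∈ Ioo (-1 : ℝ) (1 / 2) := fun y hy => by
      have := hall y hy
      exact ⟨by linarith [this.1], by linarith [this.2]⟩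
    have hbmem : b ∈ Icc y0 b := ⟨by linarith, le_refl _⟩
    have hI := hident b (by linarith) (by linarith) hgood b hbmem
    have hA := claimA b (by linarith) (by linarith) (hgood b hbmem) hI.1
    have hhb := hall b hbmem
    have hμb : μ b = 2 * (b - h b) := by simp only [hh]; ring
    have hm2 : m = 2 * (y0 - h y0) := by rw [hh0]; ring
    have hhb2 : h b < 2 / 25 := hhb.2
    have hlN : LeafDir QN (-(1 / 2), h b) (1, μ b) := by
      have := hνleaf _ (hgood b hbmem)
      rwa [hI.1] at this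
    have hpos : 0 < μ b - m := by rw [hμb]; linarith
    -- crossing at x = -1/2 - s
    set s : ℝ := (h b - h y0) / (μ b - m) with hs
    have hs0 : 0 < s := div_pos (by linarith) hpos
    have hs1 : s < 1 / 2 := by
      rw [hs, div_lt_iff₀ hpos, hμb, hm2, hh0]; linarith
    have hsm : s * (μ b - m) = h b - h y0 := by rw [hs]; field_simp
    set zc : ℝ × ℝ := (-(1 / 2) - s, h y0 - m * s) with hzc
    have hms : 0 ≤ m * s := mul_nonneg hm hs0.le
    have hms2 : m * s ≤ m * (1 / 2) := mul_le_mul_of_nonneg_left hs1.le hm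
    have hzcM : zc ∈ MM := by
      refine hMpt (by linarith) (by linarith) ?_ ?_
      · rw [hh0]; linarith
      · rw [hh0]; linarith
    have hzb : zc = (-(1 / 2), h b) + (-s) • ((1, μ b) : ℝ × ℝ) := by
      rw [hzc]; ext
      · simp; ring
      · simp only [Prod.snd_add, Prod.smul_snd, smul_eq_mul]; linarith
    -- move along λ(b) from (-1/2, h b) to zc in OmN
    have m1 : LeafDir QN zc (1, μ b) := by
      refine (hlN.move_seg FN.isOpen FN.analytic hzb ?_).2
      rw [hzb, segment_eq_image']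
      rintro _ ⟨θ, ⟨hθ0, hθ1⟩, rfl⟩
      beta_reduce
      have hp : ((-(1 / 2), h b) : ℝ × ℝ) + θ • (((-(1 / 2), h b) : ℝ × ℝ) +
          (-s) • ((1, μ b) : ℝ × ℝ) - (-(1 / 2), h b)) =
          (-(1 / 2) - θ * s, h b - θ * s * μ b) := by
        ext <;> simp <;> ring
      rw [hp]
      have hθs0 : 0 ≤ θ * s := mul_nonneg hθ0 hs0.le
      have hθs1 : θ * s ≤ s := by nlinarith
      have hsμ : s * μ b = h b - h y0 + s * m := by linarith
      have hlow : -1 < h b - θ * s * μ b := by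
        have h1 : θ * s * μ b ≤ s * μ b := by
          have : 0 ≤ s * μ b := by rw [hsμ]; nlinarith
          nlinarith
        have h2 : s * m ≤ 1 / 2 * m := mul_le_mul_of_nonneg_right hs1.le hm
        rw [hh0] at hsμ
        linarith
      by_cases hneg : h b - θ * s * μ b < 0
      · exact MM_sub_OmN (hMpt (by linarith) (by linarith) hlow hneg)
      · push Not at hneg
        apply PN_sub_OmN
        have h3 : θ * s * μ b ≤ 2 / 25 := by linarith
        have h4 : μ b > 3 / 2 := by rw [hμb]; linarith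
        have h5 : θ * s ≤ 1 / 8 := by nlinarith
        refine ⟨⟨by simp only; linarith, by simp only; linarith⟩, ⟨hlow, ?_⟩⟩
        simp only
        have : 0 ≤ θ * s * μ b := mul_nonneg hθs0 (by linarith)
        linarith
    have m1' : LeafDir Q2 zc (1, μ b) := m1.congr MM_open hzcM hM.symm
    have m2 := (F2.move_convex MM_convex MM_sub_Om2 hleaf (s := -(1 / 2) - s) (z' := zc) (by
      rw [hzc]; ext
      · simp
      · simp only [Prod.snd_add, Prod.smul_snd, smul_eq_mul]; rw [hh0]; ring) hz0M hzcM).2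
    have := F2.unique (MM_sub_Om2 hzcM) m1' m2
    simp only [one_mul, mul_one] at this
    linarith
  · -- case (S-a)
    have hy1I : y1 ∈ Ioo (-1 : ℝ) 1 := ⟨by linarith [hy1.1], by linarith [hy1.2]⟩
    have hcont1 : ContinuousAt h y1 := (hhan y1 hy1I).continuousAt
    have hclos : h y1 ∈ Icc cl (2 / 25) := by
      have h1 : Tendsto h (𝓝[<] y1) (𝓝 (h y1)) := hcont1.tendsto.mono_left nhdsWithin_le_nhds
      have h2 : ∀ᶠ y in 𝓝[<] y1, h y ∈ Icc cl (2 / 25) := by
        have : Ico y0 y1 ∈ 𝓝[<] y1 := Ico_mem_nhdsLT hy1.1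
        filter_upwards [this] with y hy
        have := hbefore y hy
        exact ⟨this.1.le, this.2.le⟩
      exact isClosed_Icc.mem_of_tendsto h1 h2
    have hgood : ∀ y ∈ Icc y0 y1, h y ∈ Ioo (-1 : ℝ) (1 / 2) := by
      intro y hy
      rcases hy.2.eq_or_lt with h1 | h1
      · rw [h1]; exact ⟨by linarith [hclos.1], by linarith [hclos.2]⟩
      · have := hbefore y ⟨hy.1, h1⟩
        exact ⟨by linarith [this.1], by linarith [this.2]⟩
    have hy1mem : y1 ∈ Icc y0 y1 := ⟨hy1.1.le, le_refl _⟩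
    have hI := hident y1 hy1I.2 hy1.1.le hgood y1 hy1mem
    have hA := claimA y1 hy1.1 hy1I.2 (hgood y1 hy1mem) hI.1
    have hval : h y1 = 2 / 25 := by
      by_contra hne
      apply hy1n
      exact ⟨by linarith, lt_of_le_of_ne hclos.2 hne⟩
    have hμ1 : μ y1 = 2 * (y1 - 2 / 25) := by
      have : μ y1 = 2 * (y1 - h y1) := by simp only [hh]; ring
      rw [this, hval]
    have hl1 : LeafDir Q2 (0, y1) (1, μ y1) := hμleaf y1 hy1I
    -- y1 > 1/100
    have hbig : 1 / 100 < y1 := by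
      by_contra hle
      push Not at hle
      have hpos : 0 < m - μ y1 := by rw [hμ1]; linarith
      set s : ℝ := (y1 - y0) / (m - μ y1) with hs
      have hs0 : 0 < s := div_pos (by linarith [hy1.1]) hpos
      have hs1 : s < 1 / 10 := by
        rw [hs, div_lt_iff₀ hpos, hμ1]; linarith
      have hsm : s * (m - μ y1) = y1 - y0 := by rw [hs]; field_simp
      set zc : ℝ × ℝ := (s, y0 + m * s) with hzc
      have hms : 0 ≤ m * s := mul_nonneg hm hs0.le
      have hms2 : m * s ≤ 1 / 2 * (1 / 10) := mul_le_mul hm'.le hs1.le hs0.le (by norm_num)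
      have hzcC : zc ∈ CC := ⟨⟨by simp only [hzc]; linarith, by simp only [hzc]; linarith⟩,
        ⟨by simp only [hzc]; linarith, by simp only [hzc]; linarith⟩⟩
      have c0 : ((0, y0) : ℝ × ℝ) ∈ CC := ⟨by norm_num, ⟨by simp only; linarith,
        by simp only; linarith⟩⟩
      have c1 : ((0, y1) : ℝ × ℝ) ∈ CC := ⟨by norm_num, hy1I⟩
      have m1 := (F2.move_convex CC_convex CC_sub_Om2 hl1 (s := s) (z' := zc) (by
        rw [hzc]; ext
        · simp
        · simp only [Prod.snd_add, Prod.smul_snd, smul_eq_mul]; linarith) c1 hzcC).2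
      have m2 := (F2.move_convex CC_convex CC_sub_Om2 hleaf (s := s) (z' := zc) (by
        rw [hzc]; ext
        · simp
        · simp only [Prod.snd_add, Prod.smul_snd, smul_eq_mul]; ring) c0 hzcC).2
      have := F2.unique (CC_sub_Om2 hzcC) m1 m2
      simp only [one_mul, mul_one] at this
      linarith
    -- conclusion
    refine ⟨(-(1 / 2), 2 / 25), ⟨⟨by norm_num, by norm_num⟩, ⟨by norm_num, by norm_num⟩⟩, ?_⟩
    have hzR : ((-(1 / 2), 2 / 25) : ℝ × ℝ) ∈ RR := ⟨by norm_num, by norm_num⟩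
    have hz1R : ((0, y1) : ℝ × ℝ) ∈ RR := ⟨by norm_num, ⟨hbig, hy1I.2⟩⟩
    have h1 := (F2.move_convex RR_convex RR_sub_Om2 hl1 (s := -(1 / 2))
      (z' := (-(1 / 2), 2 / 25)) (by
        have := hpt y1
        rwa [hval] at this) hz1R hzR).1
    rw [h1, ← hI.2, hval]

end Pool.Agent.Lib.MP60a66a
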