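import Pool.Agent.Lib.MP_60a66a_gt.Rooms

set_option autoImplicit false
set_option linter.unusedSectionVars false

open Filter Topology Set

namespace Pool.Agent.Lib.MP60a66a

variable {G : Type*} [NormedAddCommGroup G] [NormedSpace ℝ G]

lemma convex_between {C : Set (ℝ × ℝ)} (hC : Convex ℝ C) {z v : ℝ × ℝ} {a b s : ℝ}
    (ha : z + a • v ∈ C) (hb : z + b • v ∈ C) (h1 : a ≤ s) (h2 : s ≤ b) : z + s • v ∈ C := by
  rcases (h1.trans h2).eq_or_lt with h | h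
  · have : s = a := le_antisymm (by linarith) h1
    rw [this]; exact ha
  · have hpos : 0 < b - a := by linarith
    have hsum : (b - s) / (b - a) + (s - a) / (b - a) = 1 := by field_simp; ring
    have h3 := hC ha hb (div_nonneg (by linarith) hpos.le) (div_nonneg (by linarith) hpos.le) hsum
    have h4 : ((b - s) / (b - a)) • (z + a • v) + ((s - a) / (b - a)) • (z + b • v) =
        z + s • v := by
      have e : (((b - s) / (b - a)) * a + ((s - a) / (b - a)) * b) = s := by field_simp; ring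
      calc ((b - s) / (b - a)) • (z + a • v) + ((s - a) / (b - a)) • (z + b • v)
          = ((b - s) / (b - a) + (s - a) / (b - a)) • z +
            (((b - s) / (b - a)) * a + ((s - a) / (b - a)) * b) • v := by module
        _ = z + s • v := by rw [hsum, e, one_smul]
    rwa [h4] at h3

/-- The tube around the leaf through the origin (steep case): all points of nearby leaves between
the levels `-1/40` and `1/10` stay in the domain. -/
lemma tube {Q2 : ℝ × ℝ → G} (F2 : Foliated Om2 Q2) {κ0 : ℝ} (hκ : |κ0| ≤ 2) {κM : ℝ → ℝ}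
    (hc : ContinuousAt κM (-(κ0 / 40))) (hκM0 : κM (-(κ0 / 40)) = κ0)
    (hleaf : ∀ t ∈ Ioo (-1 : ℝ) 1, LeafDir Q2 (t, -(1 / 40)) (κM t, 1)) :
    ∀ᶠ t in 𝓝 (-(κ0 / 40)), ∀ s ∈ Icc (0 : ℝ) (1 / 8),
      ((t + κM t * s, -(1 / 40) + s) : ℝ × ℝ) ∈ Om2 ∧
      Q2 (t + κM t * s, -(1 / 40) + s) = Q2 (t, -(1 / 40)) ∧
      LeafDir Q2 (t + κM t * s, -(1 / 40) + s) (κM t, 1) := by
  obtain ⟨hκ1, hκ2⟩ := abs_le.1 hκ
  set t0 : ℝ := -(κ0 / 40) with ht0
  have hid : ContinuousAt (fun t : ℝ => t) t0 := continuousAt_id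
  have e1 : ∀ᶠ t in 𝓝 t0, t ∈ Ioo (-(1 / 8) : ℝ) (1 / 8) :=
    isOpen_Ioo.mem_nhds ⟨by linarith, by linarith⟩
  have c2 : ContinuousAt (fun t : ℝ => t + κM t * (3 / 80)) t0 := hid.add (hc.mul_const _)
  have e2 : ∀ᶠ t in 𝓝 t0, t + κM t * (3 / 80) ∈ Ioo (-(1 / 8) : ℝ) (1 / 8) :=
    c2.eventually (isOpen_Ioo.mem_nhds ⟨by beta_reduce; rw [hκM0]; linarith, by beta_reduce; rw [hκM0]; linarith⟩)
  have c3 : ContinuousAt (fun t : ℝ => t + κM t * (1 / 8)) t0 := hid.add (hc.mul_const _)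
  have e3 : ∀ᶠ t in 𝓝 t0, t + κM t * (1 / 8) ∈ Ioo (-1 : ℝ) 1 :=
    c3.eventually (isOpen_Ioo.mem_nhds ⟨by beta_reduce; rw [hκM0]; linarith, by beta_reduce; rw [hκM0]; linarith⟩)
  filter_upwards [e1, e2, e3] with t h1 h2 h3 s hs
  have hA : ((t, -(1 / 40)) : ℝ × ℝ) ∈ CC := ⟨h1, by norm_num⟩
  have hB : ((t + κM t * (3 / 80), 1 / 80) : ℝ × ℝ) ∈ CC := ⟨h2, by norm_num⟩
  have hB' : ((t + κM t * (3 / 80), 1 / 80) : ℝ × ℝ) ∈ RR :=
    ⟨⟨by linarith [h2.1], by linarith [h2.2]⟩, by norm_num⟩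
  have hC : ((t + κM t * (1 / 8), 1 / 10) : ℝ × ℝ) ∈ RR := ⟨h3, by norm_num⟩
  have hl := hleaf t ⟨by linarith [h1.1], by linarith [h1.2]⟩
  have hpt : ∀ s : ℝ, ((t + κM t * s, -(1 / 40) + s) : ℝ × ℝ) =
      (t, -(1 / 40)) + s • ((κM t, 1) : ℝ × ℝ) := by
    intro s; ext <;> simp; ring
  have hA' : ((t, -(1 / 40)) : ℝ × ℝ) + (0 : ℝ) • ((κM t, 1) : ℝ × ℝ) ∈ CC := by simpa using hA
  have eB : ((t, -(1 / 40)) : ℝ × ℝ) + (3 / 80 : ℝ) • ((κM t, 1) : ℝ × ℝ) =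
      (t + κM t * (3 / 80), 1 / 80) := by ext <;> simp <;> ring
  have eC : ((t, -(1 / 40)) : ℝ × ℝ) + (1 / 8 : ℝ) • ((κM t, 1) : ℝ × ℝ) =
      (t + κM t * (1 / 8), 1 / 10) := by ext <;> simp <;> ring
  rcases le_or_gt s (3 / 80) with hs1 | hs1
  · have hmem : ((t + κM t * s, -(1 / 40) + s) : ℝ × ℝ) ∈ CC := by
      rw [hpt]
      exact convex_between CC_convex hA' (by rw [eB]; exact hB) hs.1 hs1
    exact ⟨CC_sub_Om2 hmem, F2.move_convex CC_convex CC_sub_Om2 hl (hpt s) hA hmem⟩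
  · obtain ⟨hB1, hB2⟩ := F2.move_convex CC_convex CC_sub_Om2 hl (s := 3 / 80)
      (z' := (t + κM t * (3 / 80), 1 / 80)) (by ext <;> simp <;> ring_nf) hA hB
    have hmem : ((t + κM t * s, -(1 / 40) + s) : ℝ × ℝ) ∈ RR := by
      rw [hpt]
      exact convex_between RR_convex (by rw [eB]; exact hB') (by rw [eC]; exact hC) hs1.le hs.2
    obtain ⟨h5, h6⟩ := F2.move_convex RR_convex RR_sub_Om2 hB2 (s := s - 3 / 80)
      (z' := (t + κM t * s, -(1 / 40) + s)) (by ext <;> simp <;> ring) hB' hmem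
    exact ⟨RR_sub_Om2 hmem, h5.trans hB1, h6⟩

/-- Steep case. -/
lemma caseT [CompleteSpace G] {Q2 QP : ℝ × ℝ → G} (F2 : Foliated Om2 Q2) (FP : Foliated OmP QP)
    (hM : EqOn Q2 QP MM) {κ0 : ℝ} (hκ : |κ0| ≤ 2) (hleaf : LeafDir Q2 (0, 0) (κ0, 1)) :
    ∃ z ∈ RR ∩ PP, Q2 z = QP z := by
  obtain ⟨hκ1, hκ2⟩ := abs_le.1 hκ
  obtain ⟨t0, ht0⟩ : ∃ t0 : ℝ, t0 = -(κ0 / 40) := ⟨_, rfl⟩
  have hMpt : ∀ {x y : ℝ}, -1 < x → x < 1 → -1 < y → y < 0 → ((x, y) : ℝ × ℝ) ∈ MM :=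
    fun a b c d => ⟨⟨a, b⟩, ⟨c, d⟩⟩
  have hO : ((0, 0) : ℝ × ℝ) ∈ CC := ⟨by norm_num, by norm_num⟩
  have ht0C : ((t0, -(1 / 40)) : ℝ × ℝ) ∈ CC :=
    ⟨⟨by simp only; linarith, by simp only; linarith⟩, by norm_num⟩
  have ht0M : ((t0, -(1 / 40)) : ℝ × ℝ) ∈ MM :=
    hMpt (by linarith) (by linarith) (by norm_num) (by norm_num)
  obtain ⟨-, hl0⟩ := F2.move_convex CC_convex CC_sub_Om2 hleaf (s := -(1 / 40))
    (z' := (t0, -(1 / 40))) (by rw [ht0]; ext <;> simp; ring) hO ht0C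
  have hu0C : ((κ0 / 80, 1 / 80) : ℝ × ℝ) ∈ CC :=
    ⟨⟨by simp only; linarith, by simp only; linarith⟩, by norm_num⟩
  have hu0R : ((κ0 / 80, 1 / 80) : ℝ × ℝ) ∈ RR :=
    ⟨⟨by simp only; linarith, by simp only; linarith⟩, by norm_num⟩
  have hv0R : ((κ0 / 10, 1 / 10) : ℝ × ℝ) ∈ RR :=
    ⟨⟨by simp only; linarith, by simp only; linarith⟩, by norm_num⟩
  obtain ⟨-, hu1⟩ := F2.move_convex CC_convex CC_sub_Om2 hleaf (s := 1 / 80)
    (z' := (κ0 / 80, 1 / 80)) (by ext <;> simp; ring) hO hu0C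
  obtain ⟨-, hv1⟩ := F2.move_convex RR_convex RR_sub_Om2 hu1 (s := 7 / 80)
    (z' := (κ0 / 10, 1 / 10)) (by ext <;> simp <;> ring) hu0R hv0R
  have ht0I : t0 ∈ Ioo (-1 : ℝ) 1 := ⟨by linarith, by linarith⟩
  obtain ⟨κM, hMan, hMleaf, hM0⟩ := F2.slopeH (y0 := -(1 / 40)) (c := -1) (d := 1) (ts := t0)
    (ks := κ0) (fun t ht => MM_sub_Om2 (hMpt ht.1 ht.2 (by norm_num) (by norm_num))) ht0I hl0
  obtain ⟨κB, hBan, hBleaf, hB0⟩ := F2.slopeH (y0 := 1 / 10) (c := -1) (d := 1) (ts := κ0 / 10)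
    (ks := κ0) (fun t ht => RR_sub_Om2 ⟨ht, by norm_num⟩) ⟨by linarith, by linarith⟩ hv1
  obtain ⟨τ, hτ⟩ : ∃ τ : ℝ → ℝ, τ = fun t => t + κM t / 8 := ⟨_, rfl⟩
  have hτv : ∀ t, τ t = t + κM t / 8 := fun t => by rw [hτ]
  have hτ0 : τ t0 = κ0 / 10 := by rw [hτv, hM0, ht0]; ring
  have hτan : AnalyticOnNhd ℝ τ (Ioo (-1) 1) := by
    intro t ht
    have h1 : AnalyticAt ℝ κM t := hMan t ht
    rw [hτ]
    exact analyticAt_id.add h1.div_const
  have htube := tube F2 hκ (κM := κM) (by rw [← ht0]; exact (hMan t0 ht0I).continuousAt)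
    (by rw [← ht0]; exact hM0) hMleaf
  rw [← ht0] at htube
  -- identity
  have hident : ∀ b, b < 1 → t0 ≤ b → (∀ t ∈ Icc t0 b, τ t ∈ Ioo (-1 : ℝ) 1) →
      ∀ t ∈ Icc t0 b, κB (τ t) = κM t ∧ Q2 (τ t, 1 / 10) = Q2 (t, -(1 / 40)) := by
    intro b hb htb hgood
    have hsub : ∀ t ∈ Icc t0 b, t ∈ Ioo (-1 : ℝ) 1 := fun t ht =>
      ⟨by linarith [ht.1], by linarith [ht.2]⟩
    have hnear : ∀ᶠ t in 𝓝 t0, κB (τ t) = κM t ∧ Q2 (τ t, 1 / 10) = Q2 (t, -(1 / 40)) := by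
      have hc : ContinuousAt τ t0 := (hτan t0 ht0I).continuousAt
      have h2 : ∀ᶠ t in 𝓝 t0, τ t ∈ Ioo (-1 : ℝ) 1 :=
        hc.eventually (isOpen_Ioo.mem_nhds ⟨by rw [hτ0]; linarith, by rw [hτ0]; linarith⟩)
      filter_upwards [htube, h2] with t ht h3
      obtain ⟨ha, hb', hcc⟩ := ht (1 / 8) ⟨by norm_num, le_refl _⟩
      have e : ((t + κM t * (1 / 8), -(1 / 40) + 1 / 8) : ℝ × ℝ) = (τ t, 1 / 10) := by
        rw [hτv]; ext <;> simp <;> ring
      rw [e] at ha hb' hcc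
      refine ⟨?_, hb'⟩
      have h7 := F2.unique ha (hBleaf _ h3) hcc
      simp only [one_mul, mul_one] at h7
      linarith
    have hpc : IsPreconnected (Icc t0 b) := isPreconnected_Icc
    have an1 : AnalyticOnNhd ℝ (fun t => κB (τ t)) (Icc t0 b) := by
      intro t ht
      exact AnalyticAt.comp (g := κB) (f := τ) (hBan _ (hgood t ht)) (hτan t (hsub t ht))
    have an2 : AnalyticOnNhd ℝ κM (Icc t0 b) := fun t ht => hMan t (hsub t ht)
    have an3 : AnalyticOnNhd ℝ (fun t => Q2 (τ t, 1 / 10)) (Icc t0 b) := by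
      intro t ht
      have h1 : ((τ t, 1 / 10) : ℝ × ℝ) ∈ Om2 := RR_sub_Om2 ⟨hgood t ht, by norm_num⟩
      exact AnalyticAt.comp (g := Q2) (f := fun t => ((τ t, 1 / 10) : ℝ × ℝ))
        (F2.analytic _ h1) ((hτan t (hsub t ht)).prod analyticAt_const)
    have an4 : AnalyticOnNhd ℝ (fun t => Q2 (t, -(1 / 40))) (Icc t0 b) := by
      intro t ht
      have h1 : ((t, -(1 / 40)) : ℝ × ℝ) ∈ Om2 :=
        MM_sub_Om2 (hMpt (hsub t ht).1 (hsub t ht).2 (by norm_num) (by norm_num))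
      exact AnalyticAt.comp (g := Q2) (f := fun t => ((t, -(1 / 40)) : ℝ × ℝ))
        (F2.analytic _ h1) (analyticAt_id.prod analyticAt_const)
    have E1 := an1.eqOn_of_preconnected_of_eventuallyEq an2 hpc (left_mem_Icc.2 htb)
      (hnear.mono fun y hy => hy.1)
    have E2 := an3.eqOn_of_preconnected_of_eventuallyEq an4 hpc (left_mem_Icc.2 htb)
      (hnear.mono fun y hy => hy.2)
    exact fun y hy => ⟨E1 hy, E2 hy⟩
  -- monotone near `t0`
  have hmono : ∀ᶠ t in 𝓝 t0, t0 < t → τ t0 < τ t := by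
    filter_upwards [htube] with t ht hlt
    by_contra hle
    push Not at hle
    rw [hτ0, hτv] at hle
    have hpos : 0 < κ0 - κM t := by linarith
    set s : ℝ := (t - t0) / (κ0 - κM t) with hs
    have hs0 : 0 < s := div_pos (by linarith) hpos
    have hs1 : s ≤ 1 / 8 := by
      rw [hs, div_le_iff₀ hpos]; linarith
    have hsm : s * (κ0 - κM t) = t - t0 := by rw [hs]; field_simp
    obtain ⟨ha, -, hc⟩ := ht s ⟨hs0.le, hs1⟩
    obtain ⟨-, -, hc0⟩ := (htube.self_of_nhds) s ⟨hs0.le, hs1⟩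
    have hpe : t0 + κM t0 * s = t + κM t * s := by rw [hM0]; linarith
    rw [hpe] at hc0
    have h7 := F2.unique ha hc hc0
    simp only [one_mul, mul_one, hM0] at h7
    linarith
  -- Claim B
  have claimB : ∀ b, b < 1 → t0 < b → (∀ t ∈ Icc t0 b, τ t ∈ Ioo (-1 : ℝ) 1) →
      τ t0 < τ b := by
    intro b hb1 hb0 hgood
    by_contra hle
    push Not at hle
    have hI := hident b hb1 hb0.le hgood
    obtain ⟨t', ht'1, ht'2⟩ : ∃ t' ∈ Ioo t0 b, τ t0 < τ t' := by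
      have h1 : ∀ᶠ t in 𝓝[>] t0, t ∈ Ioo t0 b := Ioo_mem_nhdsGT hb0
      have h2 : ∀ᶠ t in 𝓝[>] t0, t0 < t → τ t0 < τ t := hmono.filter_mono nhdsWithin_le_nhds
      obtain ⟨t', ht'⟩ := (h1.and h2).exists
      exact ⟨t', ht'.1, ht'.2 ht'.1.1⟩
    have hcont : ContinuousOn τ (Icc t' b) := by
      intro t ht
      exact (hτan t ⟨by linarith [ht.1, ht'1.1], by linarith [ht.2]⟩).continuousAt.continuousWithinAt
    obtain ⟨tc, htc, htce⟩ := intermediate_value_Icc' ht'1.2.le hcont ⟨hle, ht'2.le⟩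
    have htcm : tc ∈ Icc t0 b := ⟨by linarith [htc.1, ht'1.1], htc.2⟩
    have h1 := (hI tc htcm).1
    have h2 := (hI t0 ⟨le_refl _, hb0.le⟩).1
    rw [htce, h2] at h1
    have h3 := htce
    rw [hτv, hτv, h1] at h3
    linarith [htc.1, ht'1.1]
  -- first exit
  have hx0an : ContinuousOn (fun t => t + κM t / 40) (Ioo (-1) 1) := by
    intro t ht
    have h1 : AnalyticAt ℝ κM t := hMan t ht
    exact (analyticAt_id.add h1.div_const).continuousAt.continuousWithinAt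
  have hstart : t0 ∈ {t | τ t ∈ Ioo (-(1 / 2) : ℝ) (99 / 100) ∧ t + κM t / 40 < 1 / 2} := by
    refine ⟨⟨by rw [hτ0]; linarith, by rw [hτ0]; linarith⟩, ?_⟩
    rw [hM0, ht0]; linarith
  have hex := first_exit (a := t0) (b := 99 / 100)
    (good := {t | τ t ∈ Ioo (-(1 / 2) : ℝ) (99 / 100) ∧ t + κM t / 40 < 1 / 2}) (by
    intro x hx hg
    have hxI : x ∈ Ioo (-1 : ℝ) 1 := ⟨by linarith [hx.1], by linarith [hx.2]⟩
    have hc : ContinuousAt τ x := (hτan x hxI).continuousAt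
    have hc2 : ContinuousAt (fun t => t + κM t / 40) x := hx0an.continuousAt (isOpen_Ioo.mem_nhds hxI)
    exact (hc.eventually (isOpen_Ioo.mem_nhds hg.1)).and
      (hc2.eventually (isOpen_Iio.mem_nhds hg.2))) hstart
  rcases hex with hall | ⟨t1, ht1, hbefore, ht1n⟩
  · exfalso
    have h1 := hall (99 / 100) ⟨by linarith, le_refl _⟩
    have h2 := h1.1.1
    have h3 := h1.2
    rw [hτv] at h2
    linarith
  · have ht1I : t1 ∈ Ioo (-1 : ℝ) 1 := ⟨by linarith [ht1.1], by linarith [ht1.2]⟩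
    have hcont1 : ContinuousAt τ t1 := (hτan t1 ht1I).continuousAt
    have hcont2 : ContinuousAt (fun t => t + κM t / 40) t1 :=
      hx0an.continuousAt (isOpen_Ioo.mem_nhds ht1I)
    have hIco : Ico t0 t1 ∈ 𝓝[<] t1 := Ico_mem_nhdsLT ht1.1
    have hclos : τ t1 ∈ Icc (-(1 / 2) : ℝ) (99 / 100) := by
      have h1 : Tendsto τ (𝓝[<] t1) (𝓝 (τ t1)) := hcont1.tendsto.mono_left nhdsWithin_le_nhds
      have h2 : ∀ᶠ y in 𝓝[<] t1, τ y ∈ Icc (-(1 / 2) : ℝ) (99 / 100) := by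
        filter_upwards [hIco] with y hy
        have := (hbefore y hy).1
        exact ⟨this.1.le, this.2.le⟩
      exact isClosed_Icc.mem_of_tendsto h1 h2
    have hclos2 : t1 + κM t1 / 40 ≤ 1 / 2 := by
      have h1 : Tendsto (fun t => t + κM t / 40) (𝓝[<] t1) (𝓝 (t1 + κM t1 / 40)) :=
        hcont2.tendsto.mono_left nhdsWithin_le_nhds
      have h2 : ∀ᶠ y in 𝓝[<] t1, y + κM y / 40 ∈ Iic (1 / 2 : ℝ) := by
        filter_upwards [hIco] with y hy
        exact (hbefore y hy).2.le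
      exact isClosed_Iic.mem_of_tendsto h1 h2
    have hgood : ∀ t ∈ Icc t0 t1, τ t ∈ Ioo (-1 : ℝ) 1 := by
      intro t ht
      rcases ht.2.eq_or_lt with h1 | h1
      · rw [h1]; exact ⟨by linarith [hclos.1], by linarith [hclos.2]⟩
      · have := (hbefore t ⟨ht.1, h1⟩).1
        exact ⟨by linarith [this.1], by linarith [this.2]⟩
    have ht1mem : t1 ∈ Icc t0 t1 := ⟨ht1.1.le, le_refl _⟩
    obtain ⟨hI1, hI2⟩ := hident t1 ht1I.2 ht1.1.le hgood t1 ht1mem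
    have hBt := claimB t1 ht1I.2 ht1.1 hgood
    rw [hτ0] at hBt
    obtain ⟨κ, hκdef⟩ : ∃ κ : ℝ, κ = κM t1 := ⟨_, rfl⟩
    have hl1 : LeafDir Q2 (t1, -(1 / 40)) (κ, 1) := by rw [hκdef]; exact hMleaf t1 ht1I
    have hA1 : ((t1, -(1 / 40)) : ℝ × ℝ) ∈ MM := hMpt ht1I.1 ht1I.2 (by norm_num) (by norm_num)
    have hτ1 : τ t1 = t1 + κ / 8 := by rw [hτv, hκdef]
    rw [← hκdef] at hclos2 hI1
    rcases hclos2.lt_or_eq with hlt | heq
    · -- case (ii)
      exfalso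
      have hτ99 : τ t1 = 99 / 100 := by
        by_contra hne
        apply ht1n
        exact ⟨⟨by linarith, lt_of_le_of_ne hclos.2 hne⟩, by rw [← hκdef]; exact hlt⟩
      rw [hτ1] at hτ99
      have hκbig : 49 / 10 < κ := by linarith
      have hpos : 0 < κ - κ0 := by linarith
      have hx0pos : 0 < t1 + κ / 40 := by linarith [ht1.1]
      set y : ℝ := -((t1 + κ / 40) / (κ - κ0)) with hy
      have hyneg : y < 0 := by rw [hy]; exact neg_neg_of_pos (div_pos hx0pos hpos)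
      have hylow : -(1 / 5) < y := by
        rw [hy, neg_lt_neg_iff, div_lt_iff₀ hpos]; linarith
      have hym : y * (κ - κ0) = -(t1 + κ / 40) := by rw [hy]; field_simp
      have hzM : ((κ0 * y, y) : ℝ × ℝ) ∈ MM := by
        refine hMpt ?_ ?_ (by linarith) hyneg
        · nlinarith
        · nlinarith
      have m1 := (F2.move_convex MM_convex MM_sub_Om2 hl1 (s := y + 1 / 40) (z' := (κ0 * y, y)) (by
        ext
        · simp only [Prod.fst_add, Prod.smul_fst, smul_eq_mul]; linarith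
        · simp) hA1 hzM).2
      have m2 := (F2.move_convex MM_convex MM_sub_Om2 hl0 (s := y + 1 / 40) (z' := (κ0 * y, y)) (by
        ext
        · simp only [Prod.fst_add, Prod.smul_fst, smul_eq_mul]; rw [ht0]; ring
        · simp) ht0M hzM).2
      have := F2.unique (MM_sub_Om2 hzM) m1 m2
      simp only [one_mul, mul_one] at this
      linarith
    · -- case (i)
      have hκlow : -(15 : ℝ) < κ := by linarith
      have hκup : κ < 5 := by linarith [hclos.2]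
      have hP1M : ((1 / 2 - κ / 80, -(1 / 80)) : ℝ × ℝ) ∈ MM :=
        hMpt (by linarith) (by linarith) (by norm_num) (by norm_num)
      have hP1P : ((1 / 2 - κ / 80, -(1 / 80)) : ℝ × ℝ) ∈ PP :=
        ⟨⟨by simp only; linarith, by simp only; linarith⟩, by norm_num⟩
      have hzP : ((1 / 2 + κ / 80, 1 / 80) : ℝ × ℝ) ∈ PP :=
        ⟨⟨by simp only; linarith, by simp only; linarith⟩, by norm_num⟩
      have hzR : ((1 / 2 + κ / 80, 1 / 80) : ℝ × ℝ) ∈ RR :=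
        ⟨⟨by simp only; linarith, by simp only; linarith⟩, by norm_num⟩
      have hwR : ((τ t1, 1 / 10) : ℝ × ℝ) ∈ RR := ⟨hgood t1 ht1mem, by norm_num⟩
      have hl1P : LeafDir QP (t1, -(1 / 40)) (κ, 1) := hl1.congr MM_open hA1 hM
      obtain ⟨a1, a2⟩ := FP.move_convex MM_convex MM_sub_OmP hl1P (s := 1 / 80)
        (z' := (1 / 2 - κ / 80, -(1 / 80))) (by
          ext
          · simp only [Prod.fst_add, Prod.smul_fst, smul_eq_mul]; linarith
          · simp; norm_num) hA1 hP1M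
      obtain ⟨b1, b2⟩ := FP.move_convex PP_convex PP_sub_OmP a2 (s := 1 / 40)
        (z' := (1 / 2 + κ / 80, 1 / 80)) (by
          ext
          · simp only [Prod.fst_add, Prod.smul_fst, smul_eq_mul]; linarith
          · simp; norm_num) hP1P hzP
      have hlB : LeafDir Q2 (τ t1, 1 / 10) (κ, 1) := by
        have := hBleaf (τ t1) (hgood t1 ht1mem)
        rwa [hI1] at this
      obtain ⟨c1, -⟩ := F2.move_convex RR_convex RR_sub_Om2 hlB (s := -(7 / 80))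
        (z' := (1 / 2 + κ / 80, 1 / 80)) (by
          rw [hτ1]
          ext
          · simp only [Prod.fst_add, Prod.smul_fst, smul_eq_mul]; linarith
          · simp; norm_num) hwR hzR
      refine ⟨(1 / 2 + κ / 80, 1 / 80), ⟨hzR, hzP⟩, ?_⟩
      rw [c1, hI2, b1, a1]
      exact hM hA1

end Pool.Agent.Lib.MP60a66a
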