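import Mathlib

set_option autoImplicit false

open Set
open scoped ContDiff InnerProductSpace

namespace Pool.Agent.Lib.MP60a66a

/-- A metric tensor `E dξ² + 2 F dξ dη + G dη²` on the coordinate plane. -/
structure PlaneMetric where
  /-- coefficient of `dξ²` -/
  E : ℝ × ℝ → ℝ
  /-- coefficient of `dξ dη`, halved -/
  F : ℝ × ℝ → ℝ
  /-- coefficient of `dη²` -/
  G : ℝ × ℝ → ℝ

namespace PlaneMetric

/-- The bilinear form of the metric at the point `z`, evaluated on two vectors. -/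
def form (g : PlaneMetric) (z u v : ℝ × ℝ) : ℝ :=
  g.E z * (u.1 * v.1) + g.F z * (u.1 * v.2 + u.2 * v.1) + g.G z * (u.2 * v.2)

/-- `g` is a Riemannian metric of class `C^∞` on the whole plane. -/
def IsSmoothRiemannian (g : PlaneMetric) : Prop :=
  (ContDiff ℝ ∞ g.E ∧ ContDiff ℝ ∞ g.F ∧ ContDiff ℝ ∞ g.G) ∧
    ∀ z, 0 < g.E z ∧ 0 < g.E z * g.G z - g.F z ^ 2

/-- `g` is locally Euclidean on `D`: every point of `D` has an open neighbourhood in `D` on which
a smooth injective map to the Euclidean plane pulls the Euclidean metric back to `g`. -/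
def IsLocallyEuclideanOn (g : PlaneMetric) (D : Set (ℝ × ℝ)) : Prop :=
  ∀ z ∈ D, ∃ (U : Set (ℝ × ℝ)) (φ : ℝ × ℝ → ℝ × ℝ), IsOpen U ∧ z ∈ U ∧ U ⊆ D ∧
    ContDiffOn ℝ ∞ φ U ∧ InjOn φ U ∧ ∀ w ∈ U, ∀ u v : ℝ × ℝ,
      (fderiv ℝ φ w u).1 * (fderiv ℝ φ w v).1 + (fderiv ℝ φ w u).2 * (fderiv ℝ φ w v).2 =
        g.form w u v

/-- `r` is an injective isometric immersion of class `C¹` of `(D, g)` into Euclidean 3-space. -/
def IsInjectiveIsometricImmersion (g : PlaneMetric) (D : Set (ℝ × ℝ))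
    (r : ℝ × ℝ → EuclideanSpace ℝ (Fin 3)) : Prop :=
  ContDiffOn ℝ 1 r D ∧ InjOn r D ∧
    ∀ z ∈ D, ∀ u v : ℝ × ℝ, ⟪fderiv ℝ r z u, fderiv ℝ r z v⟫_ℝ = g.form z u v

end PlaneMetric

/-- The set `S` is a real-analytic surface at its point `p`: in some open neighbourhood of `p` it
is the zero set of a real-analytic function without critical points. -/
def IsAnalyticSurfaceAt (S : Set (EuclideanSpace ℝ (Fin 3))) (p : EuclideanSpace ℝ (Fin 3)) :
    Prop :=
  ∃ (O : Set (EuclideanSpace ℝ (Fin 3))) (f : EuclideanSpace ℝ (Fin 3) → ℝ), IsOpen O ∧ p ∈ O ∧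
    AnalyticOnNhd ℝ f O ∧ (∀ q ∈ O, fderiv ℝ f q ≠ 0) ∧ S ∩ O = {q ∈ O | f q = 0}

/-- Near `p`, the set `S` is contained in a real-analytic surface: all points of `S` in some open
neighbourhood of `p` are zeros of a real-analytic function without critical points. -/
def LiesInAnalyticSurfaceAt (S : Set (EuclideanSpace ℝ (Fin 3))) (p : EuclideanSpace ℝ (Fin 3)) :
    Prop :=
  ∃ (O : Set (EuclideanSpace ℝ (Fin 3))) (f : EuclideanSpace ℝ (Fin 3) → ℝ), IsOpen O ∧ p ∈ O ∧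
    AnalyticOnNhd ℝ f O ∧ (∀ q ∈ O, fderiv ℝ f q ≠ 0) ∧ ∀ q ∈ S ∩ O, f q = 0

end Pool.Agent.Lib.MP60a66a
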