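import Pool.Agent.Lib.MP_60a66a_gt.Slope

set_option autoImplicit false
set_option linter.unusedSectionVars false

open Filter Topology Set
open scoped InnerProductSpace

namespace Pool.Agent.Lib.MP60a66a

/-- Euclidean 3-space. -/
abbrev E3 := EuclideanSpace ℝ (Fin 3)

/-- `ρ` is a real-analytic isometric immersion of the planar domain `Ω` (with its Euclidean
metric) into 3-space. -/
structure FlatImm (Ω : Set (ℝ × ℝ)) (ρ : ℝ × ℝ → E3) : Prop where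
  isOpen : IsOpen Ω
  conn : IsPreconnected Ω
  analytic : AnalyticOnNhd ℝ ρ Ω
  iso : ∀ z ∈ Ω, ∀ v w : ℝ × ℝ,
    ⟪fderiv ℝ ρ z v, fderiv ℝ ρ z w⟫_ℝ = v.1 * w.1 + v.2 * w.2

/-- In 3-space, vectors orthogonal to two orthonormal vectors are parallel. -/
lemma parallel_of_orthogonal {X Y N U : E3} (hX : ⟪X, X⟫_ℝ = 1) (hY : ⟪Y, Y⟫_ℝ = 1)
    (hXY : ⟪X, Y⟫_ℝ = 0) (hNX : ⟪N, X⟫_ℝ = 0) (hNY : ⟪N, Y⟫_ℝ = 0) (hUX : ⟪U, X⟫_ℝ = 0)
    (hUY : ⟪U, Y⟫_ℝ = 0) (hN : N ≠ 0) : U = (⟪U, N⟫_ℝ / ⟪N, N⟫_ℝ) • N := by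
  have hNN : ⟪N, N⟫_ℝ ≠ 0 := inner_self_ne_zero.2 hN
  have hX0 : X ≠ 0 := by rintro rfl; simp at hX
  have hY0 : Y ≠ 0 := by rintro rfl; simp at hY
  have hXN : ⟪X, N⟫_ℝ = 0 := by rw [real_inner_comm]; exact hNX
  have hYN : ⟪Y, N⟫_ℝ = 0 := by rw [real_inner_comm]; exact hNY
  have hYX : ⟪Y, X⟫_ℝ = 0 := by rw [real_inner_comm]; exact hXY
  set R : E3 := U - (⟪U, N⟫_ℝ / ⟪N, N⟫_ℝ) • N with hR
  have hRN : ⟪R, N⟫_ℝ = 0 := by
    rw [hR, inner_sub_left, real_inner_smul_left]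
    field_simp
    ring
  have hRX : ⟪R, X⟫_ℝ = 0 := by
    rw [hR, inner_sub_left, real_inner_smul_left, hUX, hNX]; ring
  have hRY : ⟪R, Y⟫_ℝ = 0 := by
    rw [hR, inner_sub_left, real_inner_smul_left, hUY, hNY]; ring
  have hli : LinearIndependent ℝ ![X, Y, N] := by
    apply linearIndependent_of_ne_zero_of_inner_eq_zero
    · intro i; fin_cases i <;> simp [hX0, hY0, hN]
    · intro i j hij
      fin_cases i <;> fin_cases j <;> simp_all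
  have hspan : Submodule.span ℝ (Set.range ![X, Y, N]) = ⊤ :=
    hli.span_eq_top_of_card_eq_finrank (by simp)
  have hle : Submodule.span ℝ (Set.range ![X, Y, N]) ≤ (ℝ ∙ R)ᗮ := by
    rw [Submodule.span_le]
    rintro x ⟨i, rfl⟩
    rw [SetLike.mem_coe, Submodule.mem_orthogonal_singleton_iff_inner_right]
    fin_cases i <;> simp [hRX, hRY, hRN]
  have hRmem : R ∈ (ℝ ∙ R)ᗮ := hle (by rw [hspan]; trivial)
  have hR0 : R = 0 := by
    rw [Submodule.mem_orthogonal_singleton_iff_inner_right] at hRmem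
    exact inner_self_eq_zero.1 hRmem
  rw [hR, sub_eq_zero] at hR0
  exact hR0

namespace FlatImm

variable {Ω : Set (ℝ × ℝ)} {ρ : ℝ × ℝ → E3}

lemma anP (F : FlatImm Ω ρ) : AnalyticOnNhd ℝ (fderiv ℝ ρ) Ω := fun z hz => (F.analytic z hz).fderiv

lemma anS (F : FlatImm Ω ρ) : AnalyticOnNhd ℝ (fderiv ℝ (fderiv ℝ ρ)) Ω :=
  fun z hz => (F.anP z hz).fderiv

lemma symmS (F : FlatImm Ω ρ) {z : ℝ × ℝ} (hz : z ∈ Ω) (u v : ℝ × ℝ) :
    fderiv ℝ (fderiv ℝ ρ) z u v = fderiv ℝ (fderiv ℝ ρ) z v u := by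
  have h : ContDiffAt ℝ 2 ρ z := (F.analytic z hz).contDiffAt
  exact h.isSymmSndFDerivAt (by simp) u v

lemma symmT (F : FlatImm Ω ρ) {z : ℝ × ℝ} (hz : z ∈ Ω) (u v : ℝ × ℝ) :
    fderiv ℝ (fderiv ℝ (fderiv ℝ ρ)) z u v = fderiv ℝ (fderiv ℝ (fderiv ℝ ρ)) z v u := by
  have h : ContDiffAt ℝ 2 (fderiv ℝ ρ) z := (F.anP z hz).contDiffAt
  exact h.isSymmSndFDerivAt (by simp) u v

/-- Second derivatives are normal. -/
lemma orth (F : FlatImm Ω ρ) {z : ℝ × ℝ} (hz : z ∈ Ω) (u v w : ℝ × ℝ) :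
    ⟪fderiv ℝ (fderiv ℝ ρ) z u v, fderiv ℝ ρ z w⟫_ℝ = 0 := by
  have key : ∀ u v w : ℝ × ℝ, ⟪fderiv ℝ ρ z v, fderiv ℝ (fderiv ℝ ρ) z u w⟫_ℝ +
      ⟪fderiv ℝ (fderiv ℝ ρ) z u v, fderiv ℝ ρ z w⟫_ℝ = 0 := by
    intro u v w
    have hd : ∀ v : ℝ × ℝ, HasFDerivAt (fun z => fderiv ℝ ρ z v)
        ((fderiv ℝ (fderiv ℝ ρ) z).flip v) z := by
      intro v
      have h1 : HasFDerivAt (fderiv ℝ ρ) (fderiv ℝ (fderiv ℝ ρ) z) z :=
        (F.anP z hz).differentiableAt.hasFDerivAt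
      have h2 := h1.clm_apply (hasFDerivAt_const v z)
      simpa using h2
    have h1 := fderiv_inner_apply ℝ (hd v).differentiableAt (hd w).differentiableAt u
    have h2 : (fun t => ⟪fderiv ℝ ρ t v, fderiv ℝ ρ t w⟫_ℝ) =ᶠ[𝓝 z]
        fun _ => v.1 * w.1 + v.2 * w.2 := by
      filter_upwards [F.isOpen.mem_nhds hz] with t ht using F.iso t ht v w
    rw [h2.fderiv_eq, (hd v).fderiv, (hd w).fderiv] at h1
    simp only [ContinuousLinearMap.flip_apply] at h1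
    rw [← h1]
    simp
  have T1 := key u v w
  have T2 := key w u v
  have T3 := key v w u
  rw [F.symmS hz w u] at T2
  rw [F.symmS hz v w, F.symmS hz v u] at T3
  rw [real_inner_comm] at T1 T2 T3
  rw [F.symmS hz w v] at T2 T3
  linarith

/-- The Gauss equation. -/
lemma gauss (F : FlatImm Ω ρ) {z : ℝ × ℝ} (hz : z ∈ Ω) (u v t w : ℝ × ℝ) :
    ⟪fderiv ℝ (fderiv ℝ ρ) z u v, fderiv ℝ (fderiv ℝ ρ) z t w⟫_ℝ =
      ⟪fderiv ℝ (fderiv ℝ ρ) z t v, fderiv ℝ (fderiv ℝ ρ) z u w⟫_ℝ := by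
  have key : ∀ u v t w : ℝ × ℝ,
      ⟪fderiv ℝ (fderiv ℝ ρ) z u v, fderiv ℝ (fderiv ℝ ρ) z t w⟫_ℝ +
      ⟪fderiv ℝ (fderiv ℝ (fderiv ℝ ρ)) z t u v, fderiv ℝ ρ z w⟫_ℝ = 0 := by
    intro u v t w
    have hd1 : HasFDerivAt (fun z => fderiv ℝ ρ z w) ((fderiv ℝ (fderiv ℝ ρ) z).flip w) z := by
      have h1 : HasFDerivAt (fderiv ℝ ρ) (fderiv ℝ (fderiv ℝ ρ) z) z :=
        (F.anP z hz).differentiableAt.hasFDerivAt
      have h2 := h1.clm_apply (hasFDerivAt_const w z)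
      simpa using h2
    have hd2 : HasFDerivAt (fun z => fderiv ℝ (fderiv ℝ ρ) z u v)
        (((fderiv ℝ (fderiv ℝ (fderiv ℝ ρ)) z).flip u).flip v) z := by
      have h1 : HasFDerivAt (fderiv ℝ (fderiv ℝ ρ)) (fderiv ℝ (fderiv ℝ (fderiv ℝ ρ)) z) z :=
        (F.anS z hz).differentiableAt.hasFDerivAt
      have h2 := h1.clm_apply (hasFDerivAt_const u z)
      have h3 := h2.clm_apply (hasFDerivAt_const v z)
      simpa using h3
    have h1 := fderiv_inner_apply ℝ hd2.differentiableAt hd1.differentiableAt t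
    have h2 : (fun t => ⟪fderiv ℝ (fderiv ℝ ρ) t u v, fderiv ℝ ρ t w⟫_ℝ) =ᶠ[𝓝 z]
        fun _ => 0 := by
      filter_upwards [F.isOpen.mem_nhds hz] with t ht using F.orth ht u v w
    rw [h2.fderiv_eq, hd2.fderiv, hd1.fderiv] at h1
    simp only [ContinuousLinearMap.flip_apply] at h1
    rw [← h1]
    simp
  have K1 := key u v t w
  have K2 := key t v u w
  rw [F.symmT hz t u] at K1
  linarith

end FlatImm

end Pool.Agent.Lib.MP60a66a
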