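import Pool.Agent.Lib.MP_60a66a_gt.Flat

set_option autoImplicit false
set_option linter.unusedSectionVars false

open Filter Topology Set
open scoped InnerProductSpace

namespace Pool.Agent.Lib.MP60a66a

/-- Uniqueness for the scalar linear equation `φ' = φ k`, two-sided and local. -/
lemma eventually_zero_of_linear {φ k : ℝ → ℝ} {K : ℝ}
    (h0 : φ 0 = 0) (hd : ∀ᶠ s in 𝓝 0, HasDerivAt φ (φ s * k s) s)
    (hk : ∀ᶠ s in 𝓝 0, |k s| ≤ K) : ∀ᶠ s in 𝓝 0, φ s = 0 := by
  obtain ⟨δ, hδ, hball⟩ := Metric.eventually_nhds_iff_ball.1 (hd.and hk)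
  have hmem : ∀ s : ℝ, |s| ≤ δ / 2 → s ∈ Metric.ball (0 : ℝ) δ := by
    intro s hs
    rw [Metric.mem_ball, dist_zero_right, Real.norm_eq_abs]
    linarith
  have right : ∀ s ∈ Icc (0 : ℝ) (δ / 2), φ s = 0 := by
    apply eq_zero_of_abs_deriv_le_mul_abs_self_of_eq_zero_right (f' := fun s => φ s * k s) (K := K)
    · intro s hs
      exact (hball s (hmem s (by rw [abs_of_nonneg hs.1]; exact hs.2))).1.continuousAt.continuousWithinAt
    · intro s hs
      exact (hball s (hmem s (by rw [abs_of_nonneg hs.1]; exact hs.2.le))).1.hasDerivWithinAt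
    · exact h0
    · intro s hs
      have := (hball s (hmem s (by rw [abs_of_nonneg hs.1]; exact hs.2.le))).2
      rw [norm_mul, Real.norm_eq_abs, Real.norm_eq_abs, mul_comm]
      exact mul_le_mul_of_nonneg_right this (abs_nonneg _)
  have left : ∀ s ∈ Icc (0 : ℝ) (δ / 2), φ (-s) = 0 := by
    apply eq_zero_of_abs_deriv_le_mul_abs_self_of_eq_zero_right (f := fun s => φ (-s))
      (f' := fun s => -(φ (-s) * k (-s))) (K := K)
    · intro s hs
      have h1 : HasDerivAt φ (φ (-s) * k (-s)) (-s) :=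
        (hball (-s) (hmem (-s) (by rw [abs_neg, abs_of_nonneg hs.1]; exact hs.2))).1
      have h2 : ContinuousAt (fun s : ℝ => φ (-s)) s :=
        ContinuousAt.comp (g := φ) (f := fun s : ℝ => -s) h1.continuousAt
          continuous_neg.continuousAt
      exact h2.continuousWithinAt
    · intro s hs
      have h1 : HasDerivAt φ (φ (-s) * k (-s)) (-s) :=
        (hball (-s) (hmem (-s) (by rw [abs_neg, abs_of_nonneg hs.1]; exact hs.2.le))).1
      have h2 : HasDerivAt (fun s : ℝ => φ (-s)) (φ (-s) * k (-s) * (-1)) s :=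
        HasDerivAt.comp s h1 (hasDerivAt_neg s)
      rw [mul_neg_one] at h2
      exact h2.hasDerivWithinAt
    · simpa using h0
    · intro s hs
      have := (hball (-s) (hmem (-s) (by rw [abs_neg, abs_of_nonneg hs.1]; exact hs.2.le))).2
      rw [norm_neg, norm_mul, Real.norm_eq_abs, Real.norm_eq_abs, mul_comm]
      exact mul_le_mul_of_nonneg_right this (abs_nonneg _)
  have : ∀ᶠ s : ℝ in 𝓝 0, |s| ≤ δ / 2 := by
    have h1 : Tendsto (fun s : ℝ => |s|) (𝓝 0) (𝓝 0) := by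
      have := (continuous_abs (G := ℝ)).tendsto 0
      simpa using this
    exact (h1.eventually (gt_mem_nhds (show (0:ℝ) < δ / 2 by positivity))).mono
      (fun s hs => le_of_lt hs)
  filter_upwards [this] with s hs
  rcases le_total 0 s with h | h
  · exact right s ⟨h, by rwa [abs_of_nonneg h] at hs⟩
  · have := left (-s) ⟨by linarith, by rwa [abs_of_nonpos h] at hs⟩
    simpa using this

namespace FlatImm

variable {Ω : Set (ℝ × ℝ)} {ρ : ℝ × ℝ → E3}

/-- Existence of the ruling at points where `ρ_yy ≠ 0`. -/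
lemma leafDir_of_yy (F : FlatImm Ω ρ) {z0 : ℝ × ℝ} (hz0 : z0 ∈ Ω)
    (hyy : fderiv ℝ (fderiv ℝ ρ) z0 (0, 1) (0, 1) ≠ 0) :
    ∃ m : ℝ, LeafDir (fderiv ℝ ρ) z0 (1, -m) := by
  set S : ℝ × ℝ → (ℝ × ℝ →L[ℝ] ℝ × ℝ →L[ℝ] E3) := fderiv ℝ (fderiv ℝ ρ) with hS
  set e1 : ℝ × ℝ := (1, 0) with he1
  set e2 : ℝ × ℝ := (0, 1) with he2
  -- the open set where `S e2 e2 ≠ 0`
  have hScont : ContinuousOn (fun z => S z e2 e2) Ω := by
    have h1 : ContinuousOn S Ω := F.anS.continuousOn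
    exact (h1.clm_apply continuousOn_const).clm_apply continuousOn_const
  set U : Set (ℝ × ℝ) := {z | z ∈ Ω ∧ S z e2 e2 ≠ 0} with hU
  have hUo : IsOpen U := by
    have : U = Ω ∩ (fun z => S z e2 e2) ⁻¹' {0}ᶜ := by
      ext z; simp [hU]
    rw [this]
    exact hScont.isOpen_inter_preimage F.isOpen isOpen_compl_singleton
  have hz0U : z0 ∈ U := ⟨hz0, hyy⟩
  set m : ℝ × ℝ → ℝ := fun z => ⟪S z e1 e2, S z e2 e2⟫_ℝ / ⟪S z e2 e2, S z e2 e2⟫_ℝ with hm
  -- parallelism
  have hpar : ∀ z ∈ U, S z e1 e2 = m z • S z e2 e2 ∧ S z e1 e1 = m z • S z e1 e2 := by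
    intro z hz
    obtain ⟨hzΩ, hne⟩ := hz
    have hX : ⟪fderiv ℝ ρ z e1, fderiv ℝ ρ z e1⟫_ℝ = 1 := by
      rw [F.iso z hzΩ]; simp [he1]
    have hY : ⟪fderiv ℝ ρ z e2, fderiv ℝ ρ z e2⟫_ℝ = 1 := by
      rw [F.iso z hzΩ]; simp [he2]
    have hXY : ⟪fderiv ℝ ρ z e1, fderiv ℝ ρ z e2⟫_ℝ = 0 := by
      rw [F.iso z hzΩ]; simp [he1, he2]
    have o := F.orth hzΩ
    have p1 := parallel_of_orthogonal (U := S z e1 e2) (N := S z e2 e2) hX hY hXY (o e2 e2 e1) (o e2 e2 e2)
      (o e1 e2 e1) (o e1 e2 e2) hne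
    have p2 := parallel_of_orthogonal (U := S z e1 e1) (N := S z e2 e2) hX hY hXY (o e2 e2 e1) (o e2 e2 e2)
      (o e1 e1 e1) (o e1 e1 e2) hne
    have hNN : ⟪S z e2 e2, S z e2 e2⟫_ℝ ≠ 0 := inner_self_ne_zero.2 hne
    have g := F.gauss hzΩ e1 e1 e2 e2
    have hsym : S z e2 e1 = S z e1 e2 := F.symmS hzΩ e2 e1
    rw [← hS, hsym] at g
    refine ⟨p1, ?_⟩
    have h2 : ⟪S z e1 e2, S z e1 e2⟫_ℝ = m z * m z * ⟪S z e2 e2, S z e2 e2⟫_ℝ := by
      conv_lhs => rw [p1]
      rw [real_inner_smul_left, real_inner_smul_right]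
      simp only [hm]; ring
    rw [p2, g, h2]
    conv_rhs => rw [p1]
    rw [smul_smul]
    congr 1
    have hmz : ⟪S z e1 e2, S z e2 e2⟫_ℝ = m z * ⟪S z e2 e2, S z e2 e2⟫_ℝ := by
      simp only [hm]; field_simp
    rw [hmz]
    field_simp
  -- `m` is smooth on `U`
  have hman : ∀ z ∈ U, ContDiffAt ℝ 2 m z := by
    intro z hz
    obtain ⟨hzΩ, hne⟩ := hz
    have h1 : ContDiffAt ℝ 2 S z := (F.anS z hzΩ).contDiffAt
    have h12 : ContDiffAt ℝ 2 (fun z => S z e1 e2) z :=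
      (h1.clm_apply contDiffAt_const).clm_apply contDiffAt_const
    have h22 : ContDiffAt ℝ 2 (fun z => S z e2 e2) z :=
      (h1.clm_apply contDiffAt_const).clm_apply contDiffAt_const
    exact (h12.inner ℝ h22).div (h22.inner ℝ h22) (inner_self_ne_zero.2 hne)
  -- derivative of `z ↦ S z u v`
  have hSd : ∀ z ∈ Ω, ∀ u v : ℝ × ℝ, HasFDerivAt (fun z => S z u v)
      (((fderiv ℝ S z).flip u).flip v) z := by
    intro z hz u v
    have h1 : HasFDerivAt S (fderiv ℝ S z) z := (F.anS z hz).differentiableAt.hasFDerivAt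
    have h2 := h1.clm_apply (hasFDerivAt_const u z)
    have h3 := h2.clm_apply (hasFDerivAt_const v z)
    simpa using h3
  -- the Burgers type equation
  have hpde : ∀ z ∈ U, fderiv ℝ m z e1 = m z * fderiv ℝ m z e2 := by
    intro z hz
    obtain ⟨hzΩ, hne⟩ := hz
    have hzU : z ∈ U := ⟨hzΩ, hne⟩
    have hmd : HasFDerivAt m (fderiv ℝ m z) z :=
      ((hman z hzU).differentiableAt (by norm_num)).hasFDerivAt
    have e12 : (fun z => S z e1 e2) =ᶠ[𝓝 z] fun z => m z • S z e2 e2 := by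
      filter_upwards [hUo.mem_nhds hzU] with t ht using (hpar t ht).1
    have e11 : (fun z => S z e1 e1) =ᶠ[𝓝 z] fun z => m z • S z e1 e2 := by
      filter_upwards [hUo.mem_nhds hzU] with t ht using (hpar t ht).2
    have d12 := (hmd.smul (hSd z hzΩ e2 e2))
    have d11 := (hmd.smul (hSd z hzΩ e1 e2))
    have f12 := (hSd z hzΩ e1 e2).unique (d12.congr_of_eventuallyEq e12)
    have f11 := (hSd z hzΩ e1 e1).unique (d11.congr_of_eventuallyEq e11)
    have g12 := congrArg (fun L => L e1) f12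
    have g11 := congrArg (fun L => L e2) f11
    simp only [ContinuousLinearMap.flip_apply, add_apply,
      smul_apply, ContinuousLinearMap.smulRight_apply] at g12 g11
    -- symmetries of the third derivative
    have s1 : fderiv ℝ S z e2 e1 e1 = fderiv ℝ S z e1 e2 e1 := by
      rw [hS, F.symmT hzΩ e2 e1]
    have s2 : fderiv ℝ S z e1 e2 e1 = fderiv ℝ S z e1 e1 e2 := by
      have hsym : (fun z => S z e2 e1) =ᶠ[𝓝 z] fun z => S z e1 e2 := by
        filter_upwards [F.isOpen.mem_nhds hzΩ] with t ht using F.symmS ht e2 e1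
      have := (hSd z hzΩ e2 e1).unique ((hSd z hzΩ e1 e2).congr_of_eventuallyEq hsym)
      have := congrArg (fun L => L e1) this
      simpa using this
    have s3 : fderiv ℝ S z e2 e1 e2 = fderiv ℝ S z e1 e2 e2 := by
      rw [hS, F.symmT hzΩ e2 e1]
    rw [s1, s2, g12, s3] at g11
    -- g11 : m • T + (∂x m) • Yy = m • T + (∂y m) • Xy
    have h1 : (fderiv ℝ m z e1) • S z e2 e2 = (fderiv ℝ m z e2) • S z e1 e2 := by
      simpa using g11
    rw [(hpar z hzU).1, smul_smul] at h1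
    have h2 : (fderiv ℝ m z e1 - fderiv ℝ m z e2 * m z) • S z e2 e2 = 0 := by
      rw [sub_smul, h1, sub_self]
    rcases smul_eq_zero.1 h2 with h3 | h3
    · linarith
    · exact absurd h3 hne
  -- the line
  set m0 : ℝ := m z0 with hm0
  refine ⟨m0, ?_⟩
  set w : ℝ × ℝ := (1, -m0) with hw
  have hwdec : w = e1 + (-m0) • e2 := by
    ext <;> simp [hw, he1, he2]
  set γ : ℝ → ℝ × ℝ := fun s => z0 + s • w with hγ
  have hγd : ∀ s, HasDerivAt γ w s := by
    intro s
    have := ((hasDerivAt_id s).smul_const w).const_add z0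
    simpa [hγ] using this
  have hγ0 : γ 0 = z0 := by simp [hγ]
  have hγcont : Continuous γ := by simp only [hγ]; fun_prop
  have hγU : ∀ᶠ s in 𝓝 (0 : ℝ), γ s ∈ U := by
    have := hγcont.tendsto 0
    rw [hγ0] at this
    exact this.eventually (hUo.mem_nhds hz0U)
  have hmγ : ∀ᶠ s in 𝓝 (0 : ℝ), m (γ s) - m0 = 0 := by
    apply eventually_zero_of_linear (k := fun s => fderiv ℝ m (γ s) e2)
      (K := |fderiv ℝ m z0 e2| + 1)
    · rw [hγ0]; simp [hm0]
    · filter_upwards [hγU] with s hs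
      have h1 : HasFDerivAt m (fderiv ℝ m (γ s)) (γ s) :=
        ((hman _ hs).differentiableAt (by norm_num)).hasFDerivAt
      have h2 := (h1.comp_hasDerivAt s (hγd s)).sub_const m0
      have h3 : fderiv ℝ m (γ s) w = (m (γ s) - m0) * fderiv ℝ m (γ s) e2 := by
        rw [hwdec, map_add, map_smul, hpde _ hs, smul_eq_mul]; ring
      rw [h3] at h2
      exact h2
    · have h1 : ContinuousAt (fderiv ℝ m) z0 :=
        ((hman z0 hz0U).fderiv_right (m := 1) (by norm_num)).continuousAt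
      have h2 : ContinuousAt (fun s => |fderiv ℝ m (γ s) e2|) 0 := by
        have h3 : ContinuousAt (fun s => fderiv ℝ m (γ s)) 0 := by
          apply ContinuousAt.comp (g := fderiv ℝ m) (f := γ)
          · rw [hγ0]; exact h1
          · exact hγcont.continuousAt
        exact (h3.clm_apply continuousAt_const).abs
      have h4 : Tendsto (fun s => |fderiv ℝ m (γ s) e2|) (𝓝 0) (𝓝 (|fderiv ℝ m z0 e2|)) := by
        have := h2.tendsto
        rwa [hγ0] at this
      exact (h4.eventually (gt_mem_nhds (lt_add_one _))).mono (fun s hs => le_of_lt hs)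
  -- the derivative of `P ∘ γ` vanishes
  have hder : ∀ᶠ s in 𝓝 (0 : ℝ), HasDerivAt (fun s => fderiv ℝ ρ (γ s)) 0 s := by
    filter_upwards [hγU, hmγ] with s hs hms
    have hms' : m (γ s) = m0 := by linarith
    have h1 : HasFDerivAt (fderiv ℝ ρ) (S (γ s)) (γ s) :=
      (F.anP _ hs.1).differentiableAt.hasFDerivAt
    have h2 := h1.comp_hasDerivAt s (hγd s)
    have h3 : S (γ s) w = 0 := by
      have a1 : S (γ s) w e1 = 0 := by
        rw [hwdec, map_add, map_smul]
        simp only [add_apply, smul_apply]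
        rw [(hpar _ hs).2, hms']
        have : S (γ s) e2 e1 = S (γ s) e1 e2 := F.symmS hs.1 e2 e1
        rw [this]
        simp
      have a2 : S (γ s) w e2 = 0 := by
        rw [hwdec, map_add, map_smul]
        simp only [add_apply, smul_apply]
        rw [(hpar _ hs).1, hms']
        simp
      refine ContinuousLinearMap.ext fun v => ?_
      have hv : v = v.1 • e1 + v.2 • e2 := by ext <;> simp [he1, he2]
      rw [hv, map_add, map_smul, map_smul, a1, a2]
      simp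
    rw [h3] at h2
    exact h2
  obtain ⟨δ, hδ, hball⟩ := Metric.eventually_nhds_iff_ball.1 hder
  have hconst : ∀ s ∈ Metric.ball (0 : ℝ) δ, fderiv ℝ ρ (γ s) = fderiv ℝ ρ (γ 0) := by
    intro s hs
    exact IsOpen.is_const_of_deriv_eq_zero (𝕜 := ℝ) (f := fun s : ℝ => fderiv ℝ ρ (γ s))
      Metric.isOpen_ball (convex_ball (0:ℝ) δ).isPreconnected
      (fun x hx => (hball x hx).differentiableAt.differentiableWithinAt)
      (fun x hx => (hball x hx).deriv) hs (Metric.mem_ball_self hδ)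
  filter_upwards [Metric.ball_mem_nhds (0:ℝ) hδ] with s hs
  have := hconst s hs
  rw [hγ0] at this
  exact this

/-- Swapping the coordinates. -/
lemma swap (F : FlatImm Ω ρ) : FlatImm (Prod.swap ⁻¹' Ω) (fun z => ρ z.swap) := by
  have hsw : ∀ z : ℝ × ℝ, z.swap ∈ Ω → HasFDerivAt (fun z : ℝ × ℝ => ρ z.swap)
      ((fderiv ℝ ρ z.swap).comp
        ((ContinuousLinearMap.snd ℝ ℝ ℝ).prod (ContinuousLinearMap.fst ℝ ℝ ℝ))) z := by
    intro z hz
    have h1 : HasFDerivAt (fun z : ℝ × ℝ => z.swap)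
        ((ContinuousLinearMap.snd ℝ ℝ ℝ).prod (ContinuousLinearMap.fst ℝ ℝ ℝ)) z :=
      ((ContinuousLinearMap.snd ℝ ℝ ℝ).prod (ContinuousLinearMap.fst ℝ ℝ ℝ)).hasFDerivAt
    exact (F.analytic _ hz).differentiableAt.hasFDerivAt.comp z h1
  refine ⟨F.isOpen.preimage continuous_swap, ?_, ?_, ?_⟩
  · have : Prod.swap ⁻¹' Ω = Prod.swap '' Ω := by
      rw [Set.image_swap_eq_preimage_swap]
    rw [this]
    exact F.conn.image _ continuous_swap.continuousOn
  · intro z hz
    have h1 : AnalyticAt ℝ (fun z : ℝ × ℝ => z.swap) z :=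
      ((ContinuousLinearMap.snd ℝ ℝ ℝ).prod (ContinuousLinearMap.fst ℝ ℝ ℝ)).analyticAt z
    exact AnalyticAt.comp (g := ρ) (f := fun z : ℝ × ℝ => z.swap) (F.analytic _ hz) h1
  · intro z hz v w
    rw [(hsw z hz).fderiv]
    simp only [ContinuousLinearMap.comp_apply, ContinuousLinearMap.prod_apply,
      ContinuousLinearMap.coe_fst', ContinuousLinearMap.coe_snd']
    rw [F.iso _ hz]
    simp only; ring

lemma fderiv_swap (F : FlatImm Ω ρ) {z : ℝ × ℝ} (hz : z.swap ∈ Ω) (v : ℝ × ℝ) :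
    fderiv ℝ (fun z : ℝ × ℝ => ρ z.swap) z v = fderiv ℝ ρ z.swap v.swap := by
  have h1 : HasFDerivAt (fun z : ℝ × ℝ => z.swap)
      ((ContinuousLinearMap.snd ℝ ℝ ℝ).prod (ContinuousLinearMap.fst ℝ ℝ ℝ)) z :=
    ((ContinuousLinearMap.snd ℝ ℝ ℝ).prod (ContinuousLinearMap.fst ℝ ℝ ℝ)).hasFDerivAt
  have h2 := (F.analytic _ hz).differentiableAt.hasFDerivAt.comp z h1
  have h3 : fderiv ℝ (fun z : ℝ × ℝ => ρ z.swap) z = _ := h2.fderiv
  rw [h3]
  rfl

/-- Existence of the ruling at points where the second derivative does not vanish. -/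
lemma leafDir_of_ne (F : FlatImm Ω ρ) {z0 : ℝ × ℝ} (hz0 : z0 ∈ Ω)
    (hne : fderiv ℝ (fderiv ℝ ρ) z0 ≠ 0) : ∃ v, v ≠ 0 ∧ LeafDir (fderiv ℝ ρ) z0 v := by
  by_cases hyy : fderiv ℝ (fderiv ℝ ρ) z0 (0, 1) (0, 1) = 0
  · -- then ρ_xy = 0 and ρ_xx ≠ 0
    have g := F.gauss hz0 (1, 0) (1, 0) (0, 1) (0, 1)
    have hsym := F.symmS hz0 (0, 1) (1, 0)
    rw [hyy, inner_zero_right, hsym] at g
    have hxy : fderiv ℝ (fderiv ℝ ρ) z0 (1, 0) (0, 1) = 0 := inner_self_eq_zero.1 g.symm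
    have hxx : fderiv ℝ (fderiv ℝ ρ) z0 (1, 0) (1, 0) ≠ 0 := by
      intro hxx
      apply hne
      refine ContinuousLinearMap.ext fun u => ContinuousLinearMap.ext fun v => ?_
      have hu : u = u.1 • ((1, 0) : ℝ × ℝ) + u.2 • ((0, 1) : ℝ × ℝ) := by ext <;> simp
      have hv : v = v.1 • ((1, 0) : ℝ × ℝ) + v.2 • ((0, 1) : ℝ × ℝ) := by ext <;> simp
      rw [hu, hv]
      simp only [map_add, map_smul, add_apply, smul_apply,
        hxx, hxy, hyy, hsym, smul_zero, add_zero, zero_apply]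
    have F' := F.swap
    have hz0' : z0.swap ∈ Prod.swap ⁻¹' Ω := by simpa using hz0
    -- second derivative of the swapped map
    have h2 : fderiv ℝ (fderiv ℝ (fun z : ℝ × ℝ => ρ z.swap)) z0.swap (0, 1) (0, 1) ≠ 0 := by
      have e1 : (fun z => fderiv ℝ (fun z : ℝ × ℝ => ρ z.swap) z (0, 1)) =ᶠ[𝓝 z0.swap]
          fun z => fderiv ℝ ρ z.swap (1, 0) := by
        filter_upwards [F'.isOpen.mem_nhds hz0'] with t ht
        rw [F.fderiv_swap ht]; rfl
      have d1 : HasFDerivAt (fun z => fderiv ℝ (fun z : ℝ × ℝ => ρ z.swap) z (0, 1))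
          ((fderiv ℝ (fderiv ℝ (fun z : ℝ × ℝ => ρ z.swap)) z0.swap).flip (0, 1)) z0.swap := by
        have h1 := (F'.anP _ hz0').differentiableAt.hasFDerivAt
        have h2 := h1.clm_apply (hasFDerivAt_const ((0, 1) : ℝ × ℝ) z0.swap)
        simpa using h2
      have d2 : HasFDerivAt (fun z : ℝ × ℝ => fderiv ℝ ρ z.swap (1, 0))
          (((fderiv ℝ (fderiv ℝ ρ) z0).flip (1, 0)).comp
            ((ContinuousLinearMap.snd ℝ ℝ ℝ).prod (ContinuousLinearMap.fst ℝ ℝ ℝ))) z0.swap := by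
        have h1 : HasFDerivAt (fun z => fderiv ℝ ρ z (1, 0))
            ((fderiv ℝ (fderiv ℝ ρ) z0).flip (1, 0)) z0.swap.swap := by
          have h1 : HasFDerivAt (fderiv ℝ ρ) (fderiv ℝ (fderiv ℝ ρ) z0) z0.swap.swap := by
            rw [Prod.swap_swap]
            exact (F.anP z0 hz0).differentiableAt.hasFDerivAt
          have h2 := h1.clm_apply (hasFDerivAt_const ((1, 0) : ℝ × ℝ) z0.swap.swap)
          simpa using h2
        have h3 : HasFDerivAt (fun z : ℝ × ℝ => z.swap)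
            ((ContinuousLinearMap.snd ℝ ℝ ℝ).prod (ContinuousLinearMap.fst ℝ ℝ ℝ)) z0.swap :=
          ((ContinuousLinearMap.snd ℝ ℝ ℝ).prod (ContinuousLinearMap.fst ℝ ℝ ℝ)).hasFDerivAt
        exact h1.comp z0.swap h3
      have := d1.unique (d2.congr_of_eventuallyEq e1)
      have := congrArg (fun L => L (0, 1)) this
      simp only [ContinuousLinearMap.flip_apply, ContinuousLinearMap.comp_apply,
        ContinuousLinearMap.prod_apply, ContinuousLinearMap.coe_fst',
        ContinuousLinearMap.coe_snd'] at this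
      rw [this]
      exact hxx
    obtain ⟨m, hm⟩ := F'.leafDir_of_yy hz0' h2
    refine ⟨(-m, 1), by simp, ?_⟩
    have hΩ' : ∀ᶠ s : ℝ in 𝓝 0, z0.swap + s • ((1, -m) : ℝ × ℝ) ∈ Prod.swap ⁻¹' Ω := by
      have hc : Continuous (fun s : ℝ => z0.swap + s • ((1, -m) : ℝ × ℝ)) := by fun_prop
      have := hc.tendsto 0
      simp only [zero_smul, add_zero] at this
      exact this.eventually (F'.isOpen.mem_nhds hz0')
    filter_upwards [hm, hΩ'] with s hs hs2
    refine ContinuousLinearMap.ext fun v => ?_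
    have h3 := congrArg (fun L => L v.swap) hs
    rw [F.fderiv_swap hs2, F.fderiv_swap hz0'] at h3
    have h4 : (z0.swap + s • ((1, -m) : ℝ × ℝ)).swap = z0 + s • ((-m, 1) : ℝ × ℝ) := by
      ext <;> simp
    rw [h4, Prod.swap_swap, Prod.swap_swap] at h3
    exact h3
  · obtain ⟨m, hm⟩ := F.leafDir_of_yy hz0 hyy
    exact ⟨(1, -m), by simp, hm⟩

/-- A nonplanar flat analytic immersion is foliated by rulings. -/
theorem foliated (F : FlatImm Ω ρ) (hnc : ¬ ∃ c, ∀ z ∈ Ω, fderiv ℝ ρ z = c) :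
    Foliated Ω (fderiv ℝ ρ) := by
  have hnotconst : ∀ z ∈ Ω, ¬ ∀ᶠ z' in 𝓝 z, fderiv ℝ ρ z' = fderiv ℝ ρ z := by
    intro z hz hev
    apply hnc
    refine ⟨fderiv ℝ ρ z, ?_⟩
    exact F.anP.eqOn_of_preconnected_of_eventuallyEq
      (fun _ _ => analyticAt_const) F.conn hz hev
  refine ⟨F.isOpen, F.anP, ?_, hnotconst⟩
  set D : Set (ℝ × ℝ) := {z | z ∈ Ω ∧ fderiv ℝ (fderiv ℝ ρ) z ≠ 0} with hD
  apply exists_leafDir_of_dense (D := D) F.isOpen F.anP
  · intro z hz
    by_contra hcl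
    apply hnotconst z hz
    have h1 : ∀ᶠ z' in 𝓝 z, z' ∉ D := by
      have : (closure D)ᶜ ∈ 𝓝 z := isClosed_closure.isOpen_compl.mem_nhds hcl
      filter_upwards [this] with z' hz' h
      exact hz' (subset_closure h)
    obtain ⟨δ, hδ, hball⟩ := Metric.eventually_nhds_iff_ball.1 (h1.and (F.isOpen.mem_nhds hz))
    have hS0 : ∀ z' ∈ Metric.ball z δ, fderiv ℝ (fderiv ℝ ρ) z' = 0 := by
      intro z' hz'
      obtain ⟨h2, h3⟩ := hball z' hz'
      by_contra h4
      exact h2 ⟨h3, h4⟩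
    have hconst : ∀ z' ∈ Metric.ball z δ, fderiv ℝ ρ z' = fderiv ℝ ρ z := by
      intro z' hz'
      apply (convex_ball z δ).is_const_of_fderivWithin_eq_zero (𝕜 := ℝ) (f := fderiv ℝ ρ)
      · intro x hx
        exact (F.anP x (hball x hx).2).differentiableAt.differentiableWithinAt
      · intro x hx
        rw [fderivWithin_of_isOpen Metric.isOpen_ball hx]
        exact hS0 x hx
      · exact hz'
      · exact Metric.mem_ball_self hδ
    filter_upwards [Metric.ball_mem_nhds z hδ] with z' hz' using hconst z' hz'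
  · rintro z ⟨hz1, hz2⟩
    exact F.leafDir_of_ne hz1 hz2

end FlatImm

end Pool.Agent.Lib.MP60a66a
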