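import Pool.Agent.Lib.MP_60a66a_gt.CaseS
import Pool.Agent.Lib.MP_60a66a_gt.CaseT
import Pool.Agent.Lib.MP_60a66a_gt.Ruling

set_option autoImplicit false
set_option linter.unusedSectionVars false

open Filter Topology Set
open scoped InnerProductSpace

namespace Pool.Agent.Lib.MP60a66a

variable {G : Type*} [NormedAddCommGroup G] [NormedSpace ℝ G]

/-- Reflection in the vertical axis. -/
lemma Foliated.refl {Ω : Set (ℝ × ℝ)} {P : ℝ × ℝ → G} (F : Foliated Ω P) {Ω' : Set (ℝ × ℝ)}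
    (hΩ' : ∀ z : ℝ × ℝ, z ∈ Ω' ↔ (-z.1, z.2) ∈ Ω) :
    Foliated Ω' (fun z => P (-z.1, z.2)) := by
  have hc : Continuous (fun z : ℝ × ℝ => ((-z.1, z.2) : ℝ × ℝ)) := by fun_prop
  have hinv : ∀ z : ℝ × ℝ, ((- -z.1, z.2) : ℝ × ℝ) = z := fun z => by simp
  refine ⟨?_, ?_, ?_, ?_⟩
  · have : Ω' = (fun z : ℝ × ℝ => ((-z.1, z.2) : ℝ × ℝ)) ⁻¹' Ω := by
      ext z; exact hΩ' z
    rw [this]
    exact F.isOpen.preimage hc
  · intro z hz
    have h1 : AnalyticAt ℝ (fun z : ℝ × ℝ => ((-z.1, z.2) : ℝ × ℝ)) z :=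
      (analyticAt_fst.neg).prod analyticAt_snd
    exact AnalyticAt.comp (g := P) (f := fun z : ℝ × ℝ => ((-z.1, z.2) : ℝ × ℝ))
      (F.analytic _ ((hΩ' z).1 hz)) h1
  · intro z hz
    obtain ⟨v, hv, hl⟩ := F.exists_dir _ ((hΩ' z).1 hz)
    refine ⟨(-v.1, v.2), ?_, ?_⟩
    · intro h
      apply hv
      have h1 : -v.1 = 0 := congrArg Prod.fst h
      have h2 : v.2 = 0 := congrArg Prod.snd h
      ext
      · simpa using h1
      · simpa using h2
    · filter_upwards [hl] with s hs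
      have e : ((-(z + s • ((-v.1, v.2) : ℝ × ℝ)).1, (z + s • ((-v.1, v.2) : ℝ × ℝ)).2) : ℝ × ℝ) =
          (-z.1, z.2) + s • v := by
        ext <;> simp; ring
      simp only [e]
      exact hs
  · intro z hz h
    apply F.not_const _ ((hΩ' z).1 hz)
    have h1 : Tendsto (fun z : ℝ × ℝ => ((-z.1, z.2) : ℝ × ℝ)) (𝓝 (-z.1, z.2)) (𝓝 z) := by
      have := hc.tendsto (-z.1, z.2)
      simpa using this
    filter_upwards [h1.eventually h] with w hw
    simpa using hw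

lemma refl_Om2 (z : ℝ × ℝ) : z ∈ Om2 ↔ (-z.1, z.2) ∈ Om2 := by
  simp only [Om2, MM, CC, RR, mem_union, mem_ofPred_eq]
  constructor
  · rintro ((h | h) | h)
    · exact Or.inl (Or.inl ⟨⟨by linarith [h.1.2], by linarith [h.1.1]⟩, h.2⟩)
    · exact Or.inl (Or.inr ⟨⟨by linarith [h.1.2], by linarith [h.1.1]⟩, h.2⟩)
    · exact Or.inr ⟨⟨by linarith [h.1.2], by linarith [h.1.1]⟩, h.2⟩
  · rintro ((h | h) | h)
    · exact Or.inl (Or.inl ⟨⟨by linarith [h.1.2], by linarith [h.1.1]⟩, h.2⟩)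
    · exact Or.inl (Or.inr ⟨⟨by linarith [h.1.2], by linarith [h.1.1]⟩, h.2⟩)
    · exact Or.inr ⟨⟨by linarith [h.1.2], by linarith [h.1.1]⟩, h.2⟩

lemma refl_OmN (z : ℝ × ℝ) : z ∈ OmN ↔ (-z.1, z.2) ∈ OmP := by
  simp only [OmN, OmP, MM, PP, PN, mem_union, mem_ofPred_eq]
  constructor
  · rintro (h | h)
    · exact Or.inl ⟨⟨by linarith [h.1.2], by linarith [h.1.1]⟩, h.2⟩
    · exact Or.inr ⟨⟨by linarith [h.1.2], by linarith [h.1.1]⟩, h.2⟩
  · rintro (h | h)
    · exact Or.inl ⟨⟨by linarith [h.1.2], by linarith [h.1.1]⟩, h.2⟩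
    · exact Or.inr ⟨⟨by linarith [h.1.2], by linarith [h.1.1]⟩, h.2⟩

/-- The leaf through the origin forces a coincidence. -/
theorem global_foliated [CompleteSpace G] {Q2 QP QN : ℝ × ℝ → G} (F2 : Foliated Om2 Q2)
    (FP : Foliated OmP QP) (FN : Foliated OmN QN) (hP : EqOn Q2 QP MM) (hN : EqOn Q2 QN MM) :
    (∃ z ∈ RR ∩ PP, Q2 z = QP z) ∨ (∃ z ∈ RR ∩ PN, Q2 z = QN z) := by
  have hO : ((0, 0) : ℝ × ℝ) ∈ Om2 := CC_sub_Om2 ⟨by norm_num, by norm_num⟩
  obtain ⟨v, hv, hl⟩ := F2.exists_dir _ hO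
  rcases le_or_gt (|v.1| / 2) (|v.2|) with h | h
  · left
    have hv2 : v.2 ≠ 0 := by
      intro h0
      rw [h0, abs_zero] at h
      have h1 : |v.1| = 0 := le_antisymm (by linarith) (abs_nonneg _)
      apply hv
      ext
      · exact abs_eq_zero.1 h1
      · exact h0
    have hv2p : 0 < |v.2| := abs_pos.2 hv2
    refine caseT F2 FP hP (κ0 := v.1 / v.2) ?_ ?_
    · rw [abs_div, div_le_iff₀ hv2p]; linarith
    · have := hl.smul (1 / v.2)
      have e : (1 / v.2) • v = (v.1 / v.2, 1) := by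
        ext
        · simp; ring
        · simp [hv2]
      rwa [e] at this
  · have hv1 : v.1 ≠ 0 := by
      intro h0
      rw [h0, abs_zero] at h
      linarith [abs_nonneg v.2]
    have hv1p : 0 < |v.1| := abs_pos.2 hv1
    have hl' : LeafDir Q2 (0, 0) (1, v.2 / v.1) := by
      have := hl.smul (1 / v.1)
      have e : (1 / v.1) • v = (1, v.2 / v.1) := by
        ext
        · simp [hv1]
        · simp; ring
      rwa [e] at this
    obtain ⟨μ, hμan, hμleaf, hμ0⟩ := F2.slopeV (x0 := 0) (c := -1) (d := 1) (ys := 0)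
      (ms := v.2 / v.1) (fun y hy => CC_sub_Om2 ⟨by norm_num, hy⟩) ⟨by norm_num, by norm_num⟩ hl'
    have h0I : (0 : ℝ) ∈ Ioo (-1 : ℝ) 1 := ⟨by norm_num, by norm_num⟩
    have hμc : ContinuousAt μ 0 := (hμan 0 h0I).continuousAt
    have habs : |μ 0| < 1 / 2 := by
      rw [hμ0, abs_div, div_lt_iff₀ hv1p]; linarith
    have hev : ∀ᶠ y in 𝓝 (0 : ℝ), |μ y| < 1 / 2 := by
      have h2 : ContinuousAt (fun y => |μ y|) 0 := hμc.abs
      exact h2.eventually (isOpen_Iio.mem_nhds habs)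
    have hev' : ∀ᶠ y in 𝓝[<] (0 : ℝ), |μ y| < 1 / 2 := hev.filter_mono nhdsWithin_le_nhds
    have hev2 : ∀ᶠ y in 𝓝[<] (0 : ℝ), y ∈ Ioo (-(1 / 1000) : ℝ) 0 := Ioo_mem_nhdsLT (by norm_num)
    obtain ⟨y0, hy0, hy0I⟩ := (hev'.and hev2).exists
    obtain ⟨ha, hb⟩ := abs_lt.1 hy0
    have hleaf := hμleaf y0 ⟨by linarith [hy0I.1], by linarith [hy0I.2]⟩
    rcases le_or_gt 0 (μ y0) with hs | hs
    · right
      exact caseS F2 FN hN hy0I.1 hy0I.2 hs hb hleaf
    · left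
      have F2' := F2.refl refl_Om2
      have FP' := FP.refl refl_OmN
      have hM' : EqOn (fun z : ℝ × ℝ => Q2 (-z.1, z.2)) (fun z : ℝ × ℝ => QP (-z.1, z.2)) MM := by
        intro z hz
        exact hP ⟨⟨by simp only; linarith [hz.1.2], by simp only; linarith [hz.1.1]⟩, hz.2⟩
      have hleaf' : LeafDir (fun z : ℝ × ℝ => Q2 (-z.1, z.2)) (0, y0) (1, -μ y0) := by
        have h1 := hleaf.smul (-1)
        filter_upwards [h1] with s hs'
        have e : ((-(((0, y0) : ℝ × ℝ) + s • ((1, -μ y0) : ℝ × ℝ)).1,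
            (((0, y0) : ℝ × ℝ) + s • ((1, -μ y0) : ℝ × ℝ)).2) : ℝ × ℝ) =
            (0, y0) + s • (-1 : ℝ) • ((1, μ y0) : ℝ × ℝ) := by
          ext <;> simp
        simp only [e, neg_zero]
        exact hs'
      obtain ⟨z, ⟨hzR, hzN⟩, hz⟩ := caseS F2' FP' hM' hy0I.1 hy0I.2 (m := -μ y0) (by linarith)
        (by linarith) hleaf'
      refine ⟨(-z.1, z.2), ⟨?_, ?_⟩, hz⟩
      · exact ⟨⟨by simp only; linarith [hzR.1.2], by simp only; linarith [hzR.1.1]⟩, hzR.2⟩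
      · exact ⟨⟨by simp only; linarith [hzN.1.2], by simp only; linarith [hzN.1.1]⟩, hzN.2⟩

/-- The tangent plane (with parametrisation) of a flat immersion. -/
noncomputable def tq (ρ : ℝ × ℝ → E3) (z : ℝ × ℝ) : (ℝ × ℝ →L[ℝ] E3) × E3 :=
  (fderiv ℝ ρ z, ρ z - fderiv ℝ ρ z z)

lemma eq_of_tq {ρ ρ' : ℝ × ℝ → E3} {z : ℝ × ℝ} (h : tq ρ z = tq ρ' z) : ρ z = ρ' z := by
  have h1 : fderiv ℝ ρ z = fderiv ℝ ρ' z := congrArg Prod.fst h
  have h2 : ρ z - fderiv ℝ ρ z z = ρ' z - fderiv ℝ ρ' z z := congrArg Prod.snd h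
  rw [h1] at h2
  exact sub_left_inj.1 h2

lemma FlatImm.foliated_tq {Ω : Set (ℝ × ℝ)} {ρ : ℝ × ℝ → E3} (F : FlatImm Ω ρ)
    (hnc : ¬ ∃ c, ∀ z ∈ Ω, fderiv ℝ ρ z = c) : Foliated Ω (tq ρ) := by
  have F1 := F.foliated hnc
  refine ⟨F1.isOpen, ?_, ?_, ?_⟩
  · intro z hz
    have h1 : AnalyticAt ℝ (fderiv ℝ ρ) z := F1.analytic z hz
    have h2 : AnalyticAt ℝ (fun z => fderiv ℝ ρ z z) z := by
      have h3 := (ContinuousLinearMap.id ℝ ((ℝ × ℝ) →L[ℝ] E3)).analyticAt_bilinear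
        (fderiv ℝ ρ z, z)
      exact AnalyticAt.comp (g := fun x : ((ℝ × ℝ) →L[ℝ] E3) × (ℝ × ℝ) =>
        ContinuousLinearMap.id ℝ ((ℝ × ℝ) →L[ℝ] E3) x.1 x.2) (f := fun z => (fderiv ℝ ρ z, z))
        h3 (h1.prod analyticAt_id)
    exact h1.prod ((F.analytic z hz).sub h2)
  · intro z hz
    obtain ⟨v, hv, hl⟩ := F1.exists_dir z hz
    refine ⟨v, hv, ?_⟩
    -- ρ is affine along the leaf
    have hc : Continuous (fun s : ℝ => z + s • v) := by fun_prop
    have hΩ : ∀ᶠ s : ℝ in 𝓝 0, z + s • v ∈ Ω := by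
      have := hc.tendsto 0
      simp only [zero_smul, add_zero] at this
      exact this.eventually (F.isOpen.mem_nhds hz)
    obtain ⟨δ, hδ, hball⟩ := Metric.eventually_nhds_iff_ball.1 (hl.and hΩ)
    have haff : ∀ s ∈ Metric.ball (0 : ℝ) δ, ρ (z + s • v) = ρ z + s • fderiv ℝ ρ z v := by
      intro s hs
      have hder : ∀ t ∈ Metric.ball (0 : ℝ) δ,
          HasDerivAt (fun t : ℝ => ρ (z + t • v) - t • fderiv ℝ ρ z v) 0 t := by
        intro t ht
        obtain ⟨h1, h2⟩ := hball t ht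
        have h3 : HasFDerivAt ρ (fderiv ℝ ρ (z + t • v)) (z + t • v) :=
          (F.analytic _ h2).differentiableAt.hasFDerivAt
        have h4 : HasDerivAt (fun t : ℝ => z + t • v) v t := by
          simpa using ((hasDerivAt_id t).smul_const v).const_add z
        have h5 : HasDerivAt (fun t : ℝ => ρ (z + t • v)) (fderiv ℝ ρ (z + t • v) v) t :=
          h3.comp_hasDerivAt t h4
        have h6 : HasDerivAt (fun t : ℝ => t • fderiv ℝ ρ z v) (fderiv ℝ ρ z v) t := by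
          simpa using (hasDerivAt_id t).smul_const (fderiv ℝ ρ z v)
        have h7 := h5.sub h6
        rw [h1, sub_self] at h7
        exact h7
      have hconst := (convex_ball (0 : ℝ) δ).is_const_of_fderivWithin_eq_zero (𝕜 := ℝ)
        (f := fun t : ℝ => ρ (z + t • v) - t • fderiv ℝ ρ z v)
        (fun t ht => (hder t ht).differentiableAt.differentiableWithinAt) (fun t ht => by
          rw [fderivWithin_of_isOpen Metric.isOpen_ball ht]
          have := (hder t ht).hasFDerivAt.fderiv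
          rw [this]
          ext
          simp) hs (Metric.mem_ball_self hδ)
      simp only [zero_smul, add_zero, sub_zero] at hconst
      rw [← hconst]; abel
    filter_upwards [Metric.ball_mem_nhds (0 : ℝ) hδ] with s hs
    have h1 := (hball s hs).1
    have h2 := haff s hs
    simp only [tq]
    rw [h1, h2, map_add, map_smul]
    congr 1
    abel
  · intro z hz h
    apply F1.not_const z hz
    filter_upwards [h] with z' hz'
    exact congrArg Prod.fst hz'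

lemma Om2_preconnected : IsPreconnected Om2 := by
  have h1 : IsPreconnected (MM ∪ CC) :=
    IsPreconnected.union ((0, -(1 / 2)) : ℝ × ℝ) ⟨by norm_num, by norm_num⟩
      ⟨by norm_num, by norm_num⟩ MM_convex.isPreconnected CC_convex.isPreconnected
  exact IsPreconnected.union ((0, 1 / 2) : ℝ × ℝ) (Or.inr ⟨by norm_num, by norm_num⟩)
      ⟨by norm_num, by norm_num⟩ h1 RR_convex.isPreconnected

lemma OmP_preconnected : IsPreconnected OmP :=
  IsPreconnected.union ((1 / 2, -(1 / 2)) : ℝ × ℝ) ⟨by norm_num, by norm_num⟩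
      ⟨by norm_num, by norm_num⟩ MM_convex.isPreconnected PP_convex.isPreconnected

lemma OmN_preconnected : IsPreconnected OmN :=
  IsPreconnected.union ((-(1 / 2), -(1 / 2)) : ℝ × ℝ) ⟨by norm_num, by norm_num⟩
      ⟨by norm_num, by norm_num⟩ MM_convex.isPreconnected PN_convex.isPreconnected

lemma Om2_open : IsOpen Om2 := (MM_open.union (box_open _ _ _ _)).union (box_open _ _ _ _)
lemma OmP_open : IsOpen OmP := MM_open.union (box_open _ _ _ _)
lemma OmN_open : IsOpen OmN := MM_open.union (box_open _ _ _ _)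

lemma FlatImm.affine_of_const {Ω : Set (ℝ × ℝ)} {ρ : ℝ × ℝ → E3} (F : FlatImm Ω ρ)
    {A : ℝ × ℝ →L[ℝ] E3} {c : E3} {U : Set (ℝ × ℝ)} (hU : IsOpen U) {z0 : ℝ × ℝ} (hz0 : z0 ∈ U)
    (hUΩ : U ⊆ Ω) (h : ∀ z ∈ U, ρ z = c + A z) : ∀ z ∈ Ω, ρ z = c + A z := by
  have h1 : AnalyticOnNhd ℝ (fun z => c + A z) Ω := fun z _ =>
    analyticAt_const.add (A.analyticAt z)
  have := F.analytic.eqOn_of_preconnected_of_eventuallyEq h1 F.conn (hUΩ hz0)
    (by filter_upwards [hU.mem_nhds hz0] with z hz using h z hz)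
  exact fun z hz => this hz

/-- Main global theorem: three analytic isometric immersions of the three flat pieces which agree
on the lower room have a common value over the upper room and one of the pockets. -/
theorem global {ρ2 ρP ρN : ℝ × ℝ → E3} (I2 : FlatImm Om2 ρ2) (IP : FlatImm OmP ρP)
    (IN : FlatImm OmN ρN) (hP : EqOn ρ2 ρP MM) (hN : EqOn ρ2 ρN MM) :
    (∃ z ∈ RR ∩ PP, ρ2 z = ρP z) ∨ (∃ z ∈ RR ∩ PN, ρ2 z = ρN z) := by
  have hz0 : ((0, -(1 / 2)) : ℝ × ℝ) ∈ MM := ⟨by norm_num, by norm_num⟩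
  have hdP : EqOn (fderiv ℝ ρ2) (fderiv ℝ ρP) MM := by
    intro z hz
    exact Filter.EventuallyEq.fderiv_eq (by filter_upwards [MM_open.mem_nhds hz] with w hw using hP hw)
  have hdN : EqOn (fderiv ℝ ρ2) (fderiv ℝ ρN) MM := by
    intro z hz
    exact Filter.EventuallyEq.fderiv_eq (by filter_upwards [MM_open.mem_nhds hz] with w hw using hN hw)
  by_cases hc : ∃ A, ∀ z ∈ MM, fderiv ℝ ρ2 z = A
  · -- planar case
    obtain ⟨A, hA⟩ := hc
    left
    have haff : ∀ z ∈ MM, ρ2 z = (ρ2 (0, -(1 / 2)) - A (0, -(1 / 2))) + A z := by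
      intro z hz
      have hconst := MM_convex.is_const_of_fderivWithin_eq_zero (𝕜 := ℝ)
        (f := fun t => ρ2 t - A t)
        (fun t ht => ((I2.analytic t (MM_sub_Om2 ht)).differentiableAt.sub
          A.differentiableAt).differentiableWithinAt) (fun t ht => by
          rw [fderivWithin_of_isOpen MM_open ht, fderiv_fun_sub
            (I2.analytic t (MM_sub_Om2 ht)).differentiableAt A.differentiableAt, hA t ht,
            A.fderiv, sub_self]) hz hz0
      rw [← hconst]; abel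
    have h2 := I2.affine_of_const MM_open hz0 MM_sub_Om2 haff
    have h3 := IP.affine_of_const MM_open hz0 MM_sub_OmP (fun z hz => by
      rw [← hP hz]; exact haff z hz)
    refine ⟨(1 / 2, 1 / 10), ⟨⟨by norm_num, by norm_num⟩, ⟨by norm_num, by norm_num⟩⟩, ?_⟩
    rw [h2 _ (RR_sub_Om2 ⟨by norm_num, by norm_num⟩),
      h3 _ (PP_sub_OmP ⟨by norm_num, by norm_num⟩)]
  · have F2 := I2.foliated_tq (fun ⟨c, h⟩ => hc ⟨c, fun z hz => h z (MM_sub_Om2 hz)⟩)
    have FP := IP.foliated_tq (fun ⟨c, h⟩ => hc ⟨c, fun z hz => by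
      rw [hdP hz]; exact h z (MM_sub_OmP hz)⟩)
    have FN := IN.foliated_tq (fun ⟨c, h⟩ => hc ⟨c, fun z hz => by
      rw [hdN hz]; exact h z (MM_sub_OmN hz)⟩)
    have eP : EqOn (tq ρ2) (tq ρP) MM := by
      intro z hz
      simp only [tq]
      rw [hdP hz, hP hz]
    have eN : EqOn (tq ρ2) (tq ρN) MM := by
      intro z hz
      simp only [tq]
      rw [hdN hz, hN hz]
    rcases global_foliated F2 FP FN eP eN with ⟨z, hz, h⟩ | ⟨z, hz, h⟩
    · exact Or.inl ⟨z, hz, eq_of_tq h⟩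
    · exact Or.inr ⟨z, hz, eq_of_tq h⟩

end Pool.Agent.Lib.MP60a66a
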