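import Mathlib

set_option autoImplicit false
set_option linter.unusedSectionVars false

open Filter Topology Set

namespace Pool.Agent.Lib.MP60a66a

variable {G : Type*} [NormedAddCommGroup G] [NormedSpace ℝ G]

/-- `v` is a leaf direction of `P` at `z`: `P` is constant near `z` along the line `z + ℝ v`. -/
def LeafDir (P : ℝ × ℝ → G) (z v : ℝ × ℝ) : Prop :=
  ∀ᶠ s : ℝ in 𝓝 0, P (z + s • v) = P z

lemma LeafDir.smul {P : ℝ × ℝ → G} {z v : ℝ × ℝ} (h : LeafDir P z v) (c : ℝ) :
    LeafDir P z (c • v) := by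
  have h2 : Tendsto (fun s : ℝ => s * c) (𝓝 0) (𝓝 0) := by
    have : Continuous (fun s : ℝ => s * c) := by fun_prop
    simpa using this.tendsto 0
  filter_upwards [h2.eventually h] with s hs
  rwa [smul_smul]

lemma leafDir_zero (P : ℝ × ℝ → G) (z : ℝ × ℝ) : LeafDir P z 0 := by
  simp [LeafDir]

/-- Moving along a leaf inside the domain of analyticity. -/
lemma LeafDir.move {P : ℝ × ℝ → G} {Ω : Set (ℝ × ℝ)} (hΩ : IsOpen Ω)
    (hP : AnalyticOnNhd ℝ P Ω) {z v : ℝ × ℝ} (h : LeafDir P z v) {s : ℝ}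
    (hseg : ∀ t ∈ uIcc 0 s, z + t • v ∈ Ω) :
    P (z + s • v) = P z ∧ LeafDir P (z + s • v) v := by
  have hcont : Continuous (fun t : ℝ => z + t • v) := by fun_prop
  set J : Set ℝ := (fun t : ℝ => z + t • v) ⁻¹' Ω with hJ
  have hJo : IsOpen J := hΩ.preimage hcont
  have h0J : (0 : ℝ) ∈ J := hseg 0 left_mem_uIcc
  set I : Set ℝ := connectedComponentIn J 0 with hI
  have hIo : IsOpen I := hJo.connectedComponentIn
  have hIpc : IsPreconnected I := isPreconnected_connectedComponentIn
  have h0I : (0 : ℝ) ∈ I := mem_connectedComponentIn h0J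
  have hsub : uIcc 0 s ⊆ I :=
    isPreconnected_uIcc.subset_connectedComponentIn left_mem_uIcc (fun t ht => hseg t ht)
  have hIJ : I ⊆ J := connectedComponentIn_subset J 0
  have hf : AnalyticOnNhd ℝ (fun t : ℝ => P (z + t • v)) I := by
    intro t ht
    have h1 : AnalyticAt ℝ P (z + t • v) := hP _ (hIJ ht)
    have h2 : AnalyticAt ℝ (fun t : ℝ => z + t • v) t := by fun_prop
    exact AnalyticAt.comp (g := P) (f := fun t : ℝ => z + t • v) h1 h2
  have hg : AnalyticOnNhd ℝ (fun _ : ℝ => P z) I := fun t _ => analyticAt_const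
  have heq := hf.eqOn_of_preconnected_of_eventuallyEq hg hIpc h0I (by
    filter_upwards [h] with t ht using ht)
  have hsI : s ∈ I := hsub right_mem_uIcc
  have h1 : P (z + s • v) = P z := heq hsI
  refine ⟨h1, ?_⟩
  have h3 : Tendsto (fun t : ℝ => s + t) (𝓝 0) (𝓝 s) := by
    have : Continuous (fun t : ℝ => s + t) := by fun_prop
    simpa using this.tendsto 0
  filter_upwards [h3.eventually (hIo.mem_nhds hsI)] with t ht
  have h4 : P (z + (s + t) • v) = P z := heq ht
  rw [h1, ← h4, add_smul, add_assoc]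

/-- Version of `LeafDir.move` with end point `z'` reached by the segment. -/
lemma LeafDir.move_seg {P : ℝ × ℝ → G} {Ω : Set (ℝ × ℝ)} (hΩ : IsOpen Ω)
    (hP : AnalyticOnNhd ℝ P Ω) {z z' v : ℝ × ℝ} (h : LeafDir P z v) {s : ℝ}
    (hz' : z' = z + s • v) (hseg : segment ℝ z z' ⊆ Ω) :
    P z' = P z ∧ LeafDir P z' v := by
  subst hz'
  refine h.move hΩ hP (fun t ht => hseg ?_)
  rw [segment_eq_image']
  rcases eq_or_ne s 0 with rfl | hs
  · simp only [uIcc_self, mem_singleton_iff] at ht
    subst ht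
    exact ⟨0, by simp, by simp⟩
  · refine ⟨t / s, ?_, ?_⟩
    · rcases le_total 0 s with h0 | h0
      · rw [uIcc_of_le h0] at ht
        exact ⟨div_nonneg ht.1 h0, div_le_one_of_le₀ ht.2 h0⟩
      · rw [uIcc_of_ge h0] at ht
        refine ⟨div_nonneg_of_nonpos ht.2 h0, ?_⟩
        rw [div_le_one_of_neg (lt_of_le_of_ne h0 hs)]
        exact ht.1
    · simp only [add_sub_cancel_left, smul_smul]
      rw [div_mul_cancel₀ t hs]

/-- Leaf directions form a closed relation over the domain of analyticity. -/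
lemma leafDir_closed {P : ℝ × ℝ → G} {Ω : Set (ℝ × ℝ)} (hΩ : IsOpen Ω)
    (hP : AnalyticOnNhd ℝ P Ω) {ι : Type*} {l : Filter ι} [NeBot l] {zf vf : ι → ℝ × ℝ}
    {z v : ℝ × ℝ} (hz : Tendsto zf l (𝓝 z)) (hv : Tendsto vf l (𝓝 v)) (hzΩ : z ∈ Ω)
    (h : ∀ᶠ i in l, LeafDir P (zf i) (vf i)) : LeafDir P z v := by
  obtain ⟨R, hR, hball⟩ := Metric.isOpen_iff.1 hΩ z hzΩ
  have hpos : 0 < ‖v‖ + 1 := by positivity
  set s0 : ℝ := R / 2 / (‖v‖ + 1) with hs0
  have hs0pos : 0 < s0 := by positivity
  have hmem : ∀ᶠ s : ℝ in 𝓝 0, |s| < s0 := by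
    have : Tendsto (fun s : ℝ => |s|) (𝓝 0) (𝓝 0) := by
      have := (continuous_abs (G := ℝ)).tendsto 0
      simpa using this
    exact this.eventually (gt_mem_nhds hs0pos)
  filter_upwards [hmem] with s hs
  have e1 : ∀ᶠ i in l, dist (zf i) z < R / 2 := (tendsto_iff_dist_tendsto_zero.1 hz).eventually
    (gt_mem_nhds (by positivity))
  have e2 : ∀ᶠ i in l, ‖vf i‖ < ‖v‖ + 1 := hv.norm.eventually (gt_mem_nhds (by linarith))
  have e3 : ∀ᶠ i in l, P (zf i + s • vf i) = P (zf i) := by
    filter_upwards [e1, e2, h] with i h1 h2 h3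
    refine (h3.move (s := s) hΩ hP (fun t ht => hball ?_)).1
    rw [Metric.mem_ball]
    have ht' : |t| ≤ |s| := by
      rcases le_total 0 s with h0 | h0
      · rw [uIcc_of_le h0] at ht
        rw [abs_of_nonneg ht.1, abs_of_nonneg h0]; exact ht.2
      · rw [uIcc_of_ge h0] at ht
        rw [abs_of_nonpos ht.2, abs_of_nonpos h0]; linarith [ht.1]
    calc dist (zf i + t • vf i) z ≤ dist (zf i + t • vf i) (zf i) + dist (zf i) z :=
          dist_triangle _ _ _
      _ = |t| * ‖vf i‖ + dist (zf i) z := by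
          rw [dist_eq_norm, add_sub_cancel_left, norm_smul, Real.norm_eq_abs]
      _ ≤ s0 * (‖v‖ + 1) + dist (zf i) z := by
          have : |t| * ‖vf i‖ ≤ s0 * (‖v‖ + 1) :=
            mul_le_mul (ht'.trans hs.le) h2.le (norm_nonneg _) hs0pos.le
          linarith
      _ < R / 2 + R / 2 := by
          have : s0 * (‖v‖ + 1) = R / 2 := by rw [hs0]; field_simp
          linarith
      _ = R := by ring
  have hzs : z + s • v ∈ Ω := by
    apply hball
    rw [Metric.mem_ball, dist_eq_norm, add_sub_cancel_left, norm_smul, Real.norm_eq_abs]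
    calc |s| * ‖v‖ ≤ s0 * (‖v‖ + 1) :=
          mul_le_mul hs.le (by linarith) (norm_nonneg _) hs0pos.le
      _ = R / 2 := by rw [hs0]; field_simp
      _ < R := by linarith
  have t1 : Tendsto (fun i => P (zf i + s • vf i)) l (𝓝 (P (z + s • v))) :=
    ((hP _ hzs).continuousAt.tendsto).comp (hz.add (hv.const_smul s))
  have t2 : Tendsto (fun i => P (zf i)) l (𝓝 (P z)) :=
    ((hP _ hzΩ).continuousAt.tendsto).comp hz
  exact tendsto_nhds_unique_of_eventuallyEq t1 t2 e3

/-- Analytic map on a planar open set which is nowhere locally constant and has a leaf direction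
at every point. -/
structure Foliated (Ω : Set (ℝ × ℝ)) (P : ℝ × ℝ → G) : Prop where
  isOpen : IsOpen Ω
  analytic : AnalyticOnNhd ℝ P Ω
  exists_dir : ∀ z ∈ Ω, ∃ v, v ≠ 0 ∧ LeafDir P z v
  not_const : ∀ z ∈ Ω, ¬ ∀ᶠ z' in 𝓝 z, P z' = P z

/-- The leaf direction is unique. -/
lemma Foliated.unique {Ω : Set (ℝ × ℝ)} {P : ℝ × ℝ → G} (F : Foliated Ω P) {z v w : ℝ × ℝ}
    (hz : z ∈ Ω) (hv : LeafDir P z v) (hw : LeafDir P z w) : v.1 * w.2 - v.2 * w.1 = 0 := by
  by_contra hD
  set D : ℝ := v.1 * w.2 - v.2 * w.1 with hDdef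
  apply F.not_const z hz
  obtain ⟨R, hR, hball⟩ := Metric.isOpen_iff.1 F.isOpen z hz
  -- coordinates
  set a : ℝ × ℝ → ℝ := fun z' => ((z'.1 - z.1) * w.2 - (z'.2 - z.2) * w.1) / D with ha
  set b : ℝ × ℝ → ℝ := fun z' => (v.1 * (z'.2 - z.2) - v.2 * (z'.1 - z.1)) / D with hb
  have hdecomp : ∀ z', z' = z + a z' • v + b z' • w := by
    intro z'
    ext
    · simp only [ha, hb, Prod.fst_add, Prod.smul_fst, smul_eq_mul]
      field_simp
      rw [hDdef]; ring
    · simp only [ha, hb, Prod.snd_add, Prod.smul_snd, smul_eq_mul]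
      field_simp
      rw [hDdef]; ring
  have hacont : Continuous a := by
    simp only [ha]; fun_prop
  have hbcont : Continuous b := by
    simp only [hb]; fun_prop
  have ha0 : a z = 0 := by simp [ha]
  have hb0 : b z = 0 := by simp [hb]
  have hsmall : ∀ᶠ z' in 𝓝 z, (|a z'| + |b z'|) * (‖v‖ + ‖w‖) < R := by
    have hc : Continuous (fun z' => (|a z'| + |b z'|) * (‖v‖ + ‖w‖)) := by fun_prop
    have := hc.tendsto z
    simp only [ha0, hb0, abs_zero, add_zero, zero_mul] at this
    exact this.eventually (gt_mem_nhds hR)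
  -- all points z + p v + q w with |p|,|q| ≤ |a|+|b| are in the ball
  have hmemball : ∀ (A p q : ℝ), A * (‖v‖ + ‖w‖) < R → |p| ≤ A → |q| ≤ A →
      z + p • v + q • w ∈ Ω := by
    intro A p q hA hp hq
    apply hball
    rw [Metric.mem_ball, dist_eq_norm]
    have : z + p • v + q • w - z = p • v + q • w := by abel
    rw [this]
    calc ‖p • v + q • w‖ ≤ ‖p • v‖ + ‖q • w‖ := norm_add_le _ _
      _ = |p| * ‖v‖ + |q| * ‖w‖ := by rw [norm_smul, norm_smul]; rfl
      _ ≤ A * ‖v‖ + A * ‖w‖ := by gcongr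
      _ = A * (‖v‖ + ‖w‖) := by ring
      _ < R := hA
  filter_upwards [hsmall] with z' hz'
  set A : ℝ := |a z'| + |b z'| with hA
  have hA1 : |a z'| ≤ A := by rw [hA]; linarith [abs_nonneg (b z')]
  have hA2 : |b z'| ≤ A := by rw [hA]; linarith [abs_nonneg (a z')]
  have hApos : 0 ≤ A := by positivity
  have hz'Ω : z' ∈ Ω := by
    rw [hdecomp z']
    exact hmemball A _ _ hz' hA1 hA2
  obtain ⟨u, hu0, hu⟩ := F.exists_dir z' hz'Ω
  set α : ℝ := (u.1 * w.2 - u.2 * w.1) / D with hα
  set β : ℝ := (v.1 * u.2 - v.2 * u.1) / D with hβ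
  have hudec : u = α • v + β • w := by
    ext
    · simp only [hα, hβ, Prod.fst_add, Prod.smul_fst, smul_eq_mul]
      field_simp
      rw [hDdef]; ring
    · simp only [hα, hβ, Prod.snd_add, Prod.smul_snd, smul_eq_mul]
      field_simp
      rw [hDdef]; ring
  have hline : ∀ t : ℝ, z' + t • u = z + (a z' + t * α) • v + (b z' + t * β) • w := by
    intro t
    conv_lhs => rw [hdecomp z', hudec]
    module
  have habs : ∀ {t s : ℝ}, t ∈ uIcc 0 s → |t| ≤ |s| := by
    intro t s ht
    rcases le_total 0 s with h0 | h0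
    · rw [uIcc_of_le h0] at ht
      rw [abs_of_nonneg ht.1, abs_of_nonneg h0]; exact ht.2
    · rw [uIcc_of_ge h0] at ht
      rw [abs_of_nonpos ht.2, abs_of_nonpos h0]; linarith [ht.1]
  have hbetween : ∀ {t s x y : ℝ}, t ∈ uIcc 0 s → x + s * y = 0 → |x + t * y| ≤ |x| := by
    intro t s x y ht hx
    have h1 : x = -(s * y) := by linarith
    have h2 : x + t * y = (t - s) * y := by rw [h1]; ring
    rw [h2, h1, abs_neg, abs_mul, abs_mul]
    apply mul_le_mul_of_nonneg_right _ (abs_nonneg _)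
    rcases le_total 0 s with h0 | h0
    · rw [uIcc_of_le h0] at ht
      rw [abs_of_nonpos (by linarith [ht.2]), abs_of_nonneg h0]; linarith [ht.1]
    · rw [uIcc_of_ge h0] at ht
      rw [abs_of_nonneg (by linarith [ht.1]), abs_of_nonpos h0]; linarith [ht.2]
  rcases le_total |β| |α| with hαβ | hαβ
  · -- hit the line z + ℝ w
    have hα0 : α ≠ 0 := by
      intro h0
      rw [h0, abs_zero] at hαβ
      have hβ0 : β = 0 := abs_eq_zero.1 (le_antisymm hαβ (abs_nonneg _))
      apply hu0
      rw [hudec, h0, hβ0]; simp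
    set s : ℝ := -(a z') / α with hs
    have hsα : a z' + s * α = 0 := by rw [hs]; field_simp; ring
    have hsβ : |s * β| ≤ |a z'| := by
      have : |s * α| = |a z'| := by
        have : s * α = - a z' := by linarith
        rw [this, abs_neg]
      rw [← this, abs_mul, abs_mul]
      exact mul_le_mul_of_nonneg_left hαβ (abs_nonneg _)
    have h1 := (hu.move (s := s) F.isOpen F.analytic (fun t ht => by
      rw [hline t]
      refine hmemball A _ _ hz' ((hbetween ht hsα).trans hA1) ?_
      have : |t * β| ≤ |s * β| := by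
        rw [abs_mul, abs_mul]
        exact mul_le_mul_of_nonneg_right (habs ht) (abs_nonneg _)
      calc |b z' + t * β| ≤ |b z'| + |t * β| := abs_add_le _ _
        _ ≤ |b z'| + |a z'| := by linarith
        _ = A := by rw [hA]; ring)).1
    have h2 : z' + s • u = z + (b z' + s * β) • w := by
      rw [hline s, hsα]; simp
    have h3 := (hw.move (s := b z' + s * β) F.isOpen F.analytic (fun t ht => by
      have : z + t • w = z + (0 : ℝ) • v + t • w := by simp
      rw [this]
      refine hmemball A _ _ hz' (by simpa using hApos) ?_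
      calc |t| ≤ |b z' + s * β| := habs ht
        _ ≤ |b z'| + |s * β| := abs_add_le _ _
        _ ≤ |b z'| + |a z'| := by linarith
        _ = A := by rw [hA]; ring)).1
    rw [← h1, h2, h3]
  · have hβ0 : β ≠ 0 := by
      intro h0
      rw [h0, abs_zero] at hαβ
      have hα0 : α = 0 := abs_eq_zero.1 (le_antisymm hαβ (abs_nonneg _))
      apply hu0
      rw [hudec, h0, hα0]; simp
    set s : ℝ := -(b z') / β with hs
    have hsβ : b z' + s * β = 0 := by rw [hs]; field_simp; ring
    have hsα : |s * α| ≤ |b z'| := by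
      have : |s * β| = |b z'| := by
        have : s * β = - b z' := by linarith
        rw [this, abs_neg]
      rw [← this, abs_mul, abs_mul]
      exact mul_le_mul_of_nonneg_left hαβ (abs_nonneg _)
    have h1 := (hu.move (s := s) F.isOpen F.analytic (fun t ht => by
      rw [hline t]
      refine hmemball A _ _ hz' ?_ ((hbetween ht hsβ).trans hA2)
      have : |t * α| ≤ |s * α| := by
        rw [abs_mul, abs_mul]
        exact mul_le_mul_of_nonneg_right (habs ht) (abs_nonneg _)
      calc |a z' + t * α| ≤ |a z'| + |t * α| := abs_add_le _ _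
        _ ≤ |a z'| + |b z'| := by linarith
        _ = A := by rw [hA])).1
    have h2 : z' + s • u = z + (a z' + s * α) • v := by
      rw [hline s, hsβ]; simp
    have h3 := (hv.move (s := a z' + s * α) F.isOpen F.analytic (fun t ht => by
      have : z + t • v = z + t • v + (0 : ℝ) • w := by simp
      rw [this]
      refine hmemball A _ _ hz' ?_ (by simpa using hApos)
      calc |t| ≤ |a z' + s * α| := habs ht
        _ ≤ |a z'| + |s * α| := abs_add_le _ _
        _ ≤ |a z'| + |b z'| := by linarith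
        _ = A := by rw [hA])).1
    rw [← h1, h2, h3]

end Pool.Agent.Lib.MP60a66a
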