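import Mathlib

set_option autoImplicit false

open Set Filter Topology MeasureTheory
open scoped ENNReal NNReal ContDiff unitInterval

namespace Pool.Agent.Lib.MP60a66a.Reg

variable {E F : Type*} [NormedAddCommGroup E] [NormedSpace ℝ E] [NormedAddCommGroup F]
  [NormedSpace ℝ F]

/-- The pointwise action of a continuous multilinear map on continuous paths. -/
noncomputable def supM {n : ℕ} (p : E [×n]→L[ℝ] F) : C(I, E) [×n]→L[ℝ] C(I, F) :=
  MultilinearMap.mkContinuous
    { toFun := fun η => ⟨fun t => p (fun i => η i t),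
        p.cont.comp (continuous_pi fun i => (η i).continuous)⟩
      map_update_add' := by
        intro _ m i x y
        ext t
        have h : ∀ z : C(I, E), (fun j => (Function.update m i z) j t) =
            Function.update (fun j => m j t) i (z t) := by
          intro z
          funext j
          by_cases hj : j = i
          · subst hj; simp
          · simp [Function.update_of_ne hj]
        simp only [ContinuousMap.coe_mk, ContinuousMap.add_apply, h]
        exact p.map_update_add _ _ _ _
      map_update_smul' := by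
        intro _ m i c x
        ext t
        have h : ∀ z : C(I, E), (fun j => (Function.update m i z) j t) =
            Function.update (fun j => m j t) i (z t) := by
          intro z
          funext j
          by_cases hj : j = i
          · subst hj; simp
          · simp [Function.update_of_ne hj]
        simp only [ContinuousMap.coe_mk, ContinuousMap.smul_apply, h]
        exact p.map_update_smul _ _ _ _ } ‖p‖ (by
      intro m
      rw [ContinuousMap.norm_le _ (by positivity)]
      intro t
      refine (p.le_opNorm _).trans ?_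
      gcongr with i
      exact (m i).norm_coe_le_norm t)

theorem supM_apply {n : ℕ} (p : E [×n]→L[ℝ] F) (η : Fin n → C(I, E)) (t : I) :
    supM p η t = p (fun i => η i t) := rfl

theorem norm_supM_le {n : ℕ} (p : E [×n]→L[ℝ] F) : ‖supM p‖ ≤ ‖p‖ :=
  MultilinearMap.mkContinuous_norm_le _ (norm_nonneg _) _

/-- The power series of the superposition operator. -/
noncomputable def supS (p : FormalMultilinearSeries ℝ E F) :
    FormalMultilinearSeries ℝ C(I, E) C(I, F) := fun n => supM (p n)

theorem radius_supS (p : FormalMultilinearSeries ℝ E F) : p.radius ≤ (supS p).radius :=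
  FormalMultilinearSeries.radius_le_of_le fun n => norm_supM_le (p n)

theorem supS_sum [CompleteSpace F] {G : E → F} {p : FormalMultilinearSeries ℝ E F} {y : E}
    {r : ℝ≥0∞} (hG : HasFPowerSeriesOnBall G p y r) {η : C(I, E)}
    (hη : η ∈ Metric.eball (0 : C(I, E)) r) (t : I) : (supS p).sum η t = G (y + η t) := by
  have h1 : Summable fun n => supS p n (fun _ => η) := by
    have : η ∈ Metric.eball (0 : C(I, E)) (supS p).radius :=
      Metric.eball_subset_eball (hG.r_le.trans (radius_supS p)) hη
    exact (supS p).summable this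
  have h2 : HasSum (fun n => supS p n (fun _ => η)) ((supS p).sum η) := h1.hasSum
  have h3 : HasSum (fun n => (supS p n (fun _ => η)) t) ((supS p).sum η t) :=
    (ContinuousMap.hasSum_apply h2 t)
  have h4 : η t ∈ Metric.eball (0 : E) r := by
    rw [Metric.mem_eball, edist_zero_right] at hη ⊢
    refine lt_of_le_of_lt ?_ hη
    have := η.norm_coe_le_norm t
    simp only [enorm_eq_nnnorm]
    exact_mod_cast this
  exact h3.unique (hG.hasSum h4)

/-- Integration as a continuous linear operator on continuous paths. -/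
noncomputable def J (E : Type*) [NormedAddCommGroup E] [NormedSpace ℝ E] :
    C(I, E) →L[ℝ] C(I, E) :=
  LinearMap.mkContinuous
    { toFun := fun η => ⟨fun t => ∫ s in (0:ℝ)..t, η (projIcc 0 1 zero_le_one s), by
        have h : Continuous fun s : ℝ => η (projIcc 0 1 zero_le_one s) :=
          η.continuous.comp continuous_projIcc
        exact (intervalIntegral.continuous_primitive (fun a b => h.intervalIntegrable a b) 0).comp
          continuous_subtype_val⟩
      map_add' := by
        intro η ξ
        ext t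
        simp only [ContinuousMap.coe_mk, ContinuousMap.add_apply]
        apply intervalIntegral.integral_add
        · exact (η.continuous.comp continuous_projIcc).intervalIntegrable _ _
        · exact (ξ.continuous.comp continuous_projIcc).intervalIntegrable _ _
      map_smul' := by
        intro c η
        ext t
        simp [intervalIntegral.integral_smul] } 1 (by
      intro η
      rw [ContinuousMap.norm_le _ (by positivity)]
      intro t
      refine (intervalIntegral.norm_integral_le_of_norm_le_const (C := ‖η‖)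
        (fun s _ => η.norm_coe_le_norm _)).trans ?_
      rw [sub_zero, abs_of_nonneg t.2.1, one_mul]
      exact mul_le_of_le_one_right (norm_nonneg _) t.2.2)

theorem J_apply (η : C(I, E)) (t : I) :
    J E η t = ∫ s in (0:ℝ)..t, η (projIcc 0 1 zero_le_one s) := rfl

/-- The shear. -/
noncomputable def shear {A B C : Type*} [NormedAddCommGroup A] [NormedSpace ℝ A]
    [NormedAddCommGroup B] [NormedSpace ℝ B] [NormedAddCommGroup C] [NormedSpace ℝ C]
    (L : A →L[ℝ] C) : (A × B × C) →L[ℝ] (A × B × C) :=
  (ContinuousLinearMap.fst ℝ A (B × C)).prod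
    (((ContinuousLinearMap.fst ℝ B C).comp (ContinuousLinearMap.snd ℝ A (B × C))).prod
      ((ContinuousLinearMap.snd ℝ B C).comp (ContinuousLinearMap.snd ℝ A (B × C)) -
        L.comp (ContinuousLinearMap.fst ℝ A (B × C))))

/-- The shear as an equivalence. -/
noncomputable def shearEquiv {A B C : Type*} [NormedAddCommGroup A] [NormedSpace ℝ A]
    [NormedAddCommGroup B] [NormedSpace ℝ B] [NormedAddCommGroup C] [NormedSpace ℝ C]
    (L : A →L[ℝ] C) : (A × B × C) ≃L[ℝ] (A × B × C) :=
  ContinuousLinearEquiv.equivOfInverse (shear L) (shear (-L))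
    (fun x => by simp [shear]) (fun x => by simp [shear])

/-- Constant paths. -/
noncomputable def constL (E : Type*) [NormedAddCommGroup E] [NormedSpace ℝ E] :
    E →L[ℝ] C(I, E) :=
  LinearMap.mkContinuous
    { toFun := fun u => ContinuousMap.const I u
      map_add' := fun _ _ => rfl
      map_smul' := fun _ _ => rfl } 1 (by
      intro u
      rw [ContinuousMap.norm_le _ (by positivity)]
      intro t
      rw [one_mul]
      exact le_rfl)

@[simp] theorem constL_apply (u : E) (t : I) : constL E u t = u := rfl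

theorem exists_flow [CompleteSpace E] {G : E → E} {y : E} (hG : AnalyticAt ℝ G y) :
    ∃ (Φ : ℝ × E → E) (r : ℝ), 0 < r ∧ (∀ a u, |a| < r → ‖u‖ < r → AnalyticAt ℝ Φ (a, u)) ∧
      ∀ (a : ℝ) (u : E) (Y : ℝ → E), |a| < r → ‖u‖ < r → ContinuousOn Y (Icc 0 1) →
        (∀ t ∈ Icc (0:ℝ) 1, ‖Y t - (y + u)‖ < r) →
        (∀ t ∈ Icc (0:ℝ) 1, Y t = y + u + a • ∫ s in (0:ℝ)..t, G (Y s)) → Y 1 = Φ (a, u) := by
  obtain ⟨p, R, hp⟩ := hG
  let S : C(I, E) → C(I, E) := (supS p).sum
  have hSr : 0 < (supS p).radius := hp.r_pos.trans_le (hp.r_le.trans (radius_supS p))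
  have hS : AnalyticAt ℝ S 0 := ((supS p).hasFPowerSeriesOnBall hSr).analyticAt
  let P := ℝ × E × C(I, E)
  let L : P →L[ℝ] C(I, E) := (constL E).comp ((ContinuousLinearMap.fst ℝ E C(I, E)).comp
    (ContinuousLinearMap.snd ℝ ℝ (E × C(I, E)))) + (ContinuousLinearMap.snd ℝ E C(I, E)).comp
    (ContinuousLinearMap.snd ℝ ℝ (E × C(I, E)))
  have hL : ∀ q : P, L q = constL E q.2.1 + q.2.2 := fun q => rfl
  let T : P → C(I, E) := fun q => J E (S (L q))
  have hT : AnalyticAt ℝ T 0 := by
    have h1 : AnalyticAt ℝ (fun q : P => S (L q)) 0 :=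
      AnalyticAt.fun_comp (by rw [map_zero]; exact hS) (L.analyticAt 0)
    exact ((J E).analyticAt _).fun_comp h1
  let Ψ : P → P := fun q => (q.1, q.2.1, q.2.2 - q.1 • T q)
  have hΨ : AnalyticAt ℝ Ψ 0 := by
    refine analyticAt_fst.prod ((analyticAt_fst.fun_comp analyticAt_snd).prod ?_)
    exact (analyticAt_snd.fun_comp analyticAt_snd).sub (analyticAt_fst.smul hT)
  let L0 : ℝ →L[ℝ] C(I, E) := (ContinuousLinearMap.id ℝ ℝ).smulRight (T 0)
  let e : P ≃L[ℝ] P := shearEquiv L0
  have hΨd : HasStrictFDerivAt Ψ (e : P →L[ℝ] P) 0 := by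
    have h1 : HasStrictFDerivAt (fun q : P => q.1 • T q)
        (((0:P).1 : ℝ) • fderiv ℝ T 0 + (ContinuousLinearMap.fst ℝ ℝ (E × C(I, E))).smulRight (T 0)) 0 :=
      hasStrictFDerivAt_fst.smul hT.hasStrictFDerivAt
    have h2 : HasStrictFDerivAt (fun q : P => q.2.1)
        ((ContinuousLinearMap.fst ℝ E C(I, E)).comp (ContinuousLinearMap.snd ℝ ℝ (E × C(I, E)))) 0 :=
      hasStrictFDerivAt_fst.comp (0:P) hasStrictFDerivAt_snd
    have h3 : HasStrictFDerivAt (fun q : P => q.2.2)
        ((ContinuousLinearMap.snd ℝ E C(I, E)).comp (ContinuousLinearMap.snd ℝ ℝ (E × C(I, E)))) 0 :=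
      hasStrictFDerivAt_snd.comp (0:P) hasStrictFDerivAt_snd
    have h4 := (hasStrictFDerivAt_fst (𝕜 := ℝ) (p := (0:P))).prodMk (h2.prodMk (h3.sub h1))
    refine h4.congr_fderiv ?_
    ext q <;> simp [e, shearEquiv, shear, L0]
  let H := hΨd.toOpenPartialHomeomorph Ψ
  have hH0 : (0:P) ∈ H.source := hΨd.mem_toOpenPartialHomeomorph_source
  have hΨ0 : Ψ 0 = 0 := by
    simp [Ψ]
    rfl
  have hHs : AnalyticAt ℝ H.symm 0 := by
    have h1 : AnalyticAt ℝ H.symm (H 0) :=
      H.analyticAt_symm' (i := e) hH0 hΨ hΨd.hasFDerivAt.fderiv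
    rwa [show H 0 = (0 : P) from hΨ0] at h1
  have hev1 : ∀ᶠ q in 𝓝 (0:P), AnalyticAt ℝ H.symm q := hHs.eventually_analyticAt
  have hev2 : ∀ᶠ q in 𝓝 (0:P), q ∈ H.source := H.open_source.mem_nhds hH0
  obtain ⟨r1, hr1, hr1'⟩ := Metric.eventually_nhds_iff_ball.1 (hev1.and hev2)
  obtain ⟨r2, hr2, hr2'⟩ : ∃ r2 : ℝ, 0 < r2 ∧ ENNReal.ofReal (2 * r2) ≤ R := by
    rcases eq_or_ne R ⊤ with h | h
    · exact ⟨1, one_pos, by rw [h]; exact le_top⟩
    · refine ⟨R.toReal / 2, ?_, ?_⟩
      · have := ENNReal.toReal_pos hp.r_pos.ne' h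
        positivity
      · rw [mul_div_cancel₀ _ (two_ne_zero), ENNReal.ofReal_toReal h]
  have hnorm : ∀ (a : ℝ) (u : E) (η : C(I, E)) (r : ℝ), |a| < r → ‖u‖ < r → ‖η‖ < r →
      ((a, u, η) : P) ∈ Metric.ball (0:P) r := by
    intro a u η r ha hu hη
    rw [mem_ball_zero_iff, Prod.norm_def, Prod.norm_def]
    simp [ha, hu, hη]
  refine ⟨fun q => y + q.2 + (H.symm ((q.1, q.2, 0) : P)).2.2 1, min r1 r2, lt_min hr1 hr2, ?_, ?_⟩
  · intro a u ha hu
    have h1 : AnalyticAt ℝ (fun q : ℝ × E => H.symm ((q.1, q.2, 0) : P)) (a, u) := by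
      have h2 : AnalyticAt ℝ (fun q : ℝ × E => ((q.1, q.2, 0) : P)) (a, u) :=
        analyticAt_fst.prod (analyticAt_snd.prod analyticAt_const)
      refine AnalyticAt.fun_comp ?_ h2
      refine (hr1' _ (hnorm a u 0 r1 (ha.trans_le (min_le_left _ _)) (hu.trans_le (min_le_left _ _))
        (by simpa using hr1))).1
    let ev : P →L[ℝ] E := ((ContinuousMap.evalCLM ℝ (1 : I)).comp
      (ContinuousLinearMap.snd ℝ E C(I, E))).comp (ContinuousLinearMap.snd ℝ ℝ (E × C(I, E)))
    have h3 : AnalyticAt ℝ (fun q : ℝ × E => ev (H.symm ((q.1, q.2, 0) : P))) (a, u) :=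
      (ev.analyticAt _).fun_comp h1
    exact (analyticAt_const.add analyticAt_snd).add h3
  · intro a u Y ha hu hY hYr hYe
    let η : C(I, E) := ⟨fun t => Y t - (y + u), (hY.comp_continuous continuous_subtype_val
      fun t => t.2).sub continuous_const⟩
    have hη : ‖η‖ < min r1 r2 := by
      rw [ContinuousMap.norm_lt_iff _ (lt_min hr1 hr2)]
      exact fun t => hYr t t.2
    have hmem : ((a, u, η) : P) ∈ H.source := (hr1' _ (hnorm a u η r1 (ha.trans_le (min_le_left _ _))
      (hu.trans_le (min_le_left _ _)) (hη.trans_le (min_le_left _ _)))).2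
    have hball : constL E u + η ∈ Metric.eball (0 : C(I, E)) R := by
      rw [Metric.mem_eball, edist_zero_right]
      refine lt_of_lt_of_le ?_ hr2'
      rw [← ofReal_norm]
      apply (ENNReal.ofReal_lt_ofReal_iff (by positivity)).2
      have h1 : ‖constL E u‖ ≤ ‖u‖ := by
        rw [ContinuousMap.norm_le _ (norm_nonneg _)]
        intro t
        simp
      have h2 := norm_add_le (constL E u) η
      have h3 := hu.trans_le (min_le_right r1 r2)
      have h4 := hη.trans_le (min_le_right r1 r2)
      linarith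
    have hΨη : Ψ (a, u, η) = (a, u, 0) := by
      have : η - a • T (a, u, η) = 0 := by
        ext t
        simp only [ContinuousMap.sub_apply, ContinuousMap.smul_apply, ContinuousMap.zero_apply, T,
          J_apply, hL]
        rw [sub_eq_zero]
        have h1 := hYe t t.2
        have h2 : ∫ s in (0:ℝ)..t, (S (constL E u + η)) (projIcc 0 1 zero_le_one s) =
            ∫ s in (0:ℝ)..t, G (Y s) := by
          apply intervalIntegral.integral_congr
          intro s hs
          rw [uIcc_of_le t.2.1] at hs
          have hs' : s ∈ Icc (0:ℝ) 1 := ⟨hs.1, hs.2.trans t.2.2⟩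
          simp only [S]
          rw [supS_sum hp hball, projIcc_of_mem zero_le_one hs']
          congr 1
          simp only [η, ContinuousMap.add_apply, constL_apply, ContinuousMap.coe_mk]
          abel
        rw [h2]
        show Y t - (y + u) = _
        rw [h1]
        abel
      simp only [Ψ, this]
    have h5 : H.symm ((a, u, 0) : P) = (a, u, η) := by
      rw [← hΨη]
      exact H.left_inv hmem
    simp only [h5]
    simp [η]

end Pool.Agent.Lib.MP60a66a.Reg
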