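import Pool.Agent.Lib.MP_60a66a_gt.Leaf

set_option autoImplicit false
set_option linter.unusedSectionVars false

open Filter Topology Set

namespace Pool.Agent.Lib.MP60a66a

variable {G : Type*} [NormedAddCommGroup G] [NormedSpace ℝ G]

/-- Existence of leaf directions on a dense set gives existence everywhere. -/
lemma exists_leafDir_of_dense {P : ℝ × ℝ → G} {Ω D : Set (ℝ × ℝ)} (hΩ : IsOpen Ω)
    (hP : AnalyticOnNhd ℝ P Ω) (hD : Ω ⊆ closure D)
    (hex : ∀ z ∈ D, ∃ v, v ≠ 0 ∧ LeafDir P z v) :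
    ∀ z ∈ Ω, ∃ v, v ≠ 0 ∧ LeafDir P z v := by
  intro z hz
  obtain ⟨x, hxD, hxz⟩ := mem_closure_iff_seq_limit.1 (hD hz)
  have hex' : ∀ n, ∃ v : ℝ × ℝ, v ∈ Metric.sphere (0 : ℝ × ℝ) 1 ∧ LeafDir P (x n) v := by
    intro n
    obtain ⟨v, hv0, hv⟩ := hex (x n) (hxD n)
    refine ⟨(‖v‖⁻¹) • v, ?_, hv.smul _⟩
    rw [mem_sphere_zero_iff_norm, norm_smul, norm_inv, norm_norm]
    exact inv_mul_cancel₀ (norm_ne_zero_iff.2 hv0)
  choose v hv1 hv2 using hex'
  obtain ⟨w, hw, φ, hφ, hlim⟩ := (isCompact_sphere (0 : ℝ × ℝ) 1).tendsto_subseq hv1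
  refine ⟨w, ?_, ?_⟩
  · rintro rfl
    simp at hw
  · exact leafDir_closed hΩ hP (hxz.comp hφ.tendsto_atTop) hlim hz
      (Eventually.of_forall fun n => hv2 (φ n))

lemma LeafDir.fderiv_eq_zero {P : ℝ × ℝ → G} {z v : ℝ × ℝ} (hP : DifferentiableAt ℝ P z)
    (h : LeafDir P z v) : fderiv ℝ P z v = 0 := by
  have h1 : HasDerivAt (fun s : ℝ => z + s • v) v 0 := by
    have := ((hasDerivAt_id (0 : ℝ)).smul_const v).const_add z
    simpa using this
  have h2 : HasDerivAt (fun s : ℝ => P (z + s • v)) (fderiv ℝ P z v) 0 := by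
    have h3 : HasFDerivAt P (fderiv ℝ P z) (z + (0 : ℝ) • v) := by
      simpa using hP.hasFDerivAt
    exact h3.comp_hasDerivAt (0 : ℝ) h1
  have h4 : HasDerivAt (fun s : ℝ => P (z + s • v)) 0 0 := by
    have h5 : (fun s : ℝ => P (z + s • v)) =ᶠ[𝓝 0] fun _ => P z := h
    exact (hasDerivAt_const (0 : ℝ) (P z)).congr_of_eventuallyEq h5
  exact h2.unique h4

/-- Along a segment transversal to the leaves the slope of the leaf direction is analytic. -/
lemma Foliated.exists_slope [CompleteSpace G] {Ω : Set (ℝ × ℝ)} {P : ℝ × ℝ → G} (F : Foliated Ω P)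
    {z0 a b : ℝ × ℝ} (hab : a.1 * b.2 - a.2 * b.1 ≠ 0) {J : Set ℝ} (hJo : IsOpen J)
    (hJc : IsPreconnected J) (hJΩ : ∀ t ∈ J, z0 + t • b ∈ Ω) {ts : ℝ} (hts : ts ∈ J)
    (hb : ¬ LeafDir P (z0 + ts • b) b) :
    ∃ μ : ℝ → ℝ, AnalyticOnNhd ℝ μ J ∧ ∀ t ∈ J, LeafDir P (z0 + t • b) (a + μ t • b) := by
  have hJord : OrdConnected J := isPreconnected_iff_ordConnected.1 hJc
  -- `b` is nowhere a leaf direction
  have hnb : ∀ t ∈ J, ¬ LeafDir P (z0 + t • b) b := by
    intro t ht h
    apply hb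
    have h1 := (h.move (s := ts - t) F.isOpen F.analytic (fun s hs => by
      have h2 : t + s ∈ uIcc t ts := by
        rcases le_total 0 (ts - t) with h0 | h0
        · rw [uIcc_of_le h0] at hs
          rw [uIcc_of_le (by linarith)]
          exact ⟨by linarith [hs.1], by linarith [hs.2]⟩
        · rw [uIcc_of_ge h0] at hs
          rw [uIcc_of_ge (by linarith)]
          exact ⟨by linarith [hs.1], by linarith [hs.2]⟩
      have h3 : t + s ∈ J := hJord.uIcc_subset ht hts h2
      have := hJΩ _ h3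
      rwa [add_smul, ← add_assoc] at this)).2
    have h2 : z0 + t • b + (ts - t) • b = z0 + ts • b := by module
    rwa [h2] at h1
  have hex : ∀ t ∈ J, ∃ m : ℝ, LeafDir P (z0 + t • b) (a + m • b) := by
    intro t ht
    obtain ⟨v, hv0, hv⟩ := F.exists_dir _ (hJΩ t ht)
    set D : ℝ := a.1 * b.2 - a.2 * b.1 with hD
    set α : ℝ := (v.1 * b.2 - v.2 * b.1) / D with hα
    set β : ℝ := (a.1 * v.2 - a.2 * v.1) / D with hβ
    have hvdec : v = α • a + β • b := by
      ext
      · simp only [hα, hβ, Prod.fst_add, Prod.smul_fst, smul_eq_mul]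
        field_simp
        rw [hD]; ring
      · simp only [hα, hβ, Prod.snd_add, Prod.smul_snd, smul_eq_mul]
        field_simp
        rw [hD]; ring
    have hα0 : α ≠ 0 := by
      intro h0
      have hvb : v = β • b := by rw [hvdec, h0]; simp
      have hβ0 : β ≠ 0 := by
        intro h1
        apply hv0
        rw [hvb, h1]; simp
      apply hnb t ht
      have := hv.smul β⁻¹
      rwa [hvb, smul_smul, inv_mul_cancel₀ hβ0, one_smul] at this
    refine ⟨β / α, ?_⟩
    have h1 := hv.smul α⁻¹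
    have h2 : α⁻¹ • v = a + (β / α) • b := by
      rw [hvdec, smul_add, smul_smul, smul_smul, inv_mul_cancel₀ hα0, one_smul]
      congr 2
      field_simp
    rwa [h2] at h1
  classical
  set μ : ℝ → ℝ := fun t => if h : t ∈ J then (hex t h).choose else 0 with hμ
  have hμspec : ∀ t ∈ J, LeafDir P (z0 + t • b) (a + μ t • b) := by
    intro t ht
    simp only [hμ, ht, dif_pos]
    exact (hex t ht).choose_spec
  refine ⟨μ, ?_, hμspec⟩
  -- uniqueness of slope
  have hμuniq : ∀ t ∈ J, ∀ m : ℝ, LeafDir P (z0 + t • b) (a + m • b) → m = μ t := by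
    intro t ht m hm
    have := F.unique (hJΩ t ht) hm (hμspec t ht)
    simp only [Prod.fst_add, Prod.snd_add, Prod.smul_fst, Prod.smul_snd, smul_eq_mul] at this
    have h2 : (μ t - m) * (a.1 * b.2 - a.2 * b.1) = 0 := by linarith
    rcases mul_eq_zero.1 h2 with h3 | h3
    · linarith
    · exact absurd h3 hab
  -- derivative functions
  set A : ℝ → G := fun t => fderiv ℝ P (z0 + t • b) a with hA
  set C : ℝ → G := fun t => fderiv ℝ P (z0 + t • b) b with hC
  have hlin : ∀ t : ℝ, AnalyticAt ℝ (fun t : ℝ => z0 + t • b) t := by intro t; fun_prop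
  have hAan : AnalyticOnNhd ℝ A J := by
    intro t ht
    have h1 : AnalyticAt ℝ (fderiv ℝ P) (z0 + t • b) := (F.analytic _ (hJΩ t ht)).fderiv
    have h2 : AnalyticAt ℝ (fun t : ℝ => fderiv ℝ P (z0 + t • b)) t :=
      AnalyticAt.comp (g := fderiv ℝ P) (f := fun t : ℝ => z0 + t • b) h1 (hlin t)
    exact ((ContinuousLinearMap.apply ℝ G a).analyticAt _).comp h2
  have hCan : AnalyticOnNhd ℝ C J := by
    intro t ht
    have h1 : AnalyticAt ℝ (fderiv ℝ P) (z0 + t • b) := (F.analytic _ (hJΩ t ht)).fderiv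
    have h2 : AnalyticAt ℝ (fun t : ℝ => fderiv ℝ P (z0 + t • b)) t :=
      AnalyticAt.comp (g := fderiv ℝ P) (f := fun t : ℝ => z0 + t • b) h1 (hlin t)
    exact ((ContinuousLinearMap.apply ℝ G b).analyticAt _).comp h2
  have hAC : ∀ t ∈ J, A t + μ t • C t = 0 := by
    intro t ht
    have := (hμspec t ht).fderiv_eq_zero (F.analytic _ (hJΩ t ht)).differentiableAt
    simpa [hA, hC, map_add, map_smul] using this
  intro t ht
  -- `C` does not vanish identically near `t`
  have hCne : ¬ ∀ᶠ s in 𝓝 t, C s = 0 := by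
    intro hev
    apply hnb t ht
    have hev2 : ∀ᶠ s in 𝓝 t, C s = 0 ∧ s ∈ J := hev.and (hJo.mem_nhds ht)
    obtain ⟨δ, hδ, hball⟩ := Metric.eventually_nhds_iff_ball.1 hev2
    have hder : ∀ s ∈ Metric.ball t δ, HasDerivAt (fun s : ℝ => P (z0 + s • b)) 0 s := by
      intro s hs
      obtain ⟨h1, h2⟩ := hball s hs
      have h3 : HasDerivAt (fun s : ℝ => z0 + s • b) b s := by
        have := ((hasDerivAt_id s).smul_const b).const_add z0
        simpa using this
      have h4 := (F.analytic _ (hJΩ s h2)).differentiableAt.hasFDerivAt.comp_hasDerivAt s h3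
      have h5 : fderiv ℝ P (z0 + s • b) b = 0 := h1
      rw [h5] at h4
      exact h4
    have hconst : ∀ s ∈ Metric.ball t δ, P (z0 + s • b) = P (z0 + t • b) := by
      intro s hs
      exact IsOpen.is_const_of_deriv_eq_zero (𝕜 := ℝ) (f := fun s : ℝ => P (z0 + s • b))
        Metric.isOpen_ball
        (convex_ball t δ).isPreconnected
        (fun x hx => (hder x hx).differentiableAt.differentiableWithinAt)
        (fun x hx => (hder x hx).deriv) hs (Metric.mem_ball_self hδ)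
    have hnb0 : ∀ᶠ s : ℝ in 𝓝 0, t + s ∈ Metric.ball t δ := by
      have : Tendsto (fun s : ℝ => t + s) (𝓝 0) (𝓝 t) := by
        have : Continuous (fun s : ℝ => t + s) := by fun_prop
        simpa using this.tendsto 0
      exact this.eventually (Metric.ball_mem_nhds t hδ)
    filter_upwards [hnb0] with s hs
    have := hconst _ hs
    rwa [add_smul, ← add_assoc] at this
  have hCfreq : ∀ᶠ s in 𝓝[≠] t, C s ≠ 0 :=
    (hCan t ht).eventually_eq_zero_or_eventually_ne_zero.resolve_left hCne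
  -- choose a functional
  obtain ⟨t1, ht1J, ht1⟩ : ∃ t1 ∈ J, C t1 ≠ 0 := by
    have : ∀ᶠ s in 𝓝[≠] t, C s ≠ 0 ∧ s ∈ J :=
      hCfreq.and (mem_nhdsWithin_of_mem_nhds (hJo.mem_nhds ht))
    obtain ⟨s, hs1, hs2⟩ := this.exists
    exact ⟨s, hs2, hs1⟩
  obtain ⟨ℓ, hℓ⟩ := SeparatingDual.exists_ne_zero (R := ℝ) ht1
  set c : ℝ → ℝ := fun s => ℓ (C s) with hc
  set e : ℝ → ℝ := fun s => ℓ (A s) with he
  have hcan : AnalyticOnNhd ℝ c J := fun s hs => (ℓ.analyticAt _).comp (hCan s hs)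
  have hean : AnalyticOnNhd ℝ e J := fun s hs => (ℓ.analyticAt _).comp (hAan s hs)
  have hcne : ¬ ∀ᶠ s in 𝓝 t, c s = 0 := by
    intro hev
    have := hcan.eqOn_zero_of_preconnected_of_eventuallyEq_zero hJc ht hev
    exact hℓ (this ht1J)
  have hcfreq : ∀ᶠ s in 𝓝[≠] t, c s ≠ 0 :=
    (hcan t ht).eventually_eq_zero_or_eventually_ne_zero.resolve_left hcne
  have hμeq : ∀ᶠ s in 𝓝[≠] t, μ s = - e s / c s := by
    filter_upwards [hcfreq, mem_nhdsWithin_of_mem_nhds (hJo.mem_nhds ht)] with s hs1 hs2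
    have h1 := congrArg ℓ (hAC s hs2)
    simp only [map_add, map_smul, smul_eq_mul, map_zero] at h1
    have h2 : e s + μ s * c s = 0 := h1
    field_simp
    linarith
  have hmer : MeromorphicAt (fun s => - e s / c s) t :=
    ((hean t ht).meromorphicAt.neg).div (hcan t ht).meromorphicAt
  have hμmer : MeromorphicAt μ t := hmer.congr (by
    filter_upwards [hμeq] with s hs using hs.symm)
  have hzlim : Tendsto (fun s : ℝ => z0 + s • b) (𝓝[≠] t) (𝓝 (z0 + t • b)) := by
    have : Continuous (fun s : ℝ => z0 + s • b) := by fun_prop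
    exact (this.tendsto t).mono_left nhdsWithin_le_nhds
  have hmemJ : ∀ᶠ s in 𝓝[≠] t, s ∈ J := mem_nhdsWithin_of_mem_nhds (hJo.mem_nhds ht)
  rcases lt_or_ge (meromorphicOrderAt μ t) 0 with hneg | hnn
  · exfalso
    have hcob := tendsto_cobounded_of_meromorphicOrderAt_neg hneg
    have hinv : Tendsto (fun s => (μ s)⁻¹) (𝓝[≠] t) (𝓝 0) :=
      tendsto_inv₀_cobounded.comp hcob
    have hne0 : ∀ᶠ s in 𝓝[≠] t, μ s ≠ 0 := by
      have h1 : ∀ᶠ s in 𝓝[≠] t, 1 ≤ ‖μ s‖ :=
        (tendsto_norm_cobounded_atTop.comp hcob).eventually (eventually_ge_atTop 1)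
      filter_upwards [h1] with s hs h0
      rw [h0, norm_zero] at hs
      linarith
    apply hnb t ht
    have hvlim : Tendsto (fun s => (μ s)⁻¹ • a + b) (𝓝[≠] t) (𝓝 b) := by
      have := (hinv.smul_const a).add_const b
      simpa using this
    refine leafDir_closed F.isOpen F.analytic hzlim hvlim (hJΩ t ht) ?_
    filter_upwards [hne0, hmemJ] with s hs1 hs2
    have h1 := (hμspec s hs2).smul (μ s)⁻¹
    rwa [smul_add, smul_smul, inv_mul_cancel₀ hs1, one_smul] at h1
  · obtain ⟨L, hL⟩ := tendsto_nhds_of_meromorphicOrderAt_nonneg hμmer hnn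
    have hvlim : Tendsto (fun s => a + μ s • b) (𝓝[≠] t) (𝓝 (a + L • b)) :=
      (hL.smul_const b).const_add a
    have h1 : LeafDir P (z0 + t • b) (a + L • b) := by
      refine leafDir_closed F.isOpen F.analytic hzlim hvlim (hJΩ t ht) ?_
      filter_upwards [hmemJ] with s hs2 using hμspec s hs2
    have h2 : L = μ t := hμuniq t ht L h1
    rw [h2] at hL
    have hcontAt : ContinuousAt μ t := continuousAt_iff_punctured_nhds.2 hL
    exact hμmer.analyticAt hcontAt

end Pool.Agent.Lib.MP60a66a
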